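import Pool.Agent.Helper50.SB.DivDiff
import Pool.Agent.Helper52.OC.TraceF

/-! # Divided differences of the symmetric Newton polynomials at the nodes of a window -/

namespace Pool.Agent.Helper50.SB
open Finset Pool.Agent.Helper5.Cov Pool.Agent.Helper52.OC

variable {m n : ℕ}

/-- `∏_{i<k} (cs Y - cs (4 i + 2))` -/
noncomputable def Nn (m k : ℕ) (Y : ℤ) : ℝ := ∏ i ∈ range k, (cs m Y - cs m (4*(i:ℤ)+2))

@[simp] theorem Nn_zero (Y : ℤ) : Nn m 0 Y = 1 := by simp [Nn]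

theorem Nn_succ (k : ℕ) (Y : ℤ) : Nn m (k+1) Y = Nn m k Y * (cs m Y - cs m (4*(k:ℤ)+2)) := by
  unfold Nn; rw [prod_range_succ]

theorem cs_sub (a b x y : ℤ) (hx : a = x + y) (hy : b = x - y) :
    cs m a - cs m b = -(sn m x * sn m y) := by
  subst hx hy
  exact cs_add_sub x y

theorem Nn_up (k : ℕ) (Z : ℤ) : Nn m (k+1) (2*Z+4)
    = -(Nn m k (2*Z) * (sn m (Z+2*k+1) * sn m (Z+2*k+3))) := by
  induction k with
  | zero =>
    rw [Nn_succ, Nn_zero, Nn_zero, cs_sub (2*Z+4) _ (Z+3) (Z+1) (by ring) (by push_cast; ring)]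
    push_cast
    ring_nf
  | succ k ih =>
    rw [Nn_succ, ih, Nn_succ, cs_sub (2*Z+4) (4*((k+1:ℕ):ℤ)+2) (Z+2*k+5) (Z-2*k-1) (by ring)
      (by push_cast; ring), cs_sub (2*Z) (4*(k:ℤ)+2) (Z+2*k+1) (Z-2*k-1) (by ring) (by ring)]
    push_cast
    rw [show Z + 2*((k:ℤ)+1) + 1 = Z+2*k+3 by ring, show Z + 2*((k:ℤ)+1) + 3 = Z+2*k+5 by ring]
    ring

theorem Nn_neg (k : ℕ) (Y : ℤ) : Nn m k (-Y) = Nn m k Y := by
  unfold Nn; rw [cs_neg]

theorem Nn_down (k : ℕ) (Z : ℤ) : Nn m (k+1) (2*Z-4)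
    = -(Nn m k (2*Z) * (sn m (Z-2*k-1) * sn m (Z-2*k-3))) := by
  have h := Nn_up (m := m) k (-Z)
  rw [show 2*(-Z)+4 = -(2*Z-4) by ring, Nn_neg, show 2*(-Z) = -(2*Z) by ring, Nn_neg,
    show -Z+2*k+1 = -(Z-2*k-1) by ring, show -Z+2*k+3 = -(Z-2*k-3) by ring, sn_neg, sn_neg] at h
  rw [h]; ring

theorem Nn_diff (k : ℕ) (Z : ℤ) : Nn m (k+1) (2*Z+4) - Nn m (k+1) (2*Z-4)
    = -(Nn m k (2*Z) * (sn m (2*Z) * sn m (4*(k+1)))) := by
  have e1 := cs_sub (m := m) (2*Z+4*k+4) 2 (Z+2*k+3) (Z+2*k+1) (by ring) (by ring)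
  have e2 := cs_sub (m := m) (2*Z-4*k-4) 2 (Z-2*k-1) (Z-2*k-3) (by ring) (by ring)
  have e3 := cs_sub (m := m) (2*Z+4*k+4) (2*Z-4*k-4) (2*Z) (4*(k+1)) (by ring) (by ring)
  rw [Nn_up, Nn_down]
  linear_combination (-(Nn m k (2*Z))) * (e1 - e2 - e3)

/-- falling factorial divided by a factorial -/
noncomputable def qbin (m e d : ℕ) : ℝ :=
  (∏ l ∈ range d, sn m (4*((e:ℤ)-l))) / ∏ l ∈ range d, sn m (4*((l:ℤ)+1))

theorem qbin_zero (e : ℕ) : qbin m e 0 = 1 := by simp [qbin]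

theorem sn_zero' : sn m 0 = 0 := by unfold sn; simp

theorem qbin_eq_zero {e d : ℕ} (h : e < d) : qbin m e d = 0 := by
  unfold qbin
  rw [prod_eq_zero (i := e) (mem_range.mpr h), zero_div]
  rw [sub_self, mul_zero, sn_zero']

theorem sn_four_ne {l : ℕ} (h : l < m) : sn m (4*((l:ℤ)+1)) ≠ 0 := by
  rw [show 4*((l:ℤ)+1) = 2*(2*(l+1)) by ring]
  exact sn_even_ne (by omega) (by rw [abs_lt]; omega)

theorem qbin_succ (e : ℕ) {d : ℕ} (hd : d < m) :
    qbin m e (d+1) * sn m (4*((d:ℤ)+1)) = qbin m e d * sn m (4*((e:ℤ)-d)) := by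
  unfold qbin
  have h1 : ∏ l ∈ range d, sn m (4*((l:ℤ)+1)) ≠ 0 := by
    rw [prod_ne_zero_iff]
    intro l hl
    rw [mem_range] at hl
    exact sn_four_ne (by omega)
  have h2 := sn_four_ne hd
  rw [prod_range_succ, prod_range_succ]
  field_simp

/-- closed form of the divided differences -/
noncomputable def CF (m n e i j : ℕ) : ℝ :=
  qbin m e (j-i) * Nn m (e-(j-i)) (4*((i:ℤ)+j)-4*n+6)

theorem CF_self (e i : ℕ) : CF m n e i i = Nn m e (8*(i:ℤ)-4*n+6) := by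
  unfold CF
  rw [Nat.sub_self, qbin_zero, one_mul, Nat.sub_zero]
  congr 1; ring

theorem CF_rec (hn : n ≤ m) (e : ℕ) {i j : ℕ} (hij : i < j) (hj : j < n) :
    CF m n e i j * (cs m (8*(j:ℤ)-4*n+6) - cs m (8*(i:ℤ)-4*n+6))
      = CF m n e (i+1) j - CF m n e i (j-1) := by
  obtain ⟨d, rfl⟩ : ∃ d, j = i + d + 1 := ⟨j - (i+1), by omega⟩
  unfold CF
  have b1 : i + d + 1 - i = d + 1 := by omega
  have b2 : i + d + 1 - (i + 1) = d := by omega
  have b3 : i + d + 1 - 1 - i = d := by omega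
  rw [b1, b2, b3]
  set Z : ℤ := 2*(2*i+d+1)-2*n+3 with hZ
  have a1 : (4*((i:ℤ)+((i+d+1:ℕ):ℤ))-4*n+6) = 2*Z := by rw [hZ]; push_cast; ring
  have a2 : (4*(((i+1:ℕ):ℤ)+((i+d+1:ℕ):ℤ))-4*n+6) = 2*Z+4 := by rw [hZ]; push_cast; ring
  have a3 : (4*((i:ℤ)+((i+d+1-1:ℕ):ℤ))-4*n+6) = 2*Z-4 := by
    rw [hZ, Nat.add_sub_cancel]; push_cast; ring
  rw [a1, a2, a3, cs_sub (8*((i+d+1:ℕ):ℤ)-4*n+6) (8*(i:ℤ)-4*n+6) (2*Z) (4*((d:ℤ)+1))
    (by rw [hZ]; push_cast; ring) (by rw [hZ]; push_cast; ring)]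
  rcases lt_trichotomy e d with h | h | h
  · rw [qbin_eq_zero (by omega : e < d + 1), qbin_eq_zero h]; ring
  · subst h
    rw [qbin_eq_zero (by omega : e < e + 1), Nat.sub_self, Nn_zero, Nn_zero]; ring
  · obtain ⟨k, rfl⟩ : ∃ k, e = d + 1 + k := ⟨e - (d+1), by omega⟩
    have c1 : d + 1 + k - (d + 1) = k := by omega
    have c2 : d + 1 + k - d = k + 1 := by omega
    rw [c1, c2]
    have e1 := Nn_diff (m := m) k Z
    have e2 := qbin_succ (m := m) (d+1+k) (d := d) (by omega)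
    have e3 : 4*(((d+1+k:ℕ):ℤ)-(d:ℤ)) = 4*(k+1) := by push_cast; ring
    rw [e3] at e2
    linear_combination (-(Nn m k (2*Z) * sn m (2*Z))) * e2 - (qbin m (d+1+k) d) * e1

/-! ## the nodes -/

/-- the nodes in the order of the split basis -/
noncomputable def cn (m n : ℕ) (l : ℕ) : ℂ := ((cs m (8*(l:ℤ)-4*n+6) : ℝ) : ℂ)

/-- the nodes in the order of the places -/
noncomputable def vn (m : ℕ) (y : ℕ) : ℂ := ((cs m (4*(y:ℤ)+2) : ℝ) : ℂ)

theorem cn_inj (h : Ok m n) : Set.InjOn (cn m n) (Set.Iio n) := by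
  intro i hi j hj hij
  by_contra hne
  have := h.del_ne hi hj hne
  unfold cn at hij
  rw [Complex.ofReal_inj] at hij
  exact this (sub_eq_zero.mpr hij)

theorem cn_kx {l : ℕ} (hl : l < n) : cn m n l = vn m (kx n l) := by
  unfold cn vn
  rw [cs_kx hl]

theorem vn_inj (h : Ok m n) : Set.InjOn (vn m) (Set.Iio n) := by
  intro x hx y hy hxy
  obtain ⟨i, hi, rfl⟩ := kx_surj hx
  obtain ⟨j, hj, rfl⟩ := kx_surj hy
  rw [← cn_kx hi, ← cn_kx hj] at hxy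
  rw [cn_inj h (Set.mem_Iio.mpr hi) (Set.mem_Iio.mpr hj) hxy]

/-- divided differences of the Newton polynomials -/
theorem dd_Nn (h : Ok m n) (e : ℕ) {i j : ℕ} (hij : i ≤ j) (hj : j < n) :
    dd (cn m n) (fun l => ((Nn m e (8*(l:ℤ)-4*n+6) : ℝ) : ℂ)) i j = ((CF m n e i j : ℝ) : ℂ) := by
  refine dd_unique (cn_inj h) (fun i j => ((CF m n e i j : ℝ) : ℂ)) (fun i _ => ?_) ?_ i j hij hj
  · rw [CF_self]
  · intro i j hij hj
    have := CF_rec (m := m) (n := n) h.2 e hij hj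
    unfold cn
    rw [← Complex.ofReal_sub, ← Complex.ofReal_sub, ← Complex.ofReal_mul, this]

/-- coefficients in the Newton basis of all places -/
noncomputable def Ce (m : ℕ) (t : ℕ → ℂ) (e : ℕ) : ℂ := dd (vn m) t 0 e

theorem newton_vn (h : Ok m n) (t : ℕ → ℂ) {y : ℕ} (hy : y < n) :
    t y = ∑ e ∈ range n, Ce m t e * ((Nn m e (4*(y:ℤ)+2) : ℝ) : ℂ) := by
  rw [newton (f := t) (vn_inj h) hy y 0 (by omega)]
  have e1 : ∀ e, ∏ k ∈ Ico 0 e, (vn m y - vn m k) = ((Nn m e (4*(y:ℤ)+2) : ℝ) : ℂ) := by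
    intro e
    unfold Nn vn
    rw [← range_eq_Ico]
    push_cast
    rfl
  rw [← sum_subset (s₁ := Icc 0 y) (s₂ := range n)]
  · apply sum_congr rfl
    intro e _
    rw [e1]; rfl
  · intro x hx
    rw [mem_Icc] at hx
    rw [mem_range]; omega
  · intro x hx1 hx2
    rw [mem_range] at hx1
    rw [mem_Icc] at hx2
    have : Nn m x (4*(y:ℤ)+2) = 0 := by
      unfold Nn
      exact prod_eq_zero (i := y) (mem_range.mpr (by omega)) (sub_self _)
    rw [this, Complex.ofReal_zero, mul_zero]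

/-- the divided differences of a function of the place over a window -/
noncomputable def Dw (m n : ℕ) (t : ℕ → ℂ) (i j : ℕ) : ℂ := dd (cn m n) (fun l => t (kx n l)) i j

theorem Dw_eq (h : Ok m n) (t : ℕ → ℂ) {i j : ℕ} (hij : i ≤ j) (hj : j < n) :
    Dw m n t i j = ∑ e ∈ range n, Ce m t e * ((CF m n e i j : ℝ) : ℂ) := by
  have e1 : Dw m n t i j = dd (cn m n) (fun l => ∑ e ∈ range n, Ce m t e *
      ((Nn m e (8*(l:ℤ)-4*n+6) : ℝ) : ℂ)) i j := by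
    unfold Dw dd
    apply sum_congr rfl
    intro l hl
    rw [mem_Icc] at hl
    congr 1
    simp only
    rw [newton_vn h t (kx_lt (show l < n by omega))]
    apply sum_congr rfl
    intro e _
    unfold Nn
    rw [cs_kx (by omega)]
  rw [e1]
  have e2 : ∀ e ∈ range n, Ce m t e * ((CF m n e i j : ℝ) : ℂ)
      = ∑ l ∈ Icc i j, Ce m t e * ((Nn m e (8*(l:ℤ)-4*n+6) : ℝ) : ℂ)
        * (∏ k ∈ (Icc i j).erase l, (cn m n l - cn m n k))⁻¹ := by
    intro e _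
    rw [← dd_Nn h e hij hj]
    unfold dd
    rw [mul_sum]
    apply sum_congr rfl
    intro l _
    ring
  rw [sum_congr rfl e2, sum_comm]
  unfold dd
  apply sum_congr rfl
  intro l _
  rw [sum_mul]

/-- the split basis makes diagonal matrices triangular -/
theorem Em_diag_Dw (h : Ok m n) (t : ℕ → ℂ) :
    Em m n * Matrix.diagonal (fun x : Fin n => t x) = Dm n (Dw m n t) * Em m n := by
  refine Em_diag h t (Dw m n t) (fun i hi => ?_) ?_
  · unfold Dw; rw [dd_self]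
  · intro i j hij hj
    have := dd_rec (f := fun l => t (kx n l)) (cn_inj h) hij hj
    unfold cn at this
    rw [Complex.ofReal_sub]
    exact this

end Pool.Agent.Helper50.SB
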