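import Pool.Agent.Helper50.SB.Ineq

/-! # The inequality for the central windows -/

namespace Pool.Agent.Helper50.SB
open Finset Filter Topology MeasureTheory Pool.Agent.Helper5.Cov Pool.Agent.Helper52.OC
  Pool.Agent.Helper5.AF Pool.Agent.Helper5.TV

/-- on the critical surface -/
theorem surf1 {a b e : ℝ} (h : Real.cos e * Real.sin (a+b) = 2*Real.sin e * Real.cos a * Real.cos b) :
    Real.sin (e-a) * Real.cos b = Real.sin (b-e) * Real.cos a := by
  rw [Real.sin_add] at h
  rw [Real.sin_sub, Real.sin_sub]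
  linear_combination (-1:ℝ) * h

theorem surf2 {a b e : ℝ} (he : Real.cos e ≠ 0)
    (h : Real.cos e * Real.sin (a+b) = 2*Real.sin e * Real.cos a * Real.cos b) :
    Real.sin (2*e-a-b) * Real.cos b^2 = Real.sin (a+b) * Real.sin (b-e)^2 := by
  have h1 := key_id a b e
  have h2 := surf1 h
  apply mul_left_cancel₀ he
  linear_combination (-Real.cos b^2) * h1 + (2*Real.sin e*Real.sin (b-e)*Real.cos b) * h2
    + (-Real.cos b^2 - Real.sin (b-e)^2) * h

theorem surf3 {a b e : ℝ} (he : Real.cos e ≠ 0)
    (h : Real.cos e * Real.sin (a+b) = 2*Real.sin e * Real.cos a * Real.cos b) :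
    Real.sin (2*e-a-b) * Real.cos a^2 = Real.sin (a+b) * Real.sin (e-a)^2 := by
  have h1 := key_id a b e
  have h2 := surf1 h
  apply mul_left_cancel₀ he
  linear_combination (-Real.cos a^2) * h1 - (2*Real.sin e*Real.sin (e-a)*Real.cos a) * h2
    + (-Real.cos a^2 - Real.sin (e-a)^2) * h

theorem log_id {A B C D : ℝ} (hA : A ≠ 0) (hB : B ≠ 0) (hC : C ≠ 0) (hD : D ≠ 0)
    (h : A * B^2 = C * D^2) : Real.log (2*A) - Real.log (2*C) + 2*Real.log (2*B) - 2*Real.log (2*D) = 0 := by
  have h1 := congrArg Real.log h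
  rw [Real.log_mul hA (by positivity), Real.log_mul hC (by positivity), Real.log_pow, Real.log_pow] at h1
  push_cast at h1
  rw [Real.log_mul two_ne_zero hA, Real.log_mul two_ne_zero hB, Real.log_mul two_ne_zero hC,
    Real.log_mul two_ne_zero hD]
  linarith

/-- the derivative along a path with fixed `e` -/
theorem hR_path {a b : ℝ → ℝ} {a' b' s e : ℝ} (ha : HasDerivAt a a' s) (hb : HasDerivAt b b' s)
    (h1 : Real.sin (a s + b s) ≠ 0) (h2 : Real.sin (2*e - a s - b s) ≠ 0)
    (h3 : Real.sin (b s - e) ≠ 0) (h4 : Real.sin (e - a s) ≠ 0) (h5 : Real.cos (a s) ≠ 0)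
    (h6 : Real.cos (b s) ≠ 0) :
    HasDerivAt (fun s => hR (a s) (b s) e)
      (a' * (ls (2*e - a s - b s) - ls (a s + b s) + 2*ls (Real.pi/2 - a s) - 2*ls (e - a s))
      + b' * (ls (2*e - a s - b s) - ls (a s + b s) + 2*ls (Real.pi/2 - b s) - 2*ls (b s - e))) s := by
  have c1 : HasDerivAt (fun s => lob (a s + b s)) (-ls (a s + b s) * (a' + b')) s :=
    dcomp (f := lob) (g := fun s => a s + b s) (hasDerivAt_lob h1) (ha.add hb)
  have c2 : HasDerivAt (fun s => lob (2*e - a s - b s)) (-ls (2*e - a s - b s) * (-a' - b')) s :=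
    dcomp (f := lob) (g := fun s => 2*e - a s - b s) (hasDerivAt_lob h2) ((ha.const_sub (2*e)).sub hb)
  have c3 : HasDerivAt (fun s => lob (b s - e)) (-ls (b s - e) * b') s :=
    dcomp (f := lob) (g := fun s => b s - e) (hasDerivAt_lob h3) (hb.sub_const e)
  have c4 : HasDerivAt (fun s => lob (e - a s)) (-ls (e - a s) * (-a')) s :=
    dcomp (f := lob) (g := fun s => e - a s) (hasDerivAt_lob h4) (ha.const_sub e)
  have c5 : HasDerivAt (fun s => lob (Real.pi/2 - a s)) (-ls (Real.pi/2 - a s) * (-a')) s :=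
    dcomp (f := lob) (g := fun s => Real.pi/2 - a s) (hasDerivAt_lob (by rw [Real.sin_pi_div_two_sub]; exact h5)) (ha.const_sub _)
  have c6 : HasDerivAt (fun s => lob (Real.pi/2 - b s)) (-ls (Real.pi/2 - b s) * (-b')) s :=
    dcomp (f := lob) (g := fun s => Real.pi/2 - b s) (hasDerivAt_lob (by rw [Real.sin_pi_div_two_sub]; exact h6)) (hb.const_sub _)
  have c := ((((((c1.add c2).add (c3.const_mul 2)).sub (c4.const_mul 2)).add (c5.const_mul 2)).add
    (c6.const_mul 2))).const_add (-(2*lob e) - 2*lob (Real.pi/2 - e))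
  refine (c.congr_deriv (by ring)).congr_of_eventuallyEq ?_
  apply Eventually.of_forall
  intro s
  simp only [hR, Pi.add_apply, Pi.sub_apply]
  ring

/-- the derivative in `e` -/
theorem hR_de {a b e : ℝ} (h1 : Real.sin e ≠ 0) (h2 : Real.sin (2*e-a-b) ≠ 0)
    (h3 : Real.sin (b-e) ≠ 0) (h4 : Real.sin (e-a) ≠ 0) (h5 : Real.cos e ≠ 0) :
    HasDerivAt (fun e => hR a b e)
      (2*(ls e - ls (Real.pi/2 - e) - ls (2*e-a-b) + ls (b-e) + ls (e-a))) e := by
  have i := hasDerivAt_id e
  have c1 : HasDerivAt (fun e => lob e) (-ls e) e := hasDerivAt_lob h1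
  have c2 : HasDerivAt (fun e => lob (2*e-a-b)) (-ls (2*e-a-b) * (2*1)) e :=
    dcomp (f := lob) (g := fun e => 2*e-a-b) (hasDerivAt_lob h2) (((i.const_mul 2).sub_const a).sub_const b)
  have c3 : HasDerivAt (fun e => lob (b-e)) (-ls (b-e) * (-1)) e :=
    dcomp (f := lob) (g := fun e => b-e) (hasDerivAt_lob h3) (i.const_sub b)
  have c4 : HasDerivAt (fun e => lob (e-a)) (-ls (e-a) * 1) e :=
    dcomp (f := lob) (g := fun e => e-a) (hasDerivAt_lob h4) (i.sub_const a)
  have c5 : HasDerivAt (fun e => lob (Real.pi/2 - e)) (-ls (Real.pi/2 - e) * (-1)) e :=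
    dcomp (f := lob) (g := fun e => Real.pi/2 - e) (hasDerivAt_lob (by rw [Real.sin_pi_div_two_sub]; exact h5)) (i.const_sub _)
  have c := (((((c1.const_mul 2).neg.sub (c5.const_mul 2)).add c2).add (c3.const_mul 2)).sub
    (c4.const_mul 2)).add_const (lob (a+b) + 2*lob (Real.pi/2 - a) + 2*lob (Real.pi/2 - b))
  refine (c.congr_deriv (by ring)).congr_of_eventuallyEq ?_
  apply Eventually.of_forall
  intro s
  simp only [hR, Pi.add_apply, Pi.sub_apply, Pi.neg_apply]
  ring

/-- the difference of the exponents vanishes on the critical surface -/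
theorem hR_surf {T σ : ℝ} (h0 : 0 ≤ σ) (h1 : σ ≤ T) :
    hR (Real.arctan (T-σ)) (Real.arctan (T+σ)) (Real.arctan T) = 0 := by
  rcases eq_or_lt_of_le h0 with hσ | hσ
  · rw [← hσ, sub_zero, add_zero, hR_diag]
  set H : ℝ → ℝ := fun s => hR (Real.arctan (T-s)) (Real.arctan (T+s)) (Real.arctan T) with hH
  have hcont : Continuous H := by
    have := lob_continuous
    simp only [hH, hR]
    fun_prop
  set e := Real.arctan T with he
  have hT : 0 < T := by linarith
  have hd : ∀ s ∈ Set.Ioo 0 σ, HasDerivAt H 0 s := by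
    rintro s ⟨s0, s1⟩
    have ta : Real.arctan (T-s) < e := Real.arctan_strictMono (by linarith)
    have tb : e < Real.arctan (T+s) := Real.arctan_strictMono (by linarith)
    have ta0 : 0 < Real.arctan (T-s) := Real.arctan_pos.mpr (by linarith)
    have tb1 := Real.arctan_lt_pi_div_two (T+s)
    have te1 := Real.arctan_lt_pi_div_two T
    have da : HasDerivAt (fun s => Real.arctan (T-s)) (1/(1+(T-s)^2) * (-1)) s :=
      (Real.hasDerivAt_arctan (T-s)).comp s ((hasDerivAt_id s).const_sub T)
    have db : HasDerivAt (fun s => Real.arctan (T+s)) (1/(1+(T+s)^2) * 1) s :=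
      (Real.hasDerivAt_arctan (T+s)).comp s ((hasDerivAt_id s).const_add T)
    set a := Real.arctan (T-s) with hadef
    set b := Real.arctan (T+s) with hbdef
    have ca : 0 < Real.cos a := Real.cos_arctan_pos _
    have cb : 0 < Real.cos b := Real.cos_arctan_pos _
    have ce : 0 < Real.cos e := Real.cos_arctan_pos _
    have se : 0 < Real.sin e := Real.sin_pos_of_pos_of_lt_pi (by linarith) (by linarith)
    have sab : 0 < Real.sin (a+b) := Real.sin_pos_of_pos_of_lt_pi (by linarith) (by linarith)
    have sbe : 0 < Real.sin (b-e) := Real.sin_pos_of_pos_of_lt_pi (by linarith) (by linarith)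
    have sea : 0 < Real.sin (e-a) := Real.sin_pos_of_pos_of_lt_pi (by linarith) (by linarith)
    have hS : Real.cos e * Real.sin (a+b) = 2*Real.sin e * Real.cos a * Real.cos b := by
      have t1 : Real.sin a = (T-s) * Real.cos a := by
        have := Real.tan_arctan (T-s)
        rw [← hadef, Real.tan_eq_sin_div_cos, div_eq_iff ca.ne'] at this
        exact this
      have t2 : Real.sin b = (T+s) * Real.cos b := by
        have := Real.tan_arctan (T+s)
        rw [← hbdef, Real.tan_eq_sin_div_cos, div_eq_iff cb.ne'] at this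
        exact this
      have t3 : Real.sin e = T * Real.cos e := by
        have := Real.tan_arctan T
        rw [← he, Real.tan_eq_sin_div_cos, div_eq_iff ce.ne'] at this
        exact this
      rw [Real.sin_add, t1, t2, t3]
      ring
    have s2 : Real.sin (2*e-a-b) ≠ 0 := by
      intro h
      have := key_id a b e
      rw [h, hS] at this
      have : 0 < 2*Real.sin e * Real.sin (b-e) * Real.sin (e-a) := by positivity
      linarith
    have hp := hR_path (e := e) da db sab.ne' s2 sbe.ne' sea.ne' ca.ne' cb.ne'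
    refine hp.congr_deriv ?_
    have g1 := log_id s2 ca.ne' sab.ne' sea.ne' (surf3 ce.ne' hS)
    have g2 := log_id s2 cb.ne' sab.ne' sbe.ne' (surf2 ce.ne' hS)
    have g1' : ls (2*e-a-b) - ls (a+b) + 2*ls (Real.pi/2 - a) - 2*ls (e-a) = 0 := by
      unfold ls; rw [Real.sin_pi_div_two_sub]; exact g1
    have g2' : ls (2*e-a-b) - ls (a+b) + 2*ls (Real.pi/2 - b) - 2*ls (b-e) = 0 := by
      unfold ls; rw [Real.sin_pi_div_two_sub]; exact g2
    simp only [← hadef, ← hbdef]
    rw [g1', g2']
    ring
  obtain ⟨c, hc, h⟩ := exists_hasDerivAt_eq_slope H (fun _ => 0) hσ hcont.continuousOn (fun x hx => hd x hx)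
  have h' : H σ - H 0 = 0 := by
    rw [eq_comm, div_eq_zero_iff] at h
    rcases h with h | h
    · exact h
    · linarith
  have h00 : H 0 = 0 := by
    rw [hH]
    simp only [sub_zero, add_zero]
    exact hR_diag _
  linarith

theorem tan_convex {a b : ℝ} (h0 : 0 ≤ a) (h1 : a < Real.pi/2) (b0 : 0 ≤ b) (b1 : b < Real.pi/2) :
    Real.tan ((a+b)/2) ≤ (Real.tan a + Real.tan b)/2 := by
  have hp := Real.pi_pos
  have ca : 0 < Real.cos a := Real.cos_pos_of_mem_Ioo ⟨by linarith, h1⟩
  have cb : 0 < Real.cos b := Real.cos_pos_of_mem_Ioo ⟨by linarith, b1⟩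
  have cm : 0 < Real.cos ((a+b)/2) := Real.cos_pos_of_mem_Ioo ⟨by linarith, by linarith⟩
  have sm : 0 ≤ Real.sin ((a+b)/2) := Real.sin_nonneg_of_nonneg_of_le_pi (by linarith) (by linarith)
  have e1 : Real.tan a + Real.tan b = Real.sin (a+b) / (Real.cos a * Real.cos b) := by
    rw [Real.tan_eq_sin_div_cos, Real.tan_eq_sin_div_cos, Real.sin_add]
    field_simp
  have e2 : Real.sin (a+b) = 2*Real.sin ((a+b)/2) * Real.cos ((a+b)/2) := by
    rw [← Real.sin_two_mul]; congr 1; ring
  have e3 : Real.cos a * Real.cos b ≤ Real.cos ((a+b)/2)^2 := by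
    have c4 := Real.cos_add a b
    have c5 := Real.cos_sub a b
    have c6 : Real.cos (a+b) = 2*Real.cos ((a+b)/2)^2 - 1 := by
      rw [← Real.cos_two_mul]; congr 1; ring
    have := Real.cos_le_one (a-b)
    linarith
  rw [e1, e2, Real.tan_eq_sin_div_cos, le_div_iff₀ (by norm_num), div_mul_eq_mul_div,
    div_le_div_iff₀ cm (by positivity)]
  nlinarith [mul_le_mul_of_nonneg_left e3 sm]

/-- **(R)** -/
theorem hR_le {a b e : ℝ} (h0 : 0 ≤ a) (h1 : a ≤ b) (h2 : b < Real.pi/2) (h3 : (a+b)/2 ≤ e)
    (h4 : e ≤ b) : hR a b e ≤ 0 := by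
  have hp := Real.pi_pos
  rcases eq_or_lt_of_le h1 with hab | hab
  · have : e = a := by linarith
    rw [this, ← hab, hR_diag]
  have ta : Real.tan a < Real.tan b := Real.tan_lt_tan_of_lt_of_lt_pi_div_two (by linarith) h2 hab
  have ta0 : 0 ≤ Real.tan a := Real.tan_nonneg_of_nonneg_of_le_pi_div_two h0 (by linarith)
  set T := (Real.tan a + Real.tan b)/2 with hT
  set e' := Real.arctan T with he'
  have hconv := tan_convex h0 (by linarith) (by linarith : 0 ≤ b) h2
  rw [← hT] at hconv
  have e'b : e' < b := by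
    rw [he', ← Real.arctan_tan (x := b) (by linarith) h2]
    exact Real.arctan_strictMono (by rw [hT]; linarith)
  have e'm : (a+b)/2 ≤ e' := by
    rw [he', ← Real.arctan_tan (x := (a+b)/2) (by linarith) (by linarith)]
    exact Real.arctan_strictMono.monotone hconv
  have hz : hR a b e' = 0 := by
    have h := hR_surf (T := T) (σ := (Real.tan b - Real.tan a)/2) (by linarith) (by rw [hT]; linarith)
    rw [show T - (Real.tan b - Real.tan a)/2 = Real.tan a by rw [hT]; ring,
      show T + (Real.tan b - Real.tan a)/2 = Real.tan b by rw [hT]; ring,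
      Real.arctan_tan (by linarith) (by linarith), Real.arctan_tan (by linarith) h2] at h
    exact h
  have hcont : Continuous (fun e => hR a b e) := by
    have := lob_continuous
    simp only [hR]
    fun_prop
  -- the sign of the derivative
  have hd : ∀ c, (a+b)/2 < c → c < b → HasDerivAt (fun e => hR a b e)
      (2*(ls c - ls (Real.pi/2 - c) - ls (2*c-a-b) + ls (b-c) + ls (c-a))) c ∧
      (c < e' → 0 ≤ 2*(ls c - ls (Real.pi/2 - c) - ls (2*c-a-b) + ls (b-c) + ls (c-a))) ∧
      (e' < c → 2*(ls c - ls (Real.pi/2 - c) - ls (2*c-a-b) + ls (b-c) + ls (c-a)) ≤ 0) := by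
    intro c c0 c1
    have s1 : 0 < Real.sin c := Real.sin_pos_of_pos_of_lt_pi (by linarith) (by linarith)
    have s2 : 0 < Real.sin (2*c-a-b) := Real.sin_pos_of_pos_of_lt_pi (by linarith) (by linarith)
    have s3 : 0 < Real.sin (b-c) := Real.sin_pos_of_pos_of_lt_pi (by linarith) (by linarith)
    have s4 : 0 < Real.sin (c-a) := Real.sin_pos_of_pos_of_lt_pi (by linarith) (by linarith)
    have s5 : 0 < Real.cos c := Real.cos_pos_of_mem_Ioo ⟨by linarith, by linarith⟩
    have ca : 0 < Real.cos a := Real.cos_pos_of_mem_Ioo ⟨by linarith, by linarith⟩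
    have cb : 0 < Real.cos b := Real.cos_pos_of_mem_Ioo ⟨by linarith, by linarith⟩
    have hk := key_id a b c
    have hS : Real.cos c * Real.sin (a+b) - 2*Real.sin c*Real.cos a*Real.cos b
        = 2 * Real.cos a * Real.cos b * Real.cos c * (T - Real.tan c) := by
      rw [hT, Real.tan_eq_sin_div_cos, Real.tan_eq_sin_div_cos, Real.tan_eq_sin_div_cos, Real.sin_add]
      field_simp
    have e1 : ls c - ls (Real.pi/2 - c) - ls (2*c-a-b) + ls (b-c) + ls (c-a)
        = Real.log (2*Real.sin c * Real.sin (b-c) * Real.sin (c-a)) - Real.log (Real.cos c * Real.sin (2*c-a-b)) := by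
      unfold ls
      have l1 : Real.log (2*Real.sin c * Real.sin (b-c) * Real.sin (c-a))
          = Real.log 2 + Real.log (Real.sin c) + Real.log (Real.sin (b-c)) + Real.log (Real.sin (c-a)) := by
        rw [Real.log_mul (by positivity) s4.ne', Real.log_mul (by positivity) s3.ne',
          Real.log_mul two_ne_zero s1.ne']
      rw [Real.sin_pi_div_two_sub, l1,
        Real.log_mul two_ne_zero s1.ne',
        Real.log_mul two_ne_zero s5.ne', Real.log_mul two_ne_zero s2.ne', Real.log_mul two_ne_zero s3.ne',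
        Real.log_mul two_ne_zero s4.ne', Real.log_mul s5.ne' s2.ne']
      ring
    refine ⟨hR_de s1.ne' s2.ne' s3.ne' s4.ne' s5.ne', fun hc => ?_, fun hc => ?_⟩
    · have t1 : Real.tan c ≤ T := by
        have := Real.tan_lt_tan_of_lt_of_lt_pi_div_two (x := c) (y := e') (by linarith) (by linarith) hc
        rw [he', Real.tan_arctan] at this
        exact this.le
      rw [e1]
      have : Real.log (Real.cos c * Real.sin (2*c-a-b))
          ≤ Real.log (2*Real.sin c * Real.sin (b-c) * Real.sin (c-a)) := by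
        apply Real.log_le_log (by positivity)
        rw [hk, hS]
        have : 0 ≤ 2 * Real.cos a * Real.cos b * Real.cos c * (T - Real.tan c) :=
          mul_nonneg (by positivity) (by linarith)
        linarith
      linarith
    · have t1 : T ≤ Real.tan c := by
        have := Real.tan_lt_tan_of_lt_of_lt_pi_div_two (x := e') (y := c) (by linarith) (by linarith) hc
        rw [he', Real.tan_arctan] at this
        exact this.le
      rw [e1]
      have : Real.log (2*Real.sin c * Real.sin (b-c) * Real.sin (c-a))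
          ≤ Real.log (Real.cos c * Real.sin (2*c-a-b)) := by
        apply Real.log_le_log (by positivity)
        rw [hk, hS]
        have : 0 ≤ 2 * Real.cos a * Real.cos b * Real.cos c * (Real.tan c - T) :=
          mul_nonneg (by positivity) (by linarith)
        linarith
      linarith
  rcases lt_trichotomy e e' with h | h | h
  · obtain ⟨c, hc, hs⟩ := exists_hasDerivAt_eq_slope (fun e => hR a b e) _ h hcont.continuousOn
      (fun x hx => (hd x (by linarith [hx.1]) (by linarith [hx.2])).1)
    have h5 := (hd c (by linarith [hc.1]) (by linarith [hc.2])).2.1 hc.2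
    rw [hs, le_div_iff₀ (by linarith), hz] at h5
    linarith
  · rw [h, hz]
  · obtain ⟨c, hc, hs⟩ := exists_hasDerivAt_eq_slope (fun e => hR a b e) _ h hcont.continuousOn
      (fun x hx => (hd x (by linarith [hx.1]) (by linarith [hx.2])).1)
    have h5 := (hd c (by linarith [hc.1]) (by linarith [hc.2])).2.2 hc.1
    rw [hs, div_le_iff₀ (by linarith), hz] at h5
    linarith

end Pool.Agent.Helper50.SB
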