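import Pool.Agent.Helper50.SB.CF
import Pool.Agent.Helper5.AF.SeFinal

/-! # The Newton coefficients of the twist as contour integrals -/

namespace Pool.Agent.Helper50.SB
open Finset Pool.Agent.Helper5.Cov Pool.Agent.Helper52.OC Pool.Agent.Helper5.AF Complex MeasureTheory
open Pool.Agent.Helper5.TV

variable {m : ℕ}

/-- residues at one node -/
theorem rect_gen {F : ℂ → ℂ} (hF : Differentiable ℂ F) {M k : ℕ} (hk : k < M) (h4 : 4*M ≤ 2*m+1)
    {η : ℝ} (hη : 0 < η) :
    rectI (fun q => F q * (zf q - zf (nd m k : ℝ))⁻¹) 0 (ep m M) (-η) η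
      = 2 * Real.pi * I * (F (nd m k : ℝ) / deriv zf (nd m k : ℝ)) := by
  have hE := ep_pos (m := m) (M := M) (by omega)
  have hn0 := nd_pos (m := m) k
  have hn1 := nd_lt' (m := m) hk
  set p : ℂ := ((nd m k : ℝ) : ℂ) with hp
  have hDdiff : Differentiable ℂ (dslope zf p) := by
    have := (Complex.differentiableOn_dslope (f := zf) (c := p) (s := Set.univ) Filter.univ_mem).mpr
      zf_diff.differentiableOn
    exact differentiableOn_univ.mp this
  have hDne : ∀ q ∈ Set.Icc 0 (ep m M) ×ℂ Set.Icc (-η) η, dslope zf p q ≠ 0 := by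
    intro q hq
    rcases eq_or_ne q p with rfl | hqp
    · rw [dslope_same]; exact zf_deriv_ne hk h4
    · rw [dslope_of_ne _ hqp, slope_def_field]
      exact div_ne_zero (zf_ne hk h4 hq.1.1 hq.1.2 hqp) (sub_ne_zero.mpr hqp)
  have h1 := rectI_cauchy (H := fun q => F q / dslope zf p q) (p := p) (x0 := 0)
    (x1 := ep m M) (y0 := -η) (y1 := η) (by rw [hp]; simpa using hn0) (by rw [hp]; simpa using hn1)
    (by rw [hp]; simpa using hη) (by rw [hp]; simpa using hη)
    (fun q hq => (hF q).div (hDdiff q) (hDne q hq))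
  rw [dslope_same] at h1
  rw [← h1]
  apply rectI_congr hE (by linarith)
  intro q hq hb
  have hqp : q ≠ p := by
    rintro rfl
    rw [hp] at hb
    simp only [Complex.ofReal_im, Complex.ofReal_re] at hb
    rcases hb with h | h | h | h <;> linarith
  have e1 : zf q - zf p = (q - p) * dslope zf p q := by
    have := sub_smul_dslope zf p q
    rw [smul_eq_mul] at this
    exact this.symm
  have e2 := hDne q hq
  have e3 : q - p ≠ 0 := sub_ne_zero.mpr hqp
  rw [e1]
  field_simp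

/-- the twist at the place `k` -/
noncomputable def tw (a m k : ℕ) : ℂ := (AA m ^ ((k:ℤ)*((k:ℤ)+1)))^a

theorem tw_eq (a k : ℕ) : tw a m k = AA m ^ ((a:ℤ)*((k:ℤ)*((k:ℤ)+1))) := by
  unfold tw
  rw [← zpow_natCast, ← zpow_mul, mul_comm]

/-- numerator -/
noncomputable def hg (a m : ℕ) (φ : ℂ) : ℂ := hf a m φ * (2 * Complex.cos φ)

theorem hg_diff (a m : ℕ) : Differentiable ℂ (hg a m) := by
  unfold hg
  have := hf_diff a m
  fun_prop

/-- the integrand -/
noncomputable def gg (a m M : ℕ) (φ : ℂ) : ℂ := gf a m M φ * (2 * Complex.cos φ)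

/-- **the coefficient as a contour integral** -/
theorem Ce_contour (a : ℕ) {M : ℕ} (hM : 1 ≤ M) (h4 : 4*M ≤ 2*m+1) {η : ℝ} (hη : 0 < η) :
    rectI (gg a m M) 0 (ep m M) (-η) η
      = 2 * Real.pi * I * (Complex.exp (Complex.I * (Real.pi * a / (4*(2*m+1)))) * Ce m (tw a m) (M-1)) := by
  have hE := ep_pos (m := m) hM
  have hinj : Set.InjOn (fun i => zf (nd m i : ℝ)) (range M : Set ℕ) := by
    intro i hi j hj hij
    simp only [coe_range, Set.mem_Iio] at hi hj
    by_contra hne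
    have h1 : ((nd m i : ℝ) : ℂ) ≠ (nd m j : ℝ) := by
      intro h
      exact hne (nd_inj (by exact_mod_cast h))
    have h2 := zf_ne (m := m) hj h4 (q := (nd m i : ℝ)) (by simpa using (nd_pos i).le)
      (by simpa using (nd_lt' hi).le) h1
    simp only at hij
    exact h2 (sub_eq_zero.mpr hij)
  have hsum : rectI (gg a m M) 0 (ep m M) (-η) η
      = rectI (fun q => ∑ k ∈ range M, (∏ j ∈ (range M).erase k,
          (zf (nd m k : ℝ) - zf (nd m j : ℝ)))⁻¹ * (hg a m q * (zf q - zf (nd m k : ℝ))⁻¹))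
          0 (ep m M) (-η) η := by
    apply rectI_congr hE (by linarith)
    intro q hq hb
    have hne : ∀ i ∈ range M, zf q ≠ zf (nd m i : ℝ) := by
      intro i hi
      rw [mem_range] at hi
      have hqp : q ≠ (nd m i : ℝ) := by
        rintro rfl
        have hn0 := nd_pos (m := m) i
        have hn1 := nd_lt' (m := m) hi
        simp only [Complex.ofReal_im, Complex.ofReal_re] at hb
        rcases hb with h | h | h | h <;> linarith
      exact sub_ne_zero.mp (zf_ne hi h4 hq.1.1 hq.1.2 hqp)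
    have hpf := partial_fractions (v := fun i => zf (nd m i : ℝ)) hinj ⟨0, mem_range.mpr (by omega)⟩ hne
    have e1 : gg a m M q = hg a m q * (∏ i ∈ range M, (zf q - zf (nd m i : ℝ)))⁻¹ := by
      unfold gg hg gf hf zf
      rw [div_eq_mul_inv]
      ring
    rw [e1, hpf, mul_sum]
    apply sum_congr rfl
    intro k _
    ring
  rw [hsum, rectI_sum hE (by linarith)]
  · have hterm : ∀ k ∈ range M, rectI (fun q => (∏ j ∈ (range M).erase k,
          (zf (nd m k : ℝ) - zf (nd m j : ℝ)))⁻¹ * (hg a m q * (zf q - zf (nd m k : ℝ))⁻¹))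
          0 (ep m M) (-η) η = 2 * Real.pi * I * (Complex.exp (Complex.I * (Real.pi * a / (4*(2*m+1)))) *
          (tw a m k * (∏ j ∈ (range M).erase k, (vn m k - vn m j))⁻¹)) := by
      intro k hk
      rw [mem_range] at hk
      rw [rectI_smul, rect_gen (hg_diff a m) hk h4 hη]
      have e1 : ∏ j ∈ (range M).erase k, (zf (nd m k : ℝ) - zf (nd m j : ℝ))
          = ∏ j ∈ (range M).erase k, (vn m k - vn m j) := by
        apply prod_congr rfl
        intro j _
        rw [zf_nd, zf_nd]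
        rfl
      have hn0 := nd_pos (m := m) k
      have hn1 := nd_lt' (m := m) hk
      have h2 := ep_lt h4
      have hsp : 0 < Real.sin (2*nd m k) := Real.sin_pos_of_pos_of_lt_pi (by linarith) (by linarith)
      rw [e1, (zf_hasDerivAt _).deriv]
      have e4 : Complex.sin (2*(nd m k : ℝ)) = (Real.sin (2*nd m k) : ℝ) := by push_cast; rfl
      have e5 : hg a m (nd m k : ℝ) = -4 * (Real.sin (2*nd m k) : ℝ) *
          (Complex.exp (Complex.I * (Real.pi * a / (4*(2*m+1)))) * tw a m k) := by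
        unfold hg hf
        rw [exp_nd, tw_eq, Real.sin_two_mul]
        push_cast
        ring
      rw [e4, e5]
      have hsc : ((Real.sin (2*nd m k) : ℝ):ℂ) ≠ 0 := by exact_mod_cast hsp.ne'
      field_simp
    rw [sum_congr rfl hterm, ← mul_sum, ← mul_sum]
    congr 2
    unfold Ce dd
    have e0 : Icc 0 (M-1) = range M := by
      ext x; rw [mem_Icc, mem_range]; omega
    rw [e0]
  · intro k hk
    rw [mem_range] at hk
    intro q hq hb
    have hqp : q ≠ (nd m k : ℝ) := by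
      rintro rfl
      have hn0 := nd_pos (m := m) k
      have hn1 := nd_lt' (m := m) hk
      simp only [Complex.ofReal_im, Complex.ofReal_re] at hb
      rcases hb with h | h | h | h <;> linarith
    have h5 := zf_ne hk h4 hq.1.1 hq.1.2 hqp
    apply ContinuousAt.mul continuousAt_const
    apply ContinuousAt.mul ((hg_diff a m) q).continuousAt
    exact (((zf_diff q).continuousAt).sub continuousAt_const).inv₀ h5

theorem gg_neg (a M : ℕ) (φ : ℂ) : gg a m M (-φ) = - gg a m M φ := by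
  unfold gg
  rw [gf_neg, Complex.cos_neg]
  ring

theorem left_zero' (a M : ℕ) (η : ℝ) :
    ∫ y in (-η)..η, gg a m M (((0:ℝ):ℂ) + y*Complex.I) = 0 := by
  have h1 := intervalIntegral.integral_comp_neg (f := fun y : ℝ => gg a m M (((0:ℝ):ℂ) + y*Complex.I))
    (a := -η) (b := η)
  rw [neg_neg] at h1
  have h2 : ∀ y : ℝ, gg a m M (((0:ℝ):ℂ) + ((-y:ℝ):ℂ)*Complex.I)
      = - gg a m M (((0:ℝ):ℂ) + y*Complex.I) := by
    intro y
    rw [← gg_neg]
    congr 1
    push_cast
    ring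
  simp only [h2] at h1
  rw [intervalIntegral.integral_neg] at h1
  have h3 : (2:ℂ) * ∫ y in (-η)..η, gg a m M (((0:ℝ):ℂ) + y*Complex.I) = 0 := by
    linear_combination -h1
  rcases mul_eq_zero.mp h3 with h | h
  · norm_num at h
  · exact h

/-- **the contour integral, side by side** -/
theorem Ce_sides (a : ℕ) {M : ℕ} (hM : 1 ≤ M) (h4 : 4*M ≤ 2*m+1) {η : ℝ} (hη : 0 < η) :
    2 * Real.pi * Complex.I * (Complex.exp (Complex.I * (Real.pi * a / (4*(2*m+1)))) * Ce m (tw a m) (M-1))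
      = (∫ x in (0:ℝ)..(ep m M), gg a m M ((x:ℂ) + (-η:ℝ)*Complex.I))
        - (∫ x in (0:ℝ)..(ep m M), gg a m M ((x:ℂ) + η*Complex.I))
        + Complex.I * (∫ y in (-η)..η, gg a m M ((ep m M:ℝ) + y*Complex.I)) := by
  rw [← Ce_contour a hM h4 hη]
  unfold rectI
  rw [left_zero', mul_zero, sub_zero]

theorem norm_lhs' (a : ℕ) (X : ℂ) :
    ‖2 * Real.pi * Complex.I * (Complex.exp (Complex.I * (Real.pi * a / (4*(2*m+1)))) * X)‖
      = 2 * Real.pi * ‖X‖ := by
  have hp := Real.pi_pos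
  have e1 : ‖Complex.exp (Complex.I * (Real.pi * a / (4*(2*m+1))))‖ = 1 := by
    have : Complex.I * (Real.pi * a / (4*(2*m+1))) = ((Real.pi * a / (4*(2*m+1)) : ℝ) : ℂ) * Complex.I := by
      push_cast; ring
    rw [this, Complex.norm_exp_ofReal_mul_I]
  simp only [norm_mul, e1, Complex.norm_I, Complex.norm_ofNat, Complex.norm_real, one_mul, mul_one]
  rw [Real.norm_of_nonneg hp.le]

theorem norm_cos_le (x y : ℝ) : ‖Complex.cos ((x:ℂ) + y*Complex.I)‖ ≤ Real.cosh y := by
  have h := norm_sin_le (x + Real.pi/2) y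
  rw [show (((x + Real.pi/2 : ℝ)):ℂ) + y*Complex.I = ((x:ℂ) + y*Complex.I) + Real.pi/2 by push_cast; ring,
    Complex.sin_add_pi_div_two] at h
  exact h

theorem norm_gg_le (a M : ℕ) {x y η B : ℝ} (hy : |y| ≤ η) (hB : ‖gf a m M ((x:ℂ) + y*Complex.I)‖ ≤ B) :
    ‖gg a m M ((x:ℂ) + y*Complex.I)‖ ≤ B * (2 * Real.cosh η) := by
  unfold gg
  rw [norm_mul, norm_mul, Complex.norm_ofNat]
  have h1 := norm_cos_le x y
  have h2 : Real.cosh y ≤ Real.cosh η := by
    rw [Real.cosh_le_cosh, abs_of_nonneg ((abs_nonneg y).trans hy)]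
    exact hy
  have h3 := norm_nonneg (gf a m M ((x:ℂ) + y*Complex.I))
  have h4 := norm_nonneg (Complex.cos ((x:ℂ) + y*Complex.I))
  have h5 : 0 ≤ B := h3.trans hB
  gcongr
  exact h1.trans h2

variable {a : ℕ} {x₀ η E₀ : ℝ}

/-- **upper bound of the coefficients** -/
theorem Ce_upper (h : Sad a x₀ η E₀) : ∃ C : ℝ, ∃ k : ℕ, 0 ≤ C ∧
    ∀ m M : ℕ, 1 ≤ M → 4*M ≤ 2*m+1 → ‖Ce m (tw a m) (M-1)‖ ≤ C * (2*(m:ℝ)+1)^k *
      Real.exp ((2*(m:ℝ)+1)/(2*Real.pi) * BB (pp a η x₀ E₀) (ep m M)) := by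
  obtain ⟨C1, k, hC1, hside⟩ := h.side
  have hp := Real.pi_pos
  have hη := h.hη
  set D := 4*Real.cosh η * Real.exp (kap η * Real.pi) with hD
  have hch := Real.cosh_pos η
  have hD0 : 0 ≤ D := by positivity
  set W := 2 * Real.cosh η with hW
  have hW0 : 0 < W := by positivity
  refine ⟨D*W*Real.pi + D*W*Real.pi + C1*W*(2*η), k, by positivity, ?_⟩
  intro m M hM h4
  have hr := rpos m
  have hr1 : (1:ℝ) ≤ 2*m+1 := by linarith [(Nat.cast_nonneg m : (0:ℝ) ≤ m)]
  have hE := ep_nonneg (m := m) M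
  have hE2 := ep_le_half h4
  set X := Real.exp ((2*(m:ℝ)+1)/(2*Real.pi) * BB (pp a η x₀ E₀) (ep m M)) with hX
  have hX0 := Real.exp_pos ((2*(m:ℝ)+1)/(2*Real.pi) * BB (pp a η x₀ E₀) (ep m M))
  rw [← hX] at hX0
  have b1 : ‖∫ x in (0:ℝ)..(ep m M), gg a m M ((x:ℂ) + (-η:ℝ)*Complex.I)‖ ≤ (D*X*W) * Real.pi := by
    have := intervalIntegral.norm_integral_le_of_norm_le_const (a := 0) (b := ep m M)
      (f := fun x : ℝ => gg a m M ((x:ℂ) + (-η:ℝ)*Complex.I)) (C := D*X*W) (by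
        intro x hx
        rw [Set.uIoc_of_le hE] at hx
        exact norm_gg_le a M (by rw [abs_neg, abs_of_pos hη]) (h.horizontal h4 hx.1.le hx.2 (Or.inr rfl)))
    rw [sub_zero, abs_of_nonneg hE] at this
    refine this.trans ?_
    apply mul_le_mul_of_nonneg_left _ (by positivity)
    linarith
  have b2 : ‖∫ x in (0:ℝ)..(ep m M), gg a m M ((x:ℂ) + η*Complex.I)‖ ≤ (D*X*W) * Real.pi := by
    have := intervalIntegral.norm_integral_le_of_norm_le_const (a := 0) (b := ep m M)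
      (f := fun x : ℝ => gg a m M ((x:ℂ) + (η:ℝ)*Complex.I)) (C := D*X*W) (by
        intro x hx
        rw [Set.uIoc_of_le hE] at hx
        exact norm_gg_le a M (by rw [abs_of_pos hη]) (h.horizontal h4 hx.1.le hx.2 (Or.inl rfl)))
    rw [sub_zero, abs_of_nonneg hE] at this
    refine this.trans ?_
    apply mul_le_mul_of_nonneg_left _ (by positivity)
    linarith
  have b3 : ‖∫ y in (-η)..η, gg a m M ((ep m M:ℝ) + y*Complex.I)‖
      ≤ (C1 * (2*(m:ℝ)+1)^k * X * W) * (2*η) := by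
    have := intervalIntegral.norm_integral_le_of_norm_le_const (a := -η) (b := η)
      (f := fun y : ℝ => gg a m M ((ep m M:ℝ) + y*Complex.I)) (C := C1 * (2*(m:ℝ)+1)^k * X * W) (by
        intro y hy
        rw [Set.uIoc_of_le (by linarith)] at hy
        refine norm_gg_le a M (abs_le.mpr ⟨hy.1.le, hy.2⟩) ?_
        refine (hside m M hM h4 y ⟨hy.1.le, hy.2⟩).trans ?_
        have := h.side_le hE hE2
        rw [hX]
        gcongr)
    rw [show η - -η = 2*η by ring, abs_of_pos (by positivity : 0 < 2*η)] at this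
    exact this
  have hs := congrArg norm (Ce_sides (m := m) a hM h4 hη)
  rw [norm_lhs'] at hs
  have b4 : ‖(∫ x in (0:ℝ)..(ep m M), gg a m M ((x:ℂ) + (-η:ℝ)*Complex.I))
        - (∫ x in (0:ℝ)..(ep m M), gg a m M ((x:ℂ) + η*Complex.I))
        + Complex.I * (∫ y in (-η)..η, gg a m M ((ep m M:ℝ) + y*Complex.I))‖
      ≤ (D*X*W) * Real.pi + (D*X*W) * Real.pi + (C1 * (2*(m:ℝ)+1)^k * X * W) * (2*η) := by
    refine (norm_add_le _ _).trans (add_le_add ((norm_sub_le _ _).trans (add_le_add b1 b2)) ?_)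
    rw [norm_mul, Complex.norm_I, one_mul]
    exact b3
  rw [← hs] at b4
  have hk1 : (1:ℝ) ≤ (2*(m:ℝ)+1)^k := one_le_pow₀ hr1
  have b5 : ‖Ce m (tw a m) (M-1)‖ ≤ 2*Real.pi*‖Ce m (tw a m) (M-1)‖ := by
    have h1 : (1:ℝ) ≤ 2*Real.pi := by linarith [Real.pi_gt_three]
    have := norm_nonneg (Ce m (tw a m) (M-1))
    nlinarith
  have b6 : D*X ≤ D*(2*(m:ℝ)+1)^k*X := by
    have : D*X*1 ≤ D*X*(2*(m:ℝ)+1)^k := mul_le_mul_of_nonneg_left hk1 (by positivity)
    linarith
  calc ‖Ce m (tw a m) (M-1)‖ ≤ (D*X*W) * Real.pi + (D*X*W) * Real.pi + (C1 * (2*(m:ℝ)+1)^k * X * W) * (2*η) :=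
        b5.trans b4
    _ ≤ (D*(2*(m:ℝ)+1)^k*X*W) * Real.pi + (D*(2*(m:ℝ)+1)^k*X*W) * Real.pi
          + (C1 * (2*(m:ℝ)+1)^k * X * W) * (2*η) := by gcongr
    _ = _ := by ring

end Pool.Agent.Helper50.SB
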