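import Pool.Agent.Helper50.SB.Exps
import Pool.Agent.Helper50.SB.Contour2
import Pool.Agent.Helper5.AF.Assem

/-! # The weighted norms for `a ≥ 3` -/

namespace Pool.Agent.Helper50.SB
open Finset Filter Topology Pool.Agent.Helper5.Cov Pool.Agent.Helper52.OC Pool.Agent.Helper5.AF
open Pool.Agent.Helper5.TV hiding cs

variable {m n : ℕ}

theorem Wn0_eq (e : ℕ) : Wn m 0 e = ∏ l ∈ range e, |sn m (4*((l:ℤ)+1))| := by
  unfold Wn
  apply prod_congr rfl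
  intro l _
  rw [abs_sn_four]

theorem qbin_abs {e d : ℕ} (hd : d ≤ e) (he : e ≤ m) :
    |qbin m e d| = Wn m 0 e / (Wn m 0 (e-d) * Wn m 0 d) := by
  obtain ⟨k, rfl⟩ : ∃ k, e = k + d := ⟨e - d, by omega⟩
  rw [Nat.add_sub_cancel]
  have h1 : Wn m 0 (k+d) = Wn m 0 k * ∏ l ∈ range d, |sn m (4*(((k+d:ℕ):ℤ)-l))| := by
    rw [Wn0_eq, Wn0_eq, prod_range_add]
    congr 1
    rw [← prod_range_reflect]
    apply prod_congr rfl
    intro s hs
    rw [mem_range] at hs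
    congr 2
    have : ((k + (d - 1 - s) : ℕ) : ℤ) = k + (d - 1 - s) := by omega
    rw [this]; push_cast; ring
  have p1 := Wn_pos0 (m := m) (p := k) (by omega)
  have p2 := Wn_pos0 (m := m) (p := d) (by omega)
  rw [h1]
  unfold qbin
  rw [abs_div, abs_prod, abs_prod, ← Wn0_eq]
  field_simp

theorem Nn_abs (k : ℕ) (Z : ℤ) : |Nn m k (2*Z)|
    = Wn m (((Z:ℝ)-2*k-3)*(Real.pi/(2*(m:ℝ)+1))) k * Wn m (((Z:ℝ)-2*k-1)*(Real.pi/(2*(m:ℝ)+1))) k := by
  have h1 : Wn m (((Z:ℝ)-2*k-3)*(Real.pi/(2*(m:ℝ)+1))) k = ∏ l ∈ range k, |sn m (Z-2*k+1+4*l)| := by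
    unfold Wn
    apply prod_congr rfl
    intro l _
    unfold sn dl
    congr 2
    push_cast
    congr 1
    ring
  have h2 : Wn m (((Z:ℝ)-2*k-1)*(Real.pi/(2*(m:ℝ)+1))) k = ∏ l ∈ range k, |sn m (Z-2*k+3+4*l)| := by
    unfold Wn
    apply prod_congr rfl
    intro l _
    unfold sn dl
    congr 2
    push_cast
    congr 1
    ring
  rw [h1, h2]
  clear h1 h2
  induction k with
  | zero => simp
  | succ k ih =>
    rw [Nn_succ, abs_mul, ih, cs_sub (2*Z) (4*(k:ℤ)+2) (Z+2*k+1) (Z-2*k-1) (by ring) (by ring), abs_neg,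
      abs_mul]
    have a1 : ∏ l ∈ range (k+1), |sn m (Z-2*((k+1:ℕ):ℤ)+1+4*l)|
        = (∏ l ∈ range k, |sn m (Z-2*k+3+4*l)|) * |sn m (Z-2*k-1)| := by
      rw [prod_range_succ']
      congr 1
      · apply prod_congr rfl
        intro l _
        congr 2
        push_cast; ring
      · congr 2
        push_cast; ring
    have a2 : ∏ l ∈ range (k+1), |sn m (Z-2*((k+1:ℕ):ℤ)+3+4*l)|
        = (∏ l ∈ range k, |sn m (Z-2*k+1+4*l)|) * |sn m (Z+2*k+1)| := by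
      rw [prod_range_succ]
      congr 1
      · apply prod_congr rfl
        intro l _
        congr 2
        push_cast; ring
      · congr 2
        push_cast; ring
    rw [a1, a2]
    ring

theorem CF_upper {e d i : ℕ} (hd : d ≤ e) (he : e ≤ m) :
    |CF m n e i (i+d)| ≤ Real.exp ((dl m)⁻¹ * gc m n e i d + 5 * Er m) := by
  unfold CF
  rw [Nat.add_sub_cancel_left, abs_mul, qbin_abs hd he,
    show (4*((i:ℤ)+((i+d:ℕ):ℤ))-4*n+6) = 2*(2*(2*(i:ℤ)+d)-2*n+3) by push_cast; ring, Nn_abs]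
  have p1 := Wn_pos0 (m := m) (p := e-d) (by omega)
  have p2 := Wn_pos0 (m := m) (p := d) (by omega)
  have b1 := Wn0_lower (m := m) (p := e-d) (by omega)
  have b2 := Wn0_lower (m := m) (p := d) (by omega)
  have b0 := den_upper (m := m) (D := e) he
  set θ1 : ℝ := (2*(2*(i:ℝ)+d)-2*n+3-2*((e-d:ℕ):ℝ)-3)*(Real.pi/(2*(m:ℝ)+1)) with hθ1
  set θ2 : ℝ := (2*(2*(i:ℝ)+d)-2*n+3-2*((e-d:ℕ):ℝ)-1)*(Real.pi/(2*(m:ℝ)+1)) with hθ2
  have c1 := win_upper (m := m) (D := e-d) (by omega) θ1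
  have c2 := win_upper (m := m) (D := e-d) (by omega) θ2
  have e1 : (((2*(2*(i:ℤ)+d)-2*n+3 : ℤ):ℝ)-2*((e-d:ℕ):ℝ)-3)*(Real.pi/(2*(m:ℝ)+1)) = θ1 := by
    rw [hθ1]; push_cast; ring
  have e2 : (((2*(2*(i:ℤ)+d)-2*n+3 : ℤ):ℝ)-2*((e-d:ℕ):ℝ)-1)*(Real.pi/(2*(m:ℝ)+1)) = θ2 := by
    rw [hθ2]; push_cast; ring
  rw [e1, e2, div_mul_eq_mul_div, div_le_iff₀ (by positivity)]
  have q1 := Wn_nonneg (m := m) θ1 (e-d)
  have q2 := Wn_nonneg (m := m) θ2 (e-d)
  have q0 := Wn_nonneg (m := m) 0 e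
  calc Wn m 0 e * (Wn m θ1 (e-d) * Wn m θ2 (e-d))
      ≤ Real.exp ((dl m)⁻¹ * (- lob (e*dl m)) + Er m) *
        (Real.exp ((dl m)⁻¹ * (lob θ1 - lob (θ1+((e-d:ℕ):ℝ)*dl m)) + Er m) *
         Real.exp ((dl m)⁻¹ * (lob θ2 - lob (θ2+((e-d:ℕ):ℝ)*dl m)) + Er m)) := by
        unfold Wn at *
        gcongr
    _ = Real.exp ((dl m)⁻¹ * gc m n e i d + 5 * Er m) *
        (Real.exp (-((dl m)⁻¹ * lob (((e-d:ℕ):ℝ)*dl m)) - Er m) *
          Real.exp (-((dl m)⁻¹ * lob (d*dl m)) - Er m)) := by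
        rw [← Real.exp_add, ← Real.exp_add, ← Real.exp_add, ← Real.exp_add]
        congr 1
        unfold gc
        rw [← hθ1, ← hθ2]
        ring
    _ ≤ _ := by gcongr

theorem Nn_eq_zero {y k : ℕ} {Y : ℤ} (hk : y < k) (hY : Y = 4*(y:ℤ)+2 ∨ Y = -(4*(y:ℤ)+2)) :
    Nn m k Y = 0 := by
  unfold Nn
  apply prod_eq_zero (i := y) (mem_range.mpr hk)
  rcases hY with rfl | rfl
  · exact sub_self _
  · rw [cs_neg]; exact sub_self _

/-- where the closed form does not vanish -/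
theorem CF_ne {e d i : ℕ} (h : CF m n e i (i+d) ≠ 0) :
    d ≤ e ∧ ((e:ℤ) ≤ 2*i+2*d+1-n ∨ (e:ℤ) ≤ n-2-2*i) := by
  unfold CF at h
  rw [Nat.add_sub_cancel_left] at h
  have h1 : d ≤ e := by
    by_contra hc
    rw [not_le] at hc
    exact h (by rw [qbin_eq_zero hc, zero_mul])
  refine ⟨h1, ?_⟩
  by_contra hc
  rw [not_or, not_le, not_le] at hc
  obtain ⟨c1, c2⟩ := hc
  apply h
  rcases le_or_gt n (i + (i+d) + 1) with g | g
  · rw [Nn_eq_zero (y := i+(i+d)+1-n) (by omega) (Or.inl (by omega)), mul_zero]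
  · rw [Nn_eq_zero (y := n-2-i-(i+d)) (by omega) (Or.inr (by omega)), mul_zero]

theorem Da_le (h : Ok m n) (a : ℕ) {i d : ℕ} (hj : i + d < n) :
    ‖Da a m n i (i+d)‖ ≤ ∑ e ∈ range n, ‖Ce m (tw a m) e‖ * |CF m n e i (i+d)| := by
  unfold Da
  have e0 : (fun k : ℕ => (AA m ^ ((k:ℤ)*((k:ℤ)+1)))^a) = tw a m := rfl
  rw [e0, Dw_eq h (tw a m) (by omega) hj]
  refine (norm_sum_le _ _).trans (le_of_eq ?_)
  apply sum_congr rfl
  intro e _
  rw [norm_mul, Complex.norm_real, Real.norm_eq_abs]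

/-- the central windows -/
theorem tm_cent (h : Ok m n) (a : ℕ) {i d : ℕ} (hj : i + d < n) {P C ε : ℝ} {k : ℕ} (hC : 0 ≤ C)
    (hN : Near m ε) (hCe : ∀ M : ℕ, 1 ≤ M → 4*M ≤ 2*m+1 → ‖Ce m (tw a m) (M-1)‖ ≤ C * (2*(m:ℝ)+1)^k *
      Real.exp ((2*(m:ℝ)+1)/(2*Real.pi) * BB P (ep m M)))
    (ha0 : 4*(i:ℤ)-2*n+3 ≤ 0) (hb0 : 0 ≤ 4*((i:ℤ)+d)-2*n+3) (hb1 : 4*((i:ℤ)+d)-2*n+3 + 1 ≤ m)
    (ha1 : 2*(n:ℤ)-3-4*i + 1 ≤ m) :
    tm a m n i (i+d) ≤ (2*(m:ℝ)+1)^2 * (C^2 * (2*(m:ℝ)+1)^(2*k) *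
      Real.exp ((dl m)⁻¹ * (2*P + 24*ε) + 14 * Er m)) := by
  have hn := h.2
  have hp := Real.pi_pos
  have hr := rr_pos m
  have hd : 0 < (dl m)⁻¹ := inv_pos.mpr (dl_pos m)
  have hs := sq_sum_bound (range n)
    (fun e => ‖Ce m (tw a m) e‖ * |CF m n e i (i+d)|) (norm_nonneg _) (Da_le h a hj)
    (Φ := ∏ l ∈ Ioc i (i+d), |phi m n (l:ℤ)|) (X := C^2 * (2*(m:ℝ)+1)^(2*k) *
      Real.exp ((dl m)⁻¹ * (2*P + 24*ε) + 14 * Er m))
    (prod_nonneg fun _ _ => abs_nonneg _) (by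
      intro e he
      rw [mem_range] at he
      by_cases hz : CF m n e i (i+d) = 0
      · simp only [hz, abs_zero, mul_zero]
        rw [zero_pow two_ne_zero, zero_mul]
        positivity
      obtain ⟨h1, h2⟩ := CF_ne hz
      have h4 : 4*(e+1) ≤ 2*m+1 := by rcases h2 with h2 | h2 <;> omega
      have g1 := phi_upper (m := m) (n := n) i (D := d) (by omega)
      have g2 := CF_upper (m := m) (n := n) (i := i) h1 (by omega : e ≤ m)
      have g3 := hCe (e+1) (by omega) h4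
      rw [Nat.add_sub_cancel] at g3
      have g4 := G_cent hN h1 ha0 hb0 (by omega) (by omega) h2
      have hx : (2*(m:ℝ)+1)/(2*Real.pi) * BB P (ep m (e+1))
          = (dl m)⁻¹ * (P - 4*lob (Real.pi/2 - ep m (e+1))) := by
        unfold BB
        rw [dl_inv]
        field_simp
        ring
      rw [hx] at g3
      have q0 := norm_nonneg (Ce m (tw a m) e)
      have q1 := abs_nonneg (CF m n e i (i+d))
      have q2 : 0 ≤ ∏ l ∈ Ioc i (i+d), |phi m n (l:ℤ)| := prod_nonneg fun _ _ => abs_nonneg _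
      calc (‖Ce m (tw a m) e‖ * |CF m n e i (i+d)|)^2 * ∏ l ∈ Ioc i (i+d), |phi m n (l:ℤ)|
          ≤ ((C * (2*(m:ℝ)+1)^k * Real.exp ((dl m)⁻¹ * (P - 4*lob (Real.pi/2 - ep m (e+1)))))
              * Real.exp ((dl m)⁻¹ * gc m n e i d + 5 * Er m))^2
            * Real.exp ((dl m)⁻¹ * GW m n i d + 4 * Er m) := by gcongr
        _ = C^2 * (2*(m:ℝ)+1)^(2*k) * Real.exp ((dl m)⁻¹ * (2*P - 8*lob (Real.pi/2 - ep m (e+1))
              + (2 * gc m n e i d + GW m n i d)) + 14 * Er m) := by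
            have : ∀ A B X Y Z : ℝ, (A * B * Real.exp X * Real.exp Y)^2 * Real.exp Z
                = A^2 * B^2 * Real.exp (2*X + 2*Y + Z) := by
              intro A B X Y Z
              rw [Real.exp_add, Real.exp_add, two_mul, two_mul, Real.exp_add, Real.exp_add]
              ring
            rw [this, ← pow_mul, mul_comm k 2]
            congr 2
            ring
        _ ≤ _ := by
            apply mul_le_mul_of_nonneg_left _ (by positivity)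
            apply Real.exp_le_exp.mpr
            have : (dl m)⁻¹ * (2*P - 8*lob (Real.pi/2 - ep m (e+1)) + (2 * gc m n e i d + GW m n i d))
                ≤ (dl m)⁻¹ * (2*P + 24*ε) := mul_le_mul_of_nonneg_left (by linarith) hd.le
            linarith)
  unfold tm
  refine hs.trans ?_
  rw [card_range]
  have hn1 : (n:ℝ) ≤ 2*m+1 := by
    have : n ≤ 2*m+1 := by omega
    exact_mod_cast this
  gcongr

variable {a : ℕ} {x₀ η E₀ : ℝ}

/-- **the bound for `a ≥ 3`** -/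
theorem Bd_three (hS : Sad a x₀ η E₀) : Bd a (pp a η x₀ E₀) := by
  intro ε hε
  obtain ⟨C, k, hC, hCe⟩ := Ce_upper hS
  have hP := hS.quarter_lt
  filter_upwards [near_ev (show 0 < ε/24 by positivity), combine2 (pp a η x₀ E₀) 10 4 2 hε,
    combine2 (pp a η x₀ E₀) 14 (C^2) (2*k+2) hε] with m hN c1 c2 n i j hn hij hj
  have h : Ok m n := ⟨by omega, hn⟩
  obtain ⟨d, rfl⟩ : ∃ d, j = i + d := ⟨j - i, by omega⟩
  by_cases hc : 4*(i:ℤ)-2*n+3 ≤ 0 ∧ 0 ≤ 4*((i:ℤ)+d)-2*n+3 ∧ 4*((i:ℤ)+d)-2*n+3 + 1 ≤ m ∧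
      2*(n:ℤ)-3-4*i + 1 ≤ m
  · obtain ⟨h1, h2, h3, h4⟩ := hc
    have := tm_cent h a hj (P := pp a η x₀ E₀) hC hN (fun M => hCe m M) h1 h2 h3 h4
    refine c2 _ (2*pp a η x₀ E₀ + 24*(ε/24)) (this.trans (le_of_eq ?_)) (by linarith)
    ring
  · refine c1 _ (8*lob (Real.pi/4) + 16*(ε/24)) (tm_triv hn a hj ?_) (by linarith)
    intro p hp
    rw [mem_range] at hp
    have e : d = p + (d - p) := by omega
    have hg := G_triv hN hn (i := i) (p := p) (q := d - p) (by omega) (by omega)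
    rw [← e] at hg
    exact hg

/-- the crude bound for all `a` -/
theorem Bd_crude (a : ℕ) : Bd a (8*lob (Real.pi/4)) := by
  intro ε hε
  filter_upwards [near_ev (show 0 < ε/24 by positivity), combine2 (8*lob (Real.pi/4)) 10 4 2 hε]
    with m hN c1 n i j hn hij hj
  obtain ⟨d, rfl⟩ : ∃ d, j = i + d := ⟨j - i, by omega⟩
  refine c1 _ (16*lob (Real.pi/4) + 16*(ε/24)) (tm_triv hn a hj ?_) (by linarith)
  intro p hp
  rw [mem_range] at hp
  have e : d = p + (d - p) := by omega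
  have hg := G_crude hN hn (i := i) (p := p) (q := d - p) (by omega)
  rw [← e] at hg
  exact hg

end Pool.Agent.Helper50.SB
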