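import Mathlib

/-! # Divided differences -/

namespace Pool.Agent.Helper50.SB
open Finset

/-- divided differences of `f` at the nodes `c i, ..., c j` -/
noncomputable def dd (c : ℕ → ℂ) (f : ℕ → ℂ) (i j : ℕ) : ℂ :=
  ∑ l ∈ Icc i j, f l * (∏ k ∈ (Icc i j).erase l, (c l - c k))⁻¹

variable {c f : ℕ → ℂ} {n : ℕ}

theorem dd_self (c f : ℕ → ℂ) (i : ℕ) : dd c f i i = f i := by
  unfold dd
  simp

theorem dd_left (hc : Set.InjOn c (Set.Iio n)) {i j : ℕ} (hij : i < j) (hj : j < n) :
    dd c f (i+1) j = ∑ l ∈ Icc i j, f l * ((∏ k ∈ (Icc i j).erase l, (c l - c k))⁻¹ * (c l - c i)) := by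
  have e : Icc i j = insert i (Icc (i+1) j) := by
    ext x; simp only [mem_Icc, mem_insert]; omega
  have hi : i ∉ Icc (i+1) j := by simp
  rw [e, sum_insert hi, sub_self, mul_zero, mul_zero, zero_add]
  unfold dd
  apply sum_congr rfl
  intro l hl
  have hl' := mem_Icc.mp hl
  have hne : c l - c i ≠ 0 := by
    rw [sub_ne_zero]
    intro h
    have := hc (x₁ := l) (x₂ := i) (by simp only [Set.mem_Iio]; omega) (by simp only [Set.mem_Iio]; omega) h
    omega
  have e2 : (insert i (Icc (i+1) j)).erase l = insert i ((Icc (i+1) j).erase l) := by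
    rw [erase_insert_of_ne (by omega)]
  rw [e2, prod_insert (by simp), mul_inv, mul_comm (c l - c i)⁻¹, mul_assoc (_⁻¹),
    inv_mul_cancel₀ hne, mul_one]

theorem dd_right (hc : Set.InjOn c (Set.Iio n)) {i j : ℕ} (hij : i < j) (hj : j < n) :
    dd c f i (j-1) = ∑ l ∈ Icc i j, f l * ((∏ k ∈ (Icc i j).erase l, (c l - c k))⁻¹ * (c l - c j)) := by
  have e : Icc i j = insert j (Icc i (j-1)) := by
    ext x; simp only [mem_Icc, mem_insert]; omega
  have hi : j ∉ Icc i (j-1) := by simp only [mem_Icc, not_and, not_le]; omega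
  rw [e, sum_insert hi, sub_self, mul_zero, mul_zero, zero_add]
  unfold dd
  apply sum_congr rfl
  intro l hl
  have hl' := mem_Icc.mp hl
  have hne : c l - c j ≠ 0 := by
    rw [sub_ne_zero]
    intro h
    have := hc (x₁ := l) (x₂ := j) (by simp only [Set.mem_Iio]; omega) (by simp only [Set.mem_Iio]; omega) h
    omega
  have e2 : (insert j (Icc i (j-1))).erase l = insert j ((Icc i (j-1)).erase l) := by
    rw [erase_insert_of_ne (by omega)]
  rw [e2, prod_insert (by simp only [mem_erase, mem_Icc, ne_eq, not_and, not_le]; omega), mul_inv,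
    mul_comm (c l - c j)⁻¹, mul_assoc (_⁻¹), inv_mul_cancel₀ hne, mul_one]

/-- the recursion -/
theorem dd_rec (hc : Set.InjOn c (Set.Iio n)) {i j : ℕ} (hij : i < j) (hj : j < n) :
    dd c f i j * (c j - c i) = dd c f (i+1) j - dd c f i (j-1) := by
  rw [dd_left hc hij hj, dd_right hc hij hj, ← sum_sub_distrib]
  unfold dd
  rw [sum_mul]
  apply sum_congr rfl
  intro l _
  ring

/-- uniqueness -/
theorem dd_unique (hc : Set.InjOn c (Set.Iio n)) (D : ℕ → ℕ → ℂ) (h0 : ∀ i < n, D i i = f i)
    (h1 : ∀ i j, i < j → j < n → D i j * (c j - c i) = D (i+1) j - D i (j-1)) :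
    ∀ i j, i ≤ j → j < n → dd c f i j = D i j := by
  have key : ∀ d i, i + d < n → dd c f i (i+d) = D i (i+d) := by
    intro d
    induction d with
    | zero =>
      intro i hi
      rw [Nat.add_zero, dd_self, h0 i hi]
    | succ d ih =>
      intro i hi
      have hne : c (i+(d+1)) - c i ≠ 0 := by
        rw [sub_ne_zero]
        intro h
        have := hc (x₁ := i+(d+1)) (x₂ := i) (by simp only [Set.mem_Iio]; omega)
          (by simp only [Set.mem_Iio]; omega) h
        omega
      apply mul_right_cancel₀ hne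
      rw [dd_rec hc (by omega) hi, h1 i (i+(d+1)) (by omega) hi]
      have e1 := ih (i+1) (by omega)
      rw [show i+1+d = i+(d+1) by ring] at e1
      have e2 := ih i (by omega)
      rw [show i+(d+1)-1 = i+d by omega, e1, e2]
  intro i j hij hj
  obtain ⟨d, rfl⟩ : ∃ d, j = i + d := ⟨j - i, by omega⟩
  exact key d i hj

theorem tele (g : ℕ → ℂ) {i s : ℕ} (h : i ≤ s) :
    ∑ j ∈ Ico (i+1) (s+1), (g j - g (j-1)) = g s - g i := by
  induction s, h using Nat.le_induction with
  | base => simp
  | succ s hs ih =>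
    rw [sum_Ico_succ_top (by omega), ih, Nat.add_sub_cancel]
    ring

/-- Newton interpolation -/
theorem newton (hc : Set.InjOn c (Set.Iio n)) {s : ℕ} (hs : s < n) : ∀ d i, i + d = s →
    f s = ∑ j ∈ Icc i s, dd c f i j * ∏ k ∈ Ico i j, (c s - c k) := by
  intro d
  induction d with
  | zero =>
    intro i hi
    have : i = s := by omega
    subst this
    simp [dd_self]
  | succ d ih =>
    intro i hi
    have ih' := ih (i+1) (by omega)
    have e : Icc i s = insert i (Icc (i+1) s) := by
      ext x; simp only [mem_Icc, mem_insert]; omega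
    rw [e, sum_insert (by simp), Ico_self, prod_empty, mul_one]
    have e1 : ∑ j ∈ Icc (i+1) s, dd c f i j * ∏ k ∈ Ico i j, (c s - c k)
        = ∑ j ∈ Icc (i+1) s, (dd c f i j * ∏ k ∈ Ico (i+1) (j+1), (c s - c k)
          - dd c f i (j-1) * ∏ k ∈ Ico (i+1) j, (c s - c k))
          + ∑ j ∈ Icc (i+1) s, dd c f (i+1) j * ∏ k ∈ Ico (i+1) j, (c s - c k) := by
      rw [← sum_add_distrib]
      apply sum_congr rfl
      intro j hj
      rw [mem_Icc] at hj
      rw [prod_Ico_succ_top (by omega : i+1 ≤ j), prod_eq_prod_Ico_succ_bot (by omega : i < j)]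
      have e3 := dd_rec (f := f) hc (i := i) (j := j) (by omega) (by omega)
      linear_combination (∏ k ∈ Ico (i+1) j, (c s - c k)) * e3
    have e4 : ∑ j ∈ Icc (i+1) s, (dd c f i j * ∏ k ∈ Ico (i+1) (j+1), (c s - c k)
          - dd c f i (j-1) * ∏ k ∈ Ico (i+1) j, (c s - c k)) = - dd c f i i := by
      have e5 : Icc (i+1) s = Ico (i+1) (s+1) := by ext x; simp only [mem_Icc, mem_Ico]; omega
      rw [e5]
      have e6 := tele (fun j => dd c f i j * ∏ k ∈ Ico (i+1) (j+1), (c s - c k)) (show i ≤ s by omega)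
      rw [prod_eq_zero (s := Ico (i+1) (s+1)) (i := s) (by rw [mem_Ico]; omega) (sub_self _), mul_zero,
        Ico_self, prod_empty, mul_one, zero_sub] at e6
      rw [← e6]
      apply sum_congr rfl
      intro j hj
      rw [mem_Ico] at hj
      rw [show j - 1 + 1 = j by omega]
    rw [e1, e4, ← ih', dd_self]
    ring

end Pool.Agent.Helper50.SB
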