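import Pool.Agent.Helper50.SB.Triv
import Pool.Agent.Helper50.SB.Cent

/-! # The exponents -/

namespace Pool.Agent.Helper50.SB
open Finset Filter Topology Pool.Agent.Helper5.Cov Pool.Agent.Helper52.OC Pool.Agent.Helper5.AF
open Pool.Agent.Helper5.TV hiding cs

variable {m n : ℕ}

theorem lob_half_add (x : ℝ) : lob (Real.pi/2 + x) = -lob (Real.pi/2 - x) := by
  rw [← lob_pi_sub]; congr 1; ring

/-- the exponents in terms of `Psi` -/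
theorem G_psi {ε : ℝ} (hN : Near m ε) (hn : n ≤ m) {i p q : ℕ} (hj : i + p + q < n) :
    ∃ ξ μ α β : ℝ, -Real.pi ≤ α ∧ β ≤ Real.pi ∧ α ≤ β ∧
      ((0 ≤ 4*(i:ℤ)-2*n+3 ∨ 4*((i:ℤ)+p+q)-2*n+3 ≤ 0 ∨ (m:ℤ) ≤ 4*((i:ℤ)+p+q)-2*n+3
        ∨ (m:ℤ) ≤ 2*n-3-4*i) → 0 ≤ α ∨ β ≤ 0 ∨ Real.pi/2 ≤ β ∨ α ≤ -(Real.pi/2)) ∧
      2 * gt m n i p q + GW m n i (p+q) ≤ 2*(Psi ξ μ β - Psi ξ μ α) + 16*ε := by
  have hp := Real.pi_pos
  have hr := rr_pos m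
  set u : ℝ := Real.pi/(2*(m:ℝ)+1) with hu
  have hu0 : 0 < u := by positivity
  have hum : (2*(m:ℝ)+1)*u = Real.pi := by rw [hu]; field_simp
  have hn' : (n:ℝ) ≤ m := by exact_mod_cast hn
  have hj' : (i:ℝ) + p + q + 1 ≤ n := by exact_mod_cast hj
  have hi0 : (0:ℝ) ≤ i := Nat.cast_nonneg i
  have hp0 : (0:ℝ) ≤ p := Nat.cast_nonneg p
  have hq0 : (0:ℝ) ≤ q := Nat.cast_nonneg q
  obtain ⟨α, hα⟩ : ∃ α : ℝ, α = (4*i-2*n+3)*u - u/2 := ⟨_, rfl⟩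
  obtain ⟨β, hβ⟩ : ∃ β : ℝ, β = (4*(i+p+q)-2*n+3)*u + u/2 := ⟨_, rfl⟩
  obtain ⟨ξ, hξ⟩ : ∃ ξ : ℝ, ξ = (4*(i+p)-2*n+3)*u := ⟨_, rfl⟩
  obtain ⟨μ, hμ⟩ : ∃ μ : ℝ, μ = 2*n*u := ⟨_, rfl⟩
  have k0 : -Real.pi ≤ α := by rw [hα, ← hum]; nlinarith
  have k1 : β ≤ Real.pi := by rw [hβ, ← hum]; nlinarith
  have k2 : α ≤ β := by rw [hα, hβ]; nlinarith
  refine ⟨ξ, μ, α, β, k0, k1, k2, ?_, ?_⟩
  · intro hc
    rcases hc with h | h | h | h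
    · left
      have h1 : (1:ℤ) ≤ 4*(i:ℤ)-2*n+3 := by omega
      have h2 : (1:ℝ) ≤ 4*(i:ℝ)-2*n+3 := by exact_mod_cast h1
      rw [hα]; nlinarith
    · right; left
      have h1 : 4*((i:ℤ)+p+q)-2*n+3 ≤ -1 := by omega
      have h2 : 4*((i:ℝ)+p+q)-2*n+3 ≤ -1 := by exact_mod_cast h1
      rw [hβ]; nlinarith
    · right; right; left
      have h2 : (m:ℝ) ≤ 4*((i:ℝ)+p+q)-2*n+3 := by exact_mod_cast h
      rw [hβ, ← hum]; nlinarith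
    · right; right; right
      have h2 : (m:ℝ) ≤ 2*(n:ℝ)-3-4*i := by exact_mod_cast h
      rw [hα, ← hum]; nlinarith
  have n1 := hN (t1 m i) (α + μ) (-5/2) (by unfold t1 dl; rw [hα, hμ, ← hu]; ring) (by norm_num [abs_div])
  have n1' := hN (t1 m i + ((p+q:ℕ):ℝ)*dl m) (β + μ) (-7/2)
    (by unfold t1 dl; push_cast; rw [hβ, hμ, ← hu]; ring) (by norm_num [abs_div])
  have n2 := hN (t2 m n i) (α - μ) (-5/2) (by unfold t2 dl; rw [hα, hμ, ← hu]; ring) (by norm_num [abs_div])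
  have n2' := hN (t2 m n i + ((p+q:ℕ):ℝ)*dl m) (β - μ) (-7/2)
    (by unfold t2 dl; push_cast; rw [hβ, hμ, ← hu]; ring) (by norm_num [abs_div])
  have n3 := hN (t3 m n i) (Real.pi/2 + α) (-3/2) (by unfold t3 dl; rw [hα, ← hu]; ring) (by norm_num [abs_div])
  have n3' := hN (t3 m n i + ((p+q:ℕ):ℝ)*dl m) (Real.pi/2 + β) (-5/2)
    (by unfold t3 dl; push_cast; rw [hβ, ← hu]; ring) (by norm_num [abs_div])
  have n4 := hN (t4 m n i) (Real.pi/2 + α) (-7/2) (by unfold t4 dl; rw [hα, ← hu]; ring) (by norm_num [abs_div])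
  have n4' := hN (t4 m n i + ((p+q:ℕ):ℝ)*dl m) (Real.pi/2 + β) (-9/2)
    (by unfold t4 dl; push_cast; rw [hβ, ← hu]; ring) (by norm_num [abs_div])
  have n5 := hN (p*dl m) (ξ - α) (-1/2) (by unfold dl; rw [hξ, hα, ← hu]; ring) (by norm_num [abs_div])
  have n6 := hN (q*dl m) (β - ξ) (-1/2) (by unfold dl; rw [hξ, hβ, ← hu]; ring) (by norm_num [abs_div])
  have n7 := hN (tt m n (i+p) i) (ξ + α) (-7/2) (by unfold tt; push_cast; rw [hξ, hα, ← hu]; ring)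
    (by norm_num [abs_div])
  have n8 := hN (tt m n (i+p) i + ((p+q+1:ℕ):ℝ)*dl m) (ξ + β) (-1/2)
    (by unfold tt dl; push_cast; rw [hξ, hβ, ← hu]; ring) (by norm_num [abs_div])
  rw [abs_le] at n1 n1' n2 n2' n3 n3' n4 n4' n5 n6 n7 n8
  have l1 := lob_half_add α
  have l2 := lob_half_add β
  have l3 : lob (α - ξ) = -lob (ξ - α) := by rw [← lob_neg]; congr 1; ring
  have l4 : ξ + α = α + ξ := by ring
  have l5 : ξ + β = β + ξ := by ring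
  rw [l4] at n7
  rw [l5] at n8
  unfold Psi Sy
  unfold gt GW
  rw [l3]
  linarith

/-- the exponents of the windows that are not central -/
theorem G_triv {ε : ℝ} (hN : Near m ε) (hn : n ≤ m) {i p q : ℕ} (hj : i + p + q < n)
    (hc : 0 ≤ 4*(i:ℤ)-2*n+3 ∨ 4*((i:ℤ)+p+q)-2*n+3 ≤ 0 ∨ (m:ℤ) ≤ 4*((i:ℤ)+p+q)-2*n+3
      ∨ (m:ℤ) ≤ 2*n-3-4*i) :
    2 * gt m n i p q + GW m n i (p+q) ≤ 8*lob (Real.pi/4) + 16*ε := by
  obtain ⟨ξ, μ, α, β, k0, k1, k2, k3, k4⟩ := G_psi hN hn hj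
  have := Psi_window ξ μ k0 k1 k2 (k3 hc)
  linarith

/-- the exponents of all windows -/
theorem G_crude {ε : ℝ} (hN : Near m ε) (hn : n ≤ m) {i p q : ℕ} (hj : i + p + q < n) :
    2 * gt m n i p q + GW m n i (p+q) ≤ 16*lob (Real.pi/4) + 16*ε := by
  obtain ⟨ξ, μ, α, β, k0, k1, k2, k3, k4⟩ := G_psi hN hn hj
  have := Psi_window_crude ξ μ k0 k1 k2
  linarith

theorem hR_symm (a b e : ℝ) : hR b a e = hR a b e := by
  have h1 : lob (a - e) = -lob (e - a) := by rw [← lob_neg]; congr 1; ring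
  have h2 : lob (b - e) = -lob (e - b) := by rw [← lob_neg]; congr 1; ring
  unfold hR
  rw [show b + a = a + b by ring, show 2*e - b - a = 2*e - a - b by ring, h1, h2]
  ring

theorem hR_le' {a b e : ℝ} (h0 : 0 ≤ a) (h1 : 0 ≤ b) (h2 : a < Real.pi/2) (h2' : b < Real.pi/2)
    (h3 : (a+b)/2 ≤ e) (h4 : e ≤ a ∨ e ≤ b) : hR a b e ≤ 0 := by
  rcases le_total a b with h | h
  · exact hR_le h0 h h2' h3 (by rcases h4 with h4 | h4 <;> linarith)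
  · rw [← hR_symm]
    exact hR_le h1 h h2 (by linarith) (by rcases h4 with h4 | h4 <;> linarith)

/-- the exponent of the closed form of the divided differences -/
noncomputable def gc (m n e i d : ℕ) : ℝ :=
  lob (((e-d:ℕ):ℝ)*dl m) + lob (d*dl m) - lob (e*dl m)
  + (lob ((2*(2*(i:ℝ)+d)-2*n+3-2*((e-d:ℕ):ℝ)-3)*(Real.pi/(2*(m:ℝ)+1)))
    - lob ((2*(2*(i:ℝ)+d)-2*n+3-2*((e-d:ℕ):ℝ)-3)*(Real.pi/(2*(m:ℝ)+1)) + ((e-d:ℕ):ℝ)*dl m))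
  + (lob ((2*(2*(i:ℝ)+d)-2*n+3-2*((e-d:ℕ):ℝ)-1)*(Real.pi/(2*(m:ℝ)+1)))
    - lob ((2*(2*(i:ℝ)+d)-2*n+3-2*((e-d:ℕ):ℝ)-1)*(Real.pi/(2*(m:ℝ)+1)) + ((e-d:ℕ):ℝ)*dl m))

/-- the exponents of the central windows -/
theorem G_cent {ε : ℝ} (hN : Near m ε) {i d e : ℕ} (hde : d ≤ e)
    (ha0 : 4*(i:ℤ)-2*n+3 ≤ 0) (hb0 : 0 ≤ 4*((i:ℤ)+d)-2*n+3) (hb1 : 4*((i:ℤ)+d)-2*n+3 ≤ m)
    (ha1 : 2*(n:ℤ)-3-4*i ≤ m) (he : (e:ℤ) ≤ 2*i+2*d+1-n ∨ (e:ℤ) ≤ n-2-2*i) :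
    2 * gc m n e i d + GW m n i d ≤ 8*lob (Real.pi/2 - ep m (e+1)) + 24*ε := by
  have hp := Real.pi_pos
  have hr := rr_pos m
  set u : ℝ := Real.pi/(2*(m:ℝ)+1) with hu
  have hu0 : 0 < u := by positivity
  have hum : (2*(m:ℝ)+1)*u = Real.pi := by rw [hu]; field_simp
  have ha0' : 4*(i:ℝ)-2*n+3 ≤ 0 := by exact_mod_cast ha0
  have hb0' : 0 ≤ 4*((i:ℝ)+d)-2*n+3 := by exact_mod_cast hb0
  have hb1' : 4*((i:ℝ)+d)-2*n+3 ≤ m := by exact_mod_cast hb1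
  have ha1' : 2*(n:ℝ)-3-4*i ≤ m := by exact_mod_cast ha1
  have hde' : ((e-d:ℕ):ℝ) = e - d := by rw [Nat.cast_sub hde]
  have hde2 : (d:ℝ) ≤ e := by exact_mod_cast hde
  set a : ℝ := (2*n-3-4*i)*u with ha
  set b : ℝ := (4*(i+d)-2*n+3)*u with hb
  set E : ℝ := 2*e*u with hE
  have a0 : 0 ≤ a := by rw [ha]; exact mul_nonneg (by linarith) hu0.le
  have b0 : 0 ≤ b := by rw [hb]; exact mul_nonneg (by linarith) hu0.le
  have a1 : a < Real.pi/2 := by rw [ha, ← hum]; nlinarith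
  have b1 : b < Real.pi/2 := by rw [hb, ← hum]; nlinarith
  have e0 : (a+b)/2 ≤ E := by rw [ha, hb, hE]; nlinarith
  have e1 : E ≤ a ∨ E ≤ b := by
    rcases he with h | h
    · right
      have h' : (e:ℝ) ≤ 2*i+2*d+1-n := by exact_mod_cast h
      rw [hE, hb]; nlinarith
    · left
      have h' : (e:ℝ) ≤ n-2-2*i := by exact_mod_cast h
      rw [hE, ha]; nlinarith
  have key := hR_le' a0 b0 a1 b1 e0 e1
  set μ : ℝ := 2*n*u with hμ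
  have w1 := le_Sy μ a0 a1.le
  have w2 := le_Sy μ b0 b1.le
  have n1 := hN (t1 m i) (-a + μ) (-3) (by unfold t1 dl; rw [ha, hμ, ← hu]; ring) (by norm_num)
  have n1' := hN (t1 m i + d*dl m) (b + μ) (-3)
    (by unfold t1 dl; rw [hb, hμ, ← hu]; ring) (by norm_num)
  have n2 := hN (t2 m n i) (-a - μ) (-3) (by unfold t2 dl; rw [ha, hμ, ← hu]; ring) (by norm_num)
  have n2' := hN (t2 m n i + d*dl m) (b - μ) (-3)
    (by unfold t2 dl; rw [hb, hμ, ← hu]; ring) (by norm_num)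
  have n3 := hN (t3 m n i) (Real.pi/2 - a) (-2) (by unfold t3 dl; rw [ha, ← hu]; ring) (by norm_num)
  have n3' := hN (t3 m n i + d*dl m) (Real.pi/2 + b) (-2)
    (by unfold t3 dl; rw [hb, ← hu]; ring) (by norm_num)
  have n4 := hN (t4 m n i) (Real.pi/2 - a) (-4) (by unfold t4 dl; rw [ha, ← hu]; ring) (by norm_num)
  have n4' := hN (t4 m n i + d*dl m) (Real.pi/2 + b) (-4)
    (by unfold t4 dl; rw [hb, ← hu]; ring) (by norm_num)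
  have c1 : (e:ℝ)*dl m = 2*E := by unfold dl; rw [hE, ← hu]; ring
  have c2 : ((e-d:ℕ):ℝ)*dl m = 2*E-a-b := by unfold dl; rw [hde', hE, ha, hb, ← hu]; ring
  have c3 : (d:ℝ)*dl m = a+b := by unfold dl; rw [ha, hb, ← hu]; ring
  have n5 := hN ((2*(2*(i:ℝ)+d)-2*n+3-2*((e-d:ℕ):ℝ)-3)*u) (b-E) (-3)
    (by rw [hde', hb, hE, ← hu]; ring) (by norm_num)
  have n5' := hN ((2*(2*(i:ℝ)+d)-2*n+3-2*((e-d:ℕ):ℝ)-3)*u + ((e-d:ℕ):ℝ)*dl m) (E-a) (-3)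
    (by unfold dl; rw [hde', ha, hE, ← hu]; ring) (by norm_num)
  have n6 := hN ((2*(2*(i:ℝ)+d)-2*n+3-2*((e-d:ℕ):ℝ)-1)*u) (b-E) (-1)
    (by rw [hde', hb, hE, ← hu]; ring) (by norm_num)
  have n6' := hN ((2*(2*(i:ℝ)+d)-2*n+3-2*((e-d:ℕ):ℝ)-1)*u + ((e-d:ℕ):ℝ)*dl m) (E-a) (-1)
    (by unfold dl; rw [hde', ha, hE, ← hu]; ring) (by norm_num)
  have n7 := hN (Real.pi/2 - ep m (e+1)) (Real.pi/2 - E) (-2)
    (by unfold ep; push_cast; rw [hE, ← hu]; ring) (by norm_num)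
  rw [abs_le] at n1 n1' n2 n2' n3 n3' n4 n4' n5 n5' n6 n6' n7
  have l1 : lob (-a + μ) = -lob (a - μ) := by rw [← lob_neg]; congr 1; ring
  have l2 : lob (-a - μ) = -lob (a + μ) := by rw [← lob_neg]; congr 1; ring
  have l3 := lob_half_add b
  have l4 := lob_double E
  rw [l1] at n1
  rw [l2] at n2
  unfold hR at key
  unfold Sy at w1 w2
  unfold gc GW
  rw [← hu, c1]
  rw [c2] at n5' n6' ⊢
  rw [c3] at n1' n2' n3' n4' ⊢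
  linarith

end Pool.Agent.Helper50.SB
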