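import Pool.Agent.Helper5.AF.Wts

/-! # Inequalities for the Lobachevsky function -/

namespace Pool.Agent.Helper50.SB
open Finset Filter Topology MeasureTheory Pool.Agent.Helper5.Cov Pool.Agent.Helper52.OC
  Pool.Agent.Helper5.AF Pool.Agent.Helper5.TV

theorem lob_nonneg {u : ℝ} (h0 : 0 ≤ u) (h1 : u ≤ Real.pi/2) : 0 ≤ lob u := by
  have hp := Real.pi_pos
  rcases le_total u (Real.pi/6) with g | g
  · have : ∫ t in (0:ℝ)..u, ls t ≤ ∫ t in (0:ℝ)..u, (0:ℝ) := by
      apply intervalIntegral.integral_mono_on_of_le_Ioo h0 (ls_int _ _) (by simp)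
      intro t ht
      obtain ⟨a, b⟩ := ht
      have p1 : 0 < Real.sin t := Real.sin_pos_of_pos_of_lt_pi (by linarith) (by linarith)
      have p2 : Real.sin t ≤ Real.sin (Real.pi/6) :=
        Real.sin_le_sin_of_le_of_le_pi_div_two (by linarith) (by linarith) (by linarith)
      rw [Real.sin_pi_div_six] at p2
      exact Real.log_nonpos (by linarith) (by linarith)
    rw [integral_ls, lob_zero] at this
    simp at this
    linarith
  · have := Pool.Agent.Helper39.VC.lob_anti g h1 le_rfl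
    rw [lob_pi_div_two] at this
    exact this

/-- the symmetric pair -/
noncomputable def Sy (ξ τ : ℝ) : ℝ := lob (τ - ξ) + lob (τ + ξ)

theorem Sy_le (ξ : ℝ) {τ : ℝ} (h0 : 0 ≤ τ) (h1 : τ ≤ Real.pi/2) : Sy ξ τ ≤ 2*lob τ := by
  have h := win_min (L := 2*τ) (by linarith) (by linarith) (ξ - τ)
  rw [show ξ - τ + 2*τ = τ + ξ by ring, show 2*τ/2 = τ by ring] at h
  have e : lob (ξ - τ) = - lob (τ - ξ) := by rw [← lob_neg]; congr 1; ring
  unfold Sy
  linarith

theorem le_Sy (ξ : ℝ) {τ : ℝ} (h0 : 0 ≤ τ) (h1 : τ ≤ Real.pi/2) : -(2*lob (Real.pi/2 - τ)) ≤ Sy ξ τ := by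
  have h := win_max (L := 2*τ) (by linarith) (by linarith) (ξ - τ)
  rw [show ξ - τ + 2*τ = τ + ξ by ring, show (Real.pi - 2*τ)/2 = Real.pi/2 - τ by ring] at h
  have e : lob (ξ - τ) = - lob (τ - ξ) := by rw [← lob_neg]; congr 1; ring
  unfold Sy
  linarith

theorem two_le_log {x : ℝ} (h : |x| ≤ 2) {y : ℝ} (hy : 2 ≤ y) : Real.log x ≤ Real.log y := by
  rcases eq_or_ne x 0 with rfl | hx
  · rw [Real.log_zero]; exact Real.log_nonneg (by linarith)
  · rw [← Real.log_abs]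
    exact Real.log_le_log (abs_pos.mpr hx) (by linarith)

theorem abs_two_sin (t : ℝ) : |2*Real.sin t| ≤ 2 := by
  rw [abs_mul, abs_two]
  have := Real.abs_sin_le_one t
  linarith

theorem ls_pair {τ μ y : ℝ} (hy : 2 ≤ y) (h : |Real.cos (2*μ) - Real.cos (2*τ)| * 2 ≤ y) :
    ls (τ - μ) + ls (τ + μ) ≤ Real.log y := by
  unfold ls
  rcases eq_or_ne (Real.sin (τ - μ)) 0 with h1 | h1
  · rw [h1, mul_zero, Real.log_zero, zero_add]
    exact two_le_log (abs_two_sin _) hy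
  · rcases eq_or_ne (Real.sin (τ + μ)) 0 with h2 | h2
    · rw [h2, mul_zero, Real.log_zero, add_zero]
      exact two_le_log (abs_two_sin _) hy
    · rw [← Real.log_mul (by positivity) (by positivity), ← Real.log_abs]
      apply Real.log_le_log (by positivity)
      have e : 2*Real.sin (τ - μ) * (2*Real.sin (τ + μ)) = 2*(Real.cos (2*μ) - Real.cos (2*τ)) := by
        have c1 := Real.cos_sub (τ+μ) (τ-μ)
        have c2 := Real.cos_add (τ+μ) (τ-μ)
        rw [show (τ+μ) - (τ-μ) = 2*μ by ring] at c1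
        rw [show (τ+μ) + (τ-μ) = 2*τ by ring] at c2
        rw [c1, c2]
        ring
      rw [e, abs_mul, abs_two]
      linarith

theorem Sy_sub_int (μ p q : ℝ) : ∫ τ in p..q, (ls (τ - μ) + ls (τ + μ)) = Sy μ p - Sy μ q := by
  have i1 : IntervalIntegrable (fun τ => ls (τ - μ)) volume p q := by
    have := ls_shift_int p q (-μ)
    simpa [sub_eq_add_neg] using this
  rw [intervalIntegral.integral_add i1 (ls_shift_int _ _ _),
    intervalIntegral.integral_comp_sub_right (fun u => ls u),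
    intervalIntegral.integral_comp_add_right (fun u => ls u), integral_ls, integral_ls]
  unfold Sy
  ring

theorem Sy_int (μ p q : ℝ) : IntervalIntegrable (fun τ => ls (τ - μ) + ls (τ + μ)) volume p q := by
  have i1 : IntervalIntegrable (fun τ => ls (τ - μ)) volume p q := by
    have := ls_shift_int p q (-μ)
    simpa [sub_eq_add_neg] using this
  exact i1.add (ls_shift_int _ _ _)

/-- comparison with `μ = π/2` -/
theorem Sy_sub_le_left (μ : ℝ) {p q : ℝ} (h0 : 0 ≤ p) (hpq : p ≤ q) (h1 : q ≤ Real.pi/4) :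
    Sy μ p - Sy μ q ≤ 2*(lob (Real.pi/2 - q) - lob (Real.pi/2 - p)) := by
  have hp := Real.pi_pos
  rw [← Sy_sub_int]
  have e : ∫ τ in p..q, 2 * ls (Real.pi/2 - τ) = 2*(lob (Real.pi/2 - q) - lob (Real.pi/2 - p)) := by
    rw [intervalIntegral.integral_const_mul, intervalIntegral.integral_comp_sub_left (fun u => ls u),
      integral_ls]
  rw [← e]
  apply intervalIntegral.integral_mono_on_of_le_Ioo hpq (Sy_int _ _ _) ((ls_refl_int _ _ _).const_mul 2)
  intro τ hτ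
  obtain ⟨t0, t1⟩ := hτ
  have hc : 0 ≤ Real.cos (2*τ) := Real.cos_nonneg_of_mem_Icc ⟨by linarith, by linarith⟩
  have h2 : 2 * ls (Real.pi/2 - τ) = Real.log (2 + 2*Real.cos (2*τ)) := by
    unfold ls
    rw [Real.sin_pi_div_two_sub, Real.cos_two_mul, show 2 + 2*(2*Real.cos τ^2-1) = (2*Real.cos τ)^2 by ring,
      Real.log_pow]
    push_cast; ring
  rw [h2]
  apply ls_pair (by linarith)
  have a1 := Real.neg_one_le_cos (2*μ)
  have a2 := Real.cos_le_one (2*μ)
  have a3 : |Real.cos (2*μ) - Real.cos (2*τ)| ≤ (2 + 2*Real.cos (2*τ))/2 :=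
    abs_le.mpr ⟨by linarith, by linarith⟩
  linarith

/-- comparison with `μ = 0` -/
theorem Sy_sub_le_right (μ : ℝ) {p q : ℝ} (h0 : Real.pi/4 ≤ p) (hpq : p ≤ q) (h1 : q ≤ Real.pi/2) :
    Sy μ p - Sy μ q ≤ 2*(lob p - lob q) := by
  have hp := Real.pi_pos
  rw [← Sy_sub_int]
  have e : ∫ τ in p..q, 2 * ls τ = 2*(lob p - lob q) := by
    rw [intervalIntegral.integral_const_mul, integral_ls]
  rw [← e]
  apply intervalIntegral.integral_mono_on_of_le_Ioo hpq (Sy_int _ _ _) ((ls_int _ _).const_mul 2)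
  intro τ hτ
  obtain ⟨t0, t1⟩ := hτ
  have hc : Real.cos (2*τ) ≤ 0 := Real.cos_nonpos_of_pi_div_two_le_of_le (by linarith) (by linarith)
  have h2 : 2 * ls τ = Real.log (2 - 2*Real.cos (2*τ)) := by
    unfold ls
    rw [Real.cos_two_mul, show 2 - 2*(2*Real.cos τ^2-1) = (2*Real.sin τ)^2 by
      have := Real.sin_sq_add_cos_sq τ
      linarith [show (2*Real.sin τ)^2 = 4*Real.sin τ^2 by ring], Real.log_pow]
    push_cast; ring
  rw [h2]
  apply ls_pair (by linarith)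
  have a1 := Real.neg_one_le_cos (2*μ)
  have a2 := Real.cos_le_one (2*μ)
  have a3 : |Real.cos (2*μ) - Real.cos (2*τ)| ≤ (2 - 2*Real.cos (2*τ))/2 :=
    abs_le.mpr ⟨by linarith, by linarith⟩
  linarith

/-- the function of the trivial bound -/
noncomputable def Psi (ξ μ τ : ℝ) : ℝ := Sy ξ τ - Sy μ τ/2 + lob (Real.pi/2 - τ)

theorem pair_le {a : ℝ} (h0 : 0 ≤ a) (h1 : a ≤ Real.pi/2) :
    lob a + lob (Real.pi/2 - a) ≤ 2*lob (Real.pi/4) := by
  have hp := Real.pi_pos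
  have h := Pool.Agent.Helper39.VC.lob_pair (x := a) (y := Real.pi/2 - a) h0 (by linarith) (by linarith)
  rwa [show (a + (Real.pi/2 - a))/2 = Real.pi/4 by ring] at h

/-- **(II)** -/
theorem Psi_neg (ξ μ : ℝ) {a b : ℝ} (a0 : 0 ≤ a) (a1 : a ≤ Real.pi/2) (b0 : 0 ≤ b)
    (b1 : b ≤ Real.pi/2) : -Psi ξ μ a - Psi ξ μ b ≤ 4*lob (Real.pi/4) := by
  have h1 := le_Sy ξ a0 a1
  have h2 := Sy_le μ a0 a1
  have h3 := le_Sy ξ b0 b1
  have h4 := Sy_le μ b0 b1
  have h5 := pair_le a0 a1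
  have h6 := pair_le b0 b1
  unfold Psi
  linarith

/-- **(III)** -/
theorem Psi_le (ξ μ : ℝ) {a : ℝ} (a0 : 0 ≤ a) (a1 : a ≤ Real.pi/2) :
    Psi ξ μ a ≤ 4*lob (Real.pi/4) := by
  have h1 := Sy_le ξ a0 a1
  have h2 := le_Sy μ a0 a1
  have h5 := pair_le a0 a1
  unfold Psi
  linarith

/-- **(I)** -/
theorem Psi_sub (ξ μ : ℝ) {a b : ℝ} (a0 : 0 ≤ a) (a1 : a ≤ Real.pi/2) (b0 : 0 ≤ b)
    (b1 : b ≤ Real.pi/2) : Psi ξ μ a - Psi ξ μ b ≤ 4*lob (Real.pi/4) := by
  have hp := Real.pi_pos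
  have h1 := Sy_le ξ a0 a1
  have h1' := le_Sy ξ a0 a1
  have h2 := Sy_le μ a0 a1
  have h2' := le_Sy μ a0 a1
  have h3 := Sy_le ξ b0 b1
  have h3' := le_Sy ξ b0 b1
  have h4 := Sy_le μ b0 b1
  have h4' := le_Sy μ b0 b1
  have h5 := pair_le a0 a1
  have h6 := pair_le b0 b1
  have q4 := lob_nonneg (u := Real.pi/4) (by linarith) (by linarith)
  have qb := lob_nonneg b0 b1
  have qb' := lob_nonneg (u := Real.pi/2 - b) (by linarith) (by linarith)
  have e4 : Real.pi/2 - Real.pi/4 = Real.pi/4 := by ring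
  unfold Psi
  rcases le_total b a with hab | hab
  · -- the window `[b, a]`
    rcases le_total a (Real.pi/4) with ha | ha
    · have := Sy_sub_le_left μ b0 hab ha
      linarith
    · rcases le_total b (Real.pi/4) with hb | hb
      · have g1 := Sy_sub_le_left μ b0 hb le_rfl
        have g2 := Sy_sub_le_right μ le_rfl ha a1
        rw [e4] at g1
        linarith
      · have := Sy_sub_le_right μ hb hab a1
        linarith
  · -- the window `[a, b]`
    rcases le_total b (Real.pi/4) with hb | hb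
    · have := Sy_sub_le_left ξ a0 hab hb
      linarith
    · rcases le_total a (Real.pi/4) with ha | ha
      · have g1 := Sy_sub_le_left ξ a0 ha le_rfl
        have g2 := Sy_sub_le_right ξ le_rfl hb b1
        rw [e4] at g1
        linarith
      · have := Sy_sub_le_right ξ ha hab b1
        linarith

theorem Psi_pi_sub (ξ μ τ : ℝ) : Psi ξ μ (Real.pi - τ) = -Psi ξ μ τ := by
  unfold Psi Sy
  rw [show Real.pi - τ - ξ = Real.pi - (τ + ξ) by ring, show Real.pi - τ + ξ = Real.pi - (τ - ξ) by ring,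
    show Real.pi - τ - μ = Real.pi - (τ + μ) by ring, show Real.pi - τ + μ = Real.pi - (τ - μ) by ring,
    lob_pi_sub, lob_pi_sub, lob_pi_sub, lob_pi_sub,
    show Real.pi/2 - (Real.pi - τ) = -(Real.pi/2 - τ) by ring, lob_neg]
  ring

theorem Psi_neg_arg (ξ μ τ : ℝ) : Psi ξ μ (-τ) = -Psi ξ μ τ := by
  unfold Psi Sy
  rw [show -τ - ξ = -(τ + ξ) by ring, show -τ + ξ = -(τ - ξ) by ring,
    show -τ - μ = -(τ + μ) by ring, show -τ + μ = -(τ - μ) by ring,
    lob_neg, lob_neg, lob_neg, lob_neg,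
    show Real.pi/2 - -τ = Real.pi - (Real.pi/2 - τ) by ring, lob_pi_sub]
  ring

/-- the values of `Psi` on `[0, π]` -/
theorem Psi_abs (ξ μ : ℝ) {τ : ℝ} (h0 : 0 ≤ τ) (h1 : τ ≤ Real.pi) : ∃ t, 0 ≤ t ∧ t ≤ Real.pi/2 ∧
    (Psi ξ μ τ = Psi ξ μ t ∧ t = τ ∧ τ ≤ Real.pi/2 ∨ Psi ξ μ τ = -Psi ξ μ t ∧ Real.pi/2 ≤ τ) := by
  rcases le_total τ (Real.pi/2) with h | h
  · exact ⟨τ, h0, h, Or.inl ⟨rfl, rfl, h⟩⟩
  · refine ⟨Real.pi - τ, by linarith, by linarith, Or.inr ⟨?_, h⟩⟩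
    have := Psi_pi_sub ξ μ (Real.pi - τ)
    rw [sub_sub_cancel] at this
    exact this

/-- windows in `[0, π]` -/
theorem Psi_one_side (ξ μ : ℝ) {α β : ℝ} (h0 : 0 ≤ α) (h : α ≤ β) (h1 : β ≤ Real.pi) :
    Psi ξ μ β - Psi ξ μ α ≤ 4*lob (Real.pi/4) := by
  have hp := Real.pi_pos
  obtain ⟨s, s0, s1, hs⟩ := Psi_abs ξ μ h0 (by linarith)
  obtain ⟨t, t0, t1, ht⟩ := Psi_abs ξ μ (h0.trans h) h1
  have e1 := Psi_sub ξ μ s0 s1 t0 t1
  have e2 := Psi_sub ξ μ t0 t1 s0 s1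
  have e3 := Psi_neg ξ μ s0 s1 t0 t1
  rcases hs with ⟨hs, hs', hs''⟩ | ⟨hs, hs'⟩
  · rcases ht with ⟨ht, ht', ht''⟩ | ⟨ht, ht'⟩
    · rw [hs, ht]; linarith
    · rw [hs, ht]; linarith
  · rcases ht with ⟨ht, ht', ht''⟩ | ⟨ht, ht'⟩
    · have : α = β := by linarith
      rw [this, sub_self]
      have := lob_nonneg (u := Real.pi/4) (by linarith) (by linarith)
      linarith
    · rw [hs, ht]; linarith

/-- windows that contain `[0, π/2]` -/
theorem Psi_two_side (ξ μ : ℝ) {α β : ℝ} (a0 : 0 ≤ α) (a1 : α ≤ Real.pi) (b0 : Real.pi/2 ≤ β)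
    (b1 : β ≤ Real.pi) : Psi ξ μ β + Psi ξ μ α ≤ 4*lob (Real.pi/4) := by
  have hp := Real.pi_pos
  obtain ⟨s, s0, s1, hs⟩ := Psi_abs ξ μ a0 a1
  have ht := Psi_pi_sub ξ μ (Real.pi - β)
  rw [sub_sub_cancel] at ht
  have e1 := Psi_sub ξ μ s0 s1 (b := Real.pi - β) (by linarith) (by linarith)
  have e3 := Psi_neg ξ μ s0 s1 (b := Real.pi - β) (by linarith) (by linarith)
  rcases hs with ⟨hs, hs', hs''⟩ | ⟨hs, hs'⟩
  · rw [hs, ht]; linarith
  · rw [hs, ht]; linarith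

/-- **(T)** the windows that are not central -/
theorem Psi_window (ξ μ : ℝ) {α β : ℝ} (h0 : -Real.pi ≤ α) (h1 : β ≤ Real.pi) (h2 : α ≤ β)
    (h3 : 0 ≤ α ∨ β ≤ 0 ∨ Real.pi/2 ≤ β ∨ α ≤ -(Real.pi/2)) :
    Psi ξ μ β - Psi ξ μ α ≤ 4*lob (Real.pi/4) := by
  have hp := Real.pi_pos
  have ea := Psi_neg_arg ξ μ (-α)
  have eb := Psi_neg_arg ξ μ (-β)
  rw [neg_neg] at ea eb
  rcases le_total 0 α with ha | ha
  · exact Psi_one_side ξ μ ha h2 h1
  · rcases le_total β 0 with hb | hb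
    · have := Psi_one_side ξ μ (α := -β) (β := -α) (by linarith) (by linarith) (by linarith)
      rw [ea, eb]; linarith
    · rcases h3 with h | h | h | h
      · have : α = 0 := le_antisymm ha h
        rw [this] at h2 ⊢
        exact Psi_one_side ξ μ le_rfl h2 h1
      · have hβ : -β = 0 := by linarith
        have := Psi_one_side ξ μ (α := -β) (β := -α) (by linarith) (by linarith) (by linarith)
        rw [ea, eb]; linarith
      · have := Psi_two_side ξ μ (α := -α) (β := β) (by linarith) (by linarith) h h1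
        rw [ea]; linarith
      · have := Psi_two_side ξ μ (α := β) (β := -α) hb h1 (by linarith) (by linarith)
        rw [ea]; linarith

/-- all windows -/
theorem Psi_window_crude (ξ μ : ℝ) {α β : ℝ} (h0 : -Real.pi ≤ α) (h1 : β ≤ Real.pi) (h2 : α ≤ β) :
    Psi ξ μ β - Psi ξ μ α ≤ 8*lob (Real.pi/4) := by
  have hp := Real.pi_pos
  have hq := lob_nonneg (u := Real.pi/4) (by linarith) (by linarith)
  by_cases h3 : 0 ≤ α ∨ β ≤ 0 ∨ Real.pi/2 ≤ β ∨ α ≤ -(Real.pi/2)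
  · have := Psi_window ξ μ h0 h1 h2 h3
    linarith
  · simp only [not_or, not_le] at h3
    obtain ⟨a, b, c, d⟩ := h3
    have e1 := Psi_le ξ μ (a := β) b.le c.le
    have e2 := Psi_le ξ μ (a := -α) (by linarith) (by linarith)
    have ea := Psi_neg_arg ξ μ (-α)
    rw [neg_neg] at ea
    rw [ea]; linarith

/-! ## the central windows -/

/-- the difference of the exponents -/
noncomputable def hR (a b e : ℝ) : ℝ :=
  -(2*lob e) - 2*lob (Real.pi/2 - e) + lob (a+b) + lob (2*e-a-b) + 2*lob (b-e) - 2*lob (e-a)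
    + 2*lob (Real.pi/2 - a) + 2*lob (Real.pi/2 - b)

theorem hR_diag (e : ℝ) : hR e e e = 0 := by
  have h := lob_double e
  unfold hR
  rw [show e + e = 2*e by ring, show 2*e - e - e = 0 by ring, sub_self, lob_zero, h]
  ring

theorem hR_cont : Continuous fun p : ℝ × ℝ × ℝ => hR p.1 p.2.1 p.2.2 := by
  unfold hR
  have := lob_continuous
  fun_prop

/-- the key identity -/
theorem key_id (a b e : ℝ) : 2*Real.sin e * Real.sin (b-e) * Real.sin (e-a)
    = Real.cos e * Real.sin (2*e-a-b) + (Real.cos e * Real.sin (a+b)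
      - 2*Real.sin e * Real.cos a * Real.cos b) := by
  have c1 := Real.cos_sub (b-e) (e-a)
  have c2 := Real.cos_add (b-e) (e-a)
  have d1 := Real.sin_add e (e-(a+b))
  have d2 := Real.sin_sub e (e-(a+b))
  have d3 := Real.cos_add e (e-(a+b))
  have d4 := Real.cos_sub e (e-(a+b))
  have c4 := Real.cos_add a b
  have c5 := Real.cos_sub a b
  rw [show (b-e)-(e-a) = -(2*e-a-b) by ring, Real.cos_neg] at c1
  rw [show (b-e)+(e-a) = -(a-b) by ring, Real.cos_neg] at c2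
  rw [show e+(e-(a+b)) = 2*e-a-b by ring] at d1 d3
  rw [show e-(e-(a+b)) = a+b by ring] at d2 d4
  linear_combination (-Real.sin e) * (c1 - c2) + Real.sin e * (d3 + d4 - c4 - c5 + c4 - c4)
    - Real.cos e * (d1 + d2)

end Pool.Agent.Helper50.SB
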