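import Pool.Agent.Helper50.SB.CF

/-! # Frobenius norms in the split basis -/

namespace Pool.Agent.Helper50.SB
open Finset Matrix Pool.Agent.Helper5.Cov Pool.Agent.Helper52.OC

/-- the square of the Frobenius norm -/
noncomputable def F2 {k : ℕ} (X : Matrix (Fin k) (Fin k) ℂ) : ℝ := ∑ i, ∑ j, ‖X i j‖^2

variable {k : ℕ}

theorem F2_nonneg (X : Matrix (Fin k) (Fin k) ℂ) : 0 ≤ F2 X :=
  sum_nonneg fun _ _ => sum_nonneg fun _ _ => by positivity

theorem F2_mul (X Y : Matrix (Fin k) (Fin k) ℂ) : F2 (X*Y) ≤ F2 X * F2 Y := by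
  have h1 : ∀ i j, ‖(X*Y) i j‖^2 ≤ (∑ l, ‖X i l‖^2) * ∑ l, ‖Y l j‖^2 := by
    intro i j
    rw [mul_apply]
    have h2 : ‖∑ l, X i l * Y l j‖ ≤ ∑ l, ‖X i l‖ * ‖Y l j‖ := by
      refine (norm_sum_le _ _).trans (le_of_eq ?_)
      apply sum_congr rfl; intro l _; rw [norm_mul]
    calc ‖∑ l, X i l * Y l j‖^2 ≤ (∑ l, ‖X i l‖ * ‖Y l j‖)^2 :=
          pow_le_pow_left₀ (norm_nonneg _) h2 2
      _ ≤ _ := sum_mul_sq_le_sq_mul_sq _ _ _
  unfold F2
  calc ∑ i, ∑ j, ‖(X*Y) i j‖^2 ≤ ∑ i, ∑ j, (∑ l, ‖X i l‖^2) * ∑ l, ‖Y l j‖^2 :=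
        sum_le_sum fun i _ => sum_le_sum fun j _ => h1 i j
    _ = (∑ i, ∑ l, ‖X i l‖^2) * ∑ j, ∑ l, ‖Y l j‖^2 := by
        rw [sum_mul]
        apply sum_congr rfl; intro i _
        rw [mul_sum]
    _ = _ := by rw [sum_comm (s := univ) (t := univ) (f := fun j l => ‖Y l j‖^2)]

theorem F2_one : F2 (1 : Matrix (Fin k) (Fin k) ℂ) = k := by
  unfold F2
  have : ∀ i : Fin k, ∑ j, ‖(1 : Matrix (Fin k) (Fin k) ℂ) i j‖^2 = 1 := by
    intro i
    rw [sum_eq_single i]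
    · simp
    · intro j _ hj
      rw [one_apply_ne hj.symm]; simp
    · intro h; exact absurd (mem_univ _) h
  rw [sum_congr rfl fun i _ => this i]
  simp

theorem trace_sq_le (X : Matrix (Fin k) (Fin k) ℂ) : ‖X.trace‖^2 ≤ k * F2 X := by
  have h1 : ‖X.trace‖ ≤ ∑ i, 1 * ‖X i i‖ := by
    unfold Matrix.trace
    refine (norm_sum_le _ _).trans (le_of_eq ?_)
    apply sum_congr rfl; intro i _; rw [one_mul, diag_apply]
  have h2 : (∑ i : Fin k, 1 * ‖X i i‖)^2 ≤ (∑ _i : Fin k, (1:ℝ)^2) * ∑ i, ‖X i i‖^2 :=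
    sum_mul_sq_le_sq_mul_sq _ _ _
  have h3 : ∑ i, ‖X i i‖^2 ≤ F2 X := by
    unfold F2
    apply sum_le_sum
    intro i _
    exact single_le_sum (f := fun j => ‖X i j‖^2) (fun j _ => by positivity) (mem_univ i)
  calc ‖X.trace‖^2 ≤ (∑ i, 1 * ‖X i i‖)^2 := pow_le_pow_left₀ (norm_nonneg _) h1 2
    _ ≤ (∑ _i : Fin k, (1:ℝ)^2) * ∑ i, ‖X i i‖^2 := h2
    _ = k * ∑ i, ‖X i i‖^2 := by simp
    _ ≤ _ := mul_le_mul_of_nonneg_left h3 (Nat.cast_nonneg _)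

variable {m n : ℕ}

theorem _root_.Pool.Agent.Helper5.Cov.Ok.nuM_ne (h : Ok m n) {i : ℕ} (hi : i < n) :
    nu2 m n * M2 m n i ≠ 0 := by
  have h1 := h.nu_mul hi
  have h2 := h.rho2_ne
  intro h0
  rw [h0, zero_mul] at h1
  apply h2
  rw [← h1]; simp

theorem _root_.Pool.Agent.Helper5.Cov.Ok.M2_ne (h : Ok m n) {i : ℕ} (hi : i < n) : M2 m n i ≠ 0 :=
  (mul_ne_zero_iff.mp (h.nuM_ne hi)).2

theorem _root_.Pool.Agent.Helper5.Cov.Ok.nu2_ne (h : Ok m n) : nu2 m n ≠ 0 :=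
  (mul_ne_zero_iff.mp (h.nuM_ne (i := 0) h.1)).1

/-- the weighted square norm of a triangular matrix -/
noncomputable def Qd (m n : ℕ) (D : ℕ → ℕ → ℂ) : ℝ :=
  ∑ i ∈ range n, ∑ j ∈ Ico i n, ‖D i j‖^2 * ∏ l ∈ Ioc i j, |phi m n (l:ℤ)|

theorem Qd_nonneg (D : ℕ → ℕ → ℂ) : 0 ≤ Qd m n D :=
  sum_nonneg fun _ _ => sum_nonneg fun _ _ => by
    apply mul_nonneg (by positivity)
    exact prod_nonneg fun _ _ => abs_nonneg _

/-- the scaled split basis -/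
noncomputable def Wd (m n : ℕ) : Matrix (Fin n) (Fin n) ℂ :=
  diagonal fun i => ((Real.sqrt |M2 m n i|)⁻¹ : ℝ)
noncomputable def Wi (m n : ℕ) : Matrix (Fin n) (Fin n) ℂ :=
  diagonal fun i => (Real.sqrt |M2 m n i| : ℝ)
noncomputable def Bm (m n : ℕ) : Matrix (Fin n) (Fin n) ℂ := Wd m n * Em m n
noncomputable def Bi (m n : ℕ) : Matrix (Fin n) (Fin n) ℂ := (Em m n)⁻¹ * Wi m n

theorem sqrt_pos' (h : Ok m n) (i : Fin n) : 0 < Real.sqrt |M2 m n i| :=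
  Real.sqrt_pos.mpr (abs_pos.mpr (h.M2_ne i.2))

theorem Wd_mul (h : Ok m n) : Wd m n * Wi m n = 1 := by
  unfold Wd Wi
  rw [diagonal_mul_diagonal, ← diagonal_one]
  congr 1
  funext i
  rw [← Complex.ofReal_mul, inv_mul_cancel₀ (sqrt_pos' h i).ne', Complex.ofReal_one]

theorem Wi_mul (h : Ok m n) : Wi m n * Wd m n = 1 := by
  unfold Wd Wi
  rw [diagonal_mul_diagonal, ← diagonal_one]
  congr 1
  funext i
  rw [← Complex.ofReal_mul, mul_inv_cancel₀ (sqrt_pos' h i).ne', Complex.ofReal_one]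

theorem Em_inv (h : Ok m n) : Em m n * (Em m n)⁻¹ = 1 :=
  mul_nonsing_inv _ (isUnit_iff_ne_zero.mpr h.Em_det)

theorem Em_inv' (h : Ok m n) : (Em m n)⁻¹ * Em m n = 1 :=
  nonsing_inv_mul _ (isUnit_iff_ne_zero.mpr h.Em_det)

theorem Bm_mul (h : Ok m n) : Bm m n * Bi m n = 1 := by
  unfold Bm Bi
  calc Wd m n * Em m n * ((Em m n)⁻¹ * Wi m n) = Wd m n * (Em m n * (Em m n)⁻¹) * Wi m n := by
        simp only [mul_assoc]
    _ = 1 := by rw [Em_inv h, mul_one, Wd_mul h]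

theorem Bi_mul (h : Ok m n) : Bi m n * Bm m n = 1 := by
  unfold Bm Bi
  calc (Em m n)⁻¹ * Wi m n * (Wd m n * Em m n) = (Em m n)⁻¹ * (Wi m n * Wd m n) * Em m n := by
        simp only [mul_assoc]
    _ = 1 := by rw [Wi_mul h, mul_one, Em_inv' h]

/-- the norm in the scaled split basis -/
noncomputable def Fk (m n : ℕ) (X : Matrix (Fin n) (Fin n) ℂ) : ℝ := F2 (Bm m n * X * Bi m n)

theorem Fk_nonneg (X : Matrix (Fin n) (Fin n) ℂ) : 0 ≤ Fk m n X := F2_nonneg _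

theorem Fk_mul (h : Ok m n) (X Y : Matrix (Fin n) (Fin n) ℂ) : Fk m n (X*Y) ≤ Fk m n X * Fk m n Y := by
  unfold Fk
  refine le_trans (le_of_eq ?_) (F2_mul _ _)
  congr 1
  calc Bm m n * (X*Y) * Bi m n = Bm m n * X * 1 * Y * Bi m n := by
        rw [mul_one]; simp only [mul_assoc]
    _ = _ := by rw [← Bi_mul h]; simp only [mul_assoc]

theorem Fk_one (h : Ok m n) : Fk m n 1 = n := by
  unfold Fk
  rw [mul_one, Bm_mul h, F2_one]

theorem trace_sq_le_Fk (h : Ok m n) (X : Matrix (Fin n) (Fin n) ℂ) : ‖X.trace‖^2 ≤ n * Fk m n X := by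
  have e : X.trace = (Bm m n * X * Bi m n).trace := by
    rw [trace_mul_comm, ← mul_assoc, Bi_mul h, one_mul]
  rw [e]
  exact trace_sq_le _

/-- conjugation by the scaled basis from conjugation by the basis -/
theorem Bm_conj (h : Ok m n) {X Y : Matrix (Fin n) (Fin n) ℂ} (he : Em m n * X = Y * Em m n) (i j : Fin n) :
    (Bm m n * X * Bi m n) i j
      = ((Real.sqrt |M2 m n i|)⁻¹ : ℝ) * Y i j * (Real.sqrt |M2 m n j| : ℝ) := by
  have e : Bm m n * X * Bi m n = Wd m n * Y * Wi m n := by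
    unfold Bm Bi
    calc Wd m n * Em m n * X * ((Em m n)⁻¹ * Wi m n) = Wd m n * (Em m n * X) * (Em m n)⁻¹ * Wi m n := by
          simp only [mul_assoc]
      _ = Wd m n * Y * (Em m n * (Em m n)⁻¹) * Wi m n := by rw [he]; simp only [mul_assoc]
      _ = _ := by rw [Em_inv h, mul_one]
  rw [e]
  unfold Wd Wi
  rw [mul_diagonal, diagonal_mul]

theorem norm_Bm_conj (h : Ok m n) {X Y : Matrix (Fin n) (Fin n) ℂ} (he : Em m n * X = Y * Em m n)
    (i j : Fin n) : ‖(Bm m n * X * Bi m n) i j‖^2 = ‖Y i j‖^2 * (|M2 m n j| / |M2 m n i|) := by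
  rw [Bm_conj h he, norm_mul, norm_mul, Complex.norm_real, Complex.norm_real, Real.norm_eq_abs,
    Real.norm_eq_abs, abs_inv, abs_of_pos (sqrt_pos' h i), abs_of_pos (sqrt_pos' h j), mul_pow,
    mul_pow, inv_pow, Real.sq_sqrt (abs_nonneg _), Real.sq_sqrt (abs_nonneg _)]
  ring

theorem M2_quot (h : Ok m n) {i j : ℕ} (hij : i ≤ j) (hj : j < n) :
    |M2 m n j| / |M2 m n i| = ∏ l ∈ Ioc i j, |phi m n (l:ℤ)| := by
  rw [M2_ratio hij, abs_mul, abs_prod, mul_div_assoc, mul_comm, div_mul_cancel₀]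
  exact abs_ne_zero.mpr (h.M2_ne (by omega))

/-- the norm of a diagonal matrix -/
theorem Fk_tri (h : Ok m n) {X : Matrix (Fin n) (Fin n) ℂ} {D : ℕ → ℕ → ℂ}
    (he : Em m n * X = Dm n D * Em m n) : Fk m n X = Qd m n D := by
  unfold Fk F2 Qd
  rw [← Fin.sum_univ_eq_sum_range (fun i => ∑ j ∈ Ico i n, ‖D i j‖^2 * ∏ l ∈ Ioc i j, |phi m n (l:ℤ)|) n]
  apply sum_congr rfl
  intro i _
  simp only [norm_Bm_conj h he]
  have e : ∀ j : Fin n, ‖Dm n D i j‖^2 * (|M2 m n j| / |M2 m n i|)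
      = if (i:ℕ) ≤ j then ‖D i j‖^2 * ∏ l ∈ Ioc (i:ℕ) j, |phi m n (l:ℤ)| else 0 := by
    intro j
    unfold Dm
    rw [of_apply]
    by_cases hij : (i:ℕ) ≤ j
    · rw [if_pos hij, if_pos hij, M2_quot h hij j.2]
    · rw [if_neg hij, if_neg hij]; simp
  rw [sum_congr rfl fun j _ => e j,
    Fin.sum_univ_eq_sum_range (fun j => if (i:ℕ) ≤ j then ‖D i j‖^2 * ∏ l ∈ Ioc (i:ℕ) j, |phi m n (l:ℤ)|
      else 0) n, ← sum_filter]
  apply sum_congr _ (fun _ _ => rfl)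
  ext j
  rw [mem_filter, mem_range, mem_Ico]
  omega

/-- the norm of the swap of a diagonal matrix -/
theorem Fk_swap (h : Ok m n) {X : Matrix (Fin n) (Fin n) ℂ} {D : ℕ → ℕ → ℂ}
    (he : Em m n * X = (Dm n D).map (starRingEnd ℂ) * Em m n) :
    Fk m n (((rho m n ^ 2 : ℝ) : ℂ)⁻¹ • (Cm m n * X * Cm m n)) = Qd m n D := by
  have hr := h.rho2_ne
  have he2 : Em m n * (((rho m n ^ 2 : ℝ) : ℂ)⁻¹ • (Cm m n * X * Cm m n))
      = (((rho m n ^ 2 : ℝ) : ℂ)⁻¹ • (N2 m n * (Dm n D).map (starRingEnd ℂ) * N2 m n)) * Em m n := by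
    rw [Matrix.mul_smul, Matrix.smul_mul]
    congr 1
    calc Em m n * (Cm m n * X * Cm m n) = (Em m n * Cm m n) * X * Cm m n := by simp only [mul_assoc]
      _ = N2 m n * (Em m n * X) * Cm m n := by rw [h.Em_Cm]; simp only [mul_assoc]
      _ = N2 m n * (Dm n D).map (starRingEnd ℂ) * (Em m n * Cm m n) := by
          rw [he]; simp only [mul_assoc]
      _ = _ := by rw [h.Em_Cm]; simp only [mul_assoc]
  unfold Fk F2
  simp only [norm_Bm_conj h he2]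
  have rf : ∀ i : Fin n, n - 1 - (i:ℕ) < n := fun i => by have := i.2; omega
  have e : ∀ i j : Fin n, ‖((((rho m n ^ 2 : ℝ) : ℂ)⁻¹ • (N2 m n * (Dm n D).map (starRingEnd ℂ) * N2 m n))
      : Matrix (Fin n) (Fin n) ℂ) i j‖^2 * (|M2 m n j| / |M2 m n i|)
      = (fun a b : ℕ => if a ≤ b then ‖D a b‖^2 * ∏ l ∈ Ioc a b, |phi m n (l:ℤ)| else 0)
        (n-1-i) (n-1-j) := by
    intro i j
    simp only
    rw [Matrix.smul_apply, N2_mul_N2, Matrix.map_apply]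
    unfold Dm
    rw [of_apply]
    simp only
    by_cases hij : n-1-(i:ℕ) ≤ n-1-j
    · rw [if_pos hij, if_pos hij, ← M2_quot h hij (rf j), smul_eq_mul, norm_mul, norm_mul, norm_mul,
        norm_inv, RCLike.norm_conj, Complex.norm_real, Complex.norm_real, Complex.norm_real,
        Real.norm_eq_abs, Real.norm_eq_abs, Real.norm_eq_abs]
      have h1 := h.nu_mul i.2
      have h2 := h.nu_mul j.2
      have a1 := h.M2_ne i.2
      have a2 := h.M2_ne j.2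
      have a3 := h.M2_ne (rf i)
      have a4 := h.M2_ne (rf j)
      have a5 := h.nu2_ne
      have h1' := congrArg abs h1
      have h2' := congrArg abs h2
      rw [abs_mul, abs_mul, abs_mul] at h1' h2'
      rw [abs_mul, abs_mul]
      rw [← abs_pos] at a1 a2 a3 a4 a5
      have hr' : 0 < |rho m n ^ 2| := by
        rw [← h1']; positivity
      have e1 : |M2 m n (n-1-i)| = |rho m n ^ 2| / (|nu2 m n|^2 * |M2 m n i|) := by
        rw [← h1']; field_simp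
      have e2 : |M2 m n (n-1-j)| = |rho m n ^ 2| / (|nu2 m n|^2 * |M2 m n j|) := by
        rw [← h2']; field_simp
      rw [e1, e2]
      field_simp
    · rw [if_neg hij, if_neg hij, map_zero, mul_zero, zero_mul, smul_zero, norm_zero]
      simp
  simp only [e]
  have hrev : ∀ g : ℕ → ℝ, ∑ i : Fin n, g (n-1-i) = ∑ i ∈ range n, g i := by
    intro g
    rw [Fin.sum_univ_eq_sum_range (fun i => g (n-1-i)) n]
    exact sum_range_reflect g n
  rw [show (∑ i : Fin n, ∑ j : Fin n, (fun a b : ℕ => if a ≤ b then ‖D a b‖^2 * ∏ l ∈ Ioc a b,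
      |phi m n (l:ℤ)| else 0) (n-1-i) (n-1-j)) = ∑ i : Fin n, (fun a => ∑ j ∈ range n,
      if a ≤ j then ‖D a j‖^2 * ∏ l ∈ Ioc a j, |phi m n (l:ℤ)| else 0) (n-1-i) by
    apply sum_congr rfl
    intro i _
    exact hrev (fun b => if n-1-i ≤ b then ‖D (n-1-i) b‖^2 * ∏ l ∈ Ioc (n-1-i) b, |phi m n (l:ℤ)| else 0)]
  rw [hrev (fun a => ∑ j ∈ range n,
      if a ≤ j then ‖D a j‖^2 * ∏ l ∈ Ioc a j, |phi m n (l:ℤ)| else 0)]
  unfold Qd
  apply sum_congr rfl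
  intro i _
  rw [← sum_filter]
  apply sum_congr _ (fun _ _ => rfl)
  ext j
  rw [mem_filter, mem_range, mem_Ico]
  omega

end Pool.Agent.Helper50.SB
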