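import Pool.Agent.Helper50.SB.CentB
import Pool.Agent.Helper5.AF.All

/-! # The upper bound for the bundles with arbitrary syllables -/

namespace Pool.Agent.Helper50.SB
open Finset Filter Topology Pool.Agent.Helper5.Cov Pool.Agent.Helper52.OC Pool.Agent.Helper5.AF
  Pool.Agent.Helper84.OC
open Pool.Agent.Helper5.TV hiding cs

/-! ## the state sums for a constant list -/

theorem sum_replicate (a N : ℕ) : (List.replicate N a).sum = a * N := by
  rw [List.sum_replicate, smul_eq_mul, Nat.mul_comm]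

theorem prodM_syl_replicate (A : ℂ) (r : ℕ) {a : ℕ} (ha : 1 ≤ a) (N : ℕ) :
    prodM (fun i => LM A r (syl (List.replicate N a) i)) (List.replicate N a).sum
      = ((PhiM A r * PiM r)^(a-1) * PhiM A r)^N := by
  induction N with
  | zero => rw [pow_zero]; rfl
  | succ N ih =>
    rw [List.replicate_succ, List.sum_cons, prodM_syl _ _ ha, ih, pow_succ]

theorem rep_pos {a : ℕ} (ha : 1 ≤ a) (N : ℕ) : ∀ b ∈ List.replicate N a, 1 ≤ b := by
  intro b hb
  rw [List.eq_of_mem_replicate hb]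
  exact ha

/-- for a constant list one gets the state sums of `famBundle` -/
theorem stateSum_rep {m : ℕ} (hm : 1 ≤ m) (a N : ℕ) (ha : 1 ≤ a) (hN : 1 ≤ N)
    (hl : ∀ b ∈ List.replicate N a, 1 ≤ b) (hne : List.replicate N a ≠ [])
    (s : Fin (List.replicate N a).sum → Bool) (s' : Fin (a*N) → Bool) :
    (sylBundle (List.replicate N a) hl hne s).stateSum (2*m+1)
      = (famBundle a N ha hN s').stateSum (2*m+1) := by
  unfold sylBundle famBundle
  rw [stateSum_word_trace' hm (sum_pos hl hne) (syl (List.replicate N a)) _ s _ (fun i => rfl),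
    stateSum_word_trace' hm (Nat.mul_pos ha hN) (fam a) _ s' _ (fun i => rfl),
    prodM_fam _ _ _ _ ha, prodM_syl_replicate _ _ ha]

/-! ## the constants -/

/-- the properties of the constants -/
structure Vc (a : ℕ) (v : ℝ) : Prop where
  one : a = 1 → v = 3 * lobachevsky (Real.pi/3)
  two : a = 2 → v = 4 * lobachevsky (Real.pi/4)
  pos : 0 < v
  bd : Bd a v
  lim : Tendsto (fun m : ℕ => (2*Real.pi/(2*(m:ℝ)-1)) * Real.log (sumH (Helper52.OC.ha a) 1 m)) atTop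
        (𝓝 v)

theorem exists_Vc {a : ℕ} (ha : 1 ≤ a) : ∃ v, Vc a v := by
  rcases eq_or_lt_of_le ha with h1 | h1
  · subst h1
    refine ⟨3 * lobachevsky (Real.pi/3), fun _ => rfl, fun h => absurd h (by norm_num), ?_, ?_, sumH_one_limit⟩
    · rw [lobachevsky_eq_lob]
      have := Pool.Agent.Helper5.TV.lob_third_pos
      positivity
    · rw [lobachevsky_eq_lob]; exact Bd_one
  · rcases eq_or_lt_of_le (show 2 ≤ a by omega) with h2 | h2
    · subst h2
      refine ⟨4 * lobachevsky (Real.pi/4), fun h => absurd h (by norm_num), fun _ => rfl, ?_, ?_, ?_⟩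
      · rw [lobachevsky_eq_lob]
        have := lob_quarter_pos
        positivity
      · rw [lobachevsky_eq_lob]; exact Bd_two
      · rw [lobachevsky_eq_lob]
        exact sumH_limit
    · obtain ⟨x, η, E, h⟩ := exists_sad (show 3 ≤ a by omega)
      refine ⟨pp a η x E, fun h => absurd h (by omega), fun h => absurd h (by omega), h.pp_pos, Bd_three h,
        h.sumH_limit (traceHyp a)⟩

theorem exists_V : ∃ V : ℕ → ℝ, ∀ a, 1 ≤ a → Vc a (V a) := by
  choose! V hV using fun (a : ℕ) (ha : 1 ≤ a) => exists_Vc ha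
  exact ⟨V, hV⟩

/-! ## the upper bound -/

variable {m : ℕ}

theorem QQ_bound {a : ℕ} {v : ℝ} (h : Bd a v) {ε : ℝ} (hε : 0 < ε) : ∀ᶠ m : ℕ in atTop, ∀ n : ℕ, n ≤ m →
    QQ a m n ≤ (2*(m:ℝ)+1)^2 * Real.exp ((2*(m:ℝ)+1)/(2*Real.pi) * (v + ε)) := by
  filter_upwards [h ε hε] with m hm n hn
  refine (QQ_le hn (hm n · · hn) (Real.exp_pos _).le).trans ?_
  have : (m:ℝ) ≤ 2*m+1 := by linarith [(Nat.cast_nonneg m : (0:ℝ) ≤ m)]
  gcongr

theorem list_bound {V : ℕ → ℝ} {l : List ℕ} (h : ∀ a ∈ l, Bd a (V a)) {ε : ℝ} (hε : 0 < ε) :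
    ∀ᶠ m : ℕ in atTop, ∀ n : ℕ, n ≤ m → (l.map fun a => QQ a m n).prod ≤
      (2*(m:ℝ)+1)^(2*l.length) * Real.exp ((2*(m:ℝ)+1)/(2*Real.pi) * ((l.map V).sum + l.length*ε)) := by
  induction l with
  | nil =>
    filter_upwards with m n hn
    simp
  | cons a l ih =>
    filter_upwards [ih (fun b hb => h b (by simp [hb])), QQ_bound (h a (by simp)) hε] with m h1 h2 n hn
    have g1 := h1 n hn
    have g2 := h2 n hn
    have q1 := QQ_nonneg a m n
    have q2 := prodQ_nonneg (m := m) (n := n) l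
    rw [List.map_cons, List.prod_cons]
    calc QQ a m n * (l.map fun a => QQ a m n).prod
        ≤ ((2*(m:ℝ)+1)^2 * Real.exp ((2*(m:ℝ)+1)/(2*Real.pi) * (V a + ε))) *
          ((2*(m:ℝ)+1)^(2*l.length) * Real.exp ((2*(m:ℝ)+1)/(2*Real.pi) * ((l.map V).sum + l.length*ε))) := by
          gcongr
      _ = ((2*(m:ℝ)+1)^2 * (2*(m:ℝ)+1)^(2*l.length)) * (Real.exp ((2*(m:ℝ)+1)/(2*Real.pi) * (V a + ε)) *
          Real.exp ((2*(m:ℝ)+1)/(2*Real.pi) * ((l.map V).sum + l.length*ε))) := by ring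
      _ = _ := by
          rw [← pow_add, ← Real.exp_add, List.length_cons, List.map_cons, List.sum_cons]
          congr 2
          · ring
          · push_cast; ring

theorem stateSum_bound {V : ℕ → ℝ} {l : List ℕ} (h : ∀ a ∈ l, Bd a (V a)) (hl : ∀ a ∈ l, 1 ≤ a)
    (hne : l ≠ []) {ε : ℝ} (hε : 0 < ε) : ∀ᶠ m : ℕ in atTop, ∀ s : Fin l.sum → Bool,
    ‖(sylBundle l hl hne s).stateSum (2*m+1)‖ ≤
      Real.exp ((2*(m:ℝ)+1)/(2*Real.pi) * ((l.map V).sum + ε)) := by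
  have hp := Real.pi_pos
  have hN : 0 < (l.length : ℝ) := by
    have := List.length_pos_of_ne_nil hne
    exact_mod_cast this
  have h1 := two_m_tendsto.eventually (poly_le_exp (2*l.length+3) 4 (show 0 < ε/(4*Real.pi) by positivity))
  filter_upwards [list_bound h (show 0 < ε/(2*l.length) by positivity), h1, eventually_ge_atTop 1] with
    m h2 h3 hm s
  push_cast at h3
  refine (stateSum_le hm l hl hne s).trans ?_
  set X := (2*(m:ℝ)+1)^(2*l.length) *
    Real.exp ((2*(m:ℝ)+1)/(2*Real.pi) * ((l.map V).sum + l.length*(ε/(2*l.length)))) with hX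
  have hX0 : 0 ≤ X := by positivity
  have hm1 : (m:ℝ) ≤ 2*m+1 := by linarith [(Nat.cast_nonneg m : (0:ℝ) ≤ m)]
  calc 4 * ∑ n ∈ Icc 1 m, (n:ℝ)^2 * (l.map fun a => QQ a m n).prod
      ≤ 4 * ∑ n ∈ Icc 1 m, (2*(m:ℝ)+1)^2 * X := by
        apply mul_le_mul_of_nonneg_left _ (by norm_num)
        apply sum_le_sum
        intro n hn
        rw [mem_Icc] at hn
        have g := h2 n hn.2
        have hn' : (n:ℝ) ≤ 2*m+1 := by
          have : n ≤ 2*m+1 := by omega
          exact_mod_cast this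
        have q2 := prodQ_nonneg (m := m) (n := n) l
        gcongr
    _ = 4 * ((m:ℝ) * ((2*(m:ℝ)+1)^2 * X)) := by
        rw [sum_const, Nat.card_Icc, Nat.add_sub_cancel, nsmul_eq_mul]
    _ ≤ 4 * ((2*(m:ℝ)+1) * ((2*(m:ℝ)+1)^2 * X)) := by gcongr
    _ = (4 * (2*(m:ℝ)+1)^(2*l.length+3)) *
        Real.exp ((2*(m:ℝ)+1)/(2*Real.pi) * ((l.map V).sum + l.length*(ε/(2*l.length)))) := by
        rw [hX]; ring
    _ ≤ Real.exp ((2*(m:ℝ)+1) * (ε/(4*Real.pi))) *
        Real.exp ((2*(m:ℝ)+1)/(2*Real.pi) * ((l.map V).sum + l.length*(ε/(2*l.length)))) := by gcongr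
    _ = _ := by
        rw [← Real.exp_add]
        congr 1
        field_simp
        ring

/-- **the upper bound** -/
theorem stateSum_bound' {V : ℕ → ℝ} {l : List ℕ} (h : ∀ a ∈ l, Bd a (V a)) (hl : ∀ a ∈ l, 1 ≤ a)
    (hne : l ≠ []) {ε : ℝ} (hε : 0 < ε) :
    ∀ᶠ r : ℕ in atTop ⊓ 𝓟 {r | Odd r}, ∀ s : Fin l.sum → Bool,
    ‖(sylBundle l hl hne s).stateSum r‖ ≤
      Real.exp (((r:ℝ)-2)/(2*Real.pi) * ((l.map V).sum + ε)) := by
  have hp := Real.pi_pos
  apply Pool.Agent.Helper52.OC.odd_filter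
  set S := (l.map V).sum with hS
  have h2 : ∀ᶠ m : ℕ in atTop, (2*(S+ε))/ε ≤ (m:ℝ) :=
    (tendsto_natCast_atTop_atTop).eventually_ge_atTop _
  filter_upwards [stateSum_bound h hl hne (show 0 < ε/2 by positivity), h2] with m h1 h2 s
  refine (h1 s).trans (Real.exp_le_exp.mpr ?_)
  rw [← hS]
  rw [div_le_iff₀ hε] at h2
  push_cast
  have e : (2*(m:ℝ)+1-2)/(2*Real.pi) * (S + ε) - (2*(m:ℝ)+1)/(2*Real.pi) * (S + ε/2)
      = ((2*(m:ℝ)+1)*ε/2 - 2*(S+ε))/(2*Real.pi) := by field_simp; ring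
  have : 0 ≤ ((2*(m:ℝ)+1)*ε/2 - 2*(S+ε))/(2*Real.pi) := by
    apply div_nonneg _ (by positivity)
    nlinarith
  linarith

/-! ## the constants are at most `8 Λ(π/4)` -/

theorem Vc.limit {a : ℕ} {v : ℝ} (h : Vc a v) (ha : 1 ≤ a) (N : ℕ) (hN : 1 ≤ N) (s : Fin (a*N) → Bool) :
    (∀ r : ℕ, Odd r → 3 ≤ r → ((famBundle a N ha hN s).stateSum r).im = 0) ∧
    (∀ᶠ r : ℕ in atTop ⊓ 𝓟 {r | Odd r}, 0 < ((famBundle a N ha hN s).stateSum r).re) ∧
    Tendsto (fun r : ℕ => 2 * Real.pi / ((r:ℝ) - 2) *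
      Real.log ((famBundle a N ha hN s).stateSum r).re) (atTop ⊓ 𝓟 {r | Odd r}) (𝓝 (N*v)) :=
  fam_main a N ha hN s (fun hc => (specOk_ha a).growth h.pos h.lim hN hc)

theorem Vc.exists_H {a : ℕ} {v : ℝ} (h : Vc a v) (ha : 1 ≤ a) (N : ℕ) (hN : 1 ≤ N)
    (s : Fin (a*N) → Bool) : ∃ H : IdealStructure (famBundle a N ha hN s), H.volume = N * v := by
  obtain ⟨H, V, hV, hvol, h1, h2, hlim⟩ := exists_structure a N ha hN s
  refine ⟨H, ?_⟩
  rw [hvol, tendsto_nhds_unique hlim h.lim]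

/-- the limit for the constant lists -/
theorem Vc.limit_rep {a : ℕ} {v : ℝ} (h : Vc a v) (ha : 1 ≤ a) (N : ℕ) (hN : 1 ≤ N)
    (hl : ∀ b ∈ List.replicate N a, 1 ≤ b) (hne : List.replicate N a ≠ [])
    (s : Fin (List.replicate N a).sum → Bool) :
    (∀ᶠ r : ℕ in atTop ⊓ 𝓟 {r | Odd r}, 0 < ‖(sylBundle (List.replicate N a) hl hne s).stateSum r‖) ∧
    Tendsto (fun r : ℕ => 2 * Real.pi / ((r:ℝ) - 2) *
      Real.log ‖(sylBundle (List.replicate N a) hl hne s).stateSum r‖) (atTop ⊓ 𝓟 {r | Odd r})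
      (𝓝 (N*v)) := by
  obtain ⟨h1, h2, h3⟩ := h.limit ha N hN (fun _ => false)
  have key : ∀ᶠ r : ℕ in atTop ⊓ 𝓟 {r | Odd r}, ‖(sylBundle (List.replicate N a) hl hne s).stateSum r‖
      = |((famBundle a N ha hN (fun _ => false)).stateSum r).re| := by
    apply Pool.Agent.Helper52.OC.odd_filter
    filter_upwards [eventually_ge_atTop 1] with m hm
    rw [stateSum_rep hm a N ha hN hl hne s (fun _ => false)]
    have h0 := h1 (2*m+1) ⟨m, rfl⟩ (by omega)
    rw [Complex.abs_re_eq_norm.mpr h0]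
  refine ⟨?_, ?_⟩
  · filter_upwards [key, h2] with r k1 k2
    rw [k1]; exact abs_pos.mpr k2.ne'
  · refine h3.congr' ?_
    filter_upwards [key] with r k1
    rw [k1, Real.log_abs]

theorem odd_neBot : (atTop ⊓ 𝓟 {r : ℕ | Odd r}).NeBot := by
  rw [← Filter.frequently_mem_iff_neBot]
  rw [Filter.frequently_atTop]
  intro a
  exact ⟨2*a+1, by omega, ⟨a, rfl⟩⟩

theorem Vc.le {a : ℕ} {v : ℝ} (h : Vc a v) (ha : 1 ≤ a) : v ≤ 8 * lobachevsky (Real.pi/4) := by
  have hp := Real.pi_pos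
  rw [lobachevsky_eq_lob]
  have := odd_neBot
  apply le_of_forall_pos_le_add
  intro ε hε
  have hl := rep_pos ha 1
  have hne : List.replicate 1 a ≠ [] := by simp
  obtain ⟨h1, h2⟩ := h.limit_rep ha 1 le_rfl hl hne (fun _ => false)
  rw [Nat.cast_one, one_mul] at h2
  have h3 := stateSum_bound' (V := fun _ => 8*lob (Real.pi/4)) (l := List.replicate 1 a)
    (fun b _ => Bd_crude b) hl hne hε
  apply le_of_tendsto h2
  have h4 : ∀ᶠ r : ℕ in atTop ⊓ 𝓟 {r | Odd r}, 3 ≤ r :=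
    (eventually_ge_atTop 3).filter_mono inf_le_left
  filter_upwards [h1, h3, h4] with r h1 h3 h4
  have h5 := h3 (fun _ => false)
  have h7 := (Real.log_le_iff_le_exp h1).mpr h5
  have hr : 0 < (r:ℝ) - 2 := by
    have : (3:ℝ) ≤ r := by exact_mod_cast h4
    linarith
  calc 2 * Real.pi / ((r:ℝ) - 2) * Real.log _
      ≤ 2 * Real.pi / ((r:ℝ) - 2) * (((r:ℝ)-2)/(2*Real.pi) *
        (((List.replicate 1 a).map (fun _ => 8*lob (Real.pi/4))).sum + ε)) :=
        mul_le_mul_of_nonneg_left h7 (by positivity)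
    _ = 8*lob (Real.pi/4) + ε := by
        simp only [List.replicate_one, List.map_cons, List.map_nil, List.sum_cons, List.sum_nil]
        field_simp
        ring

end Pool.Agent.Helper50.SB
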