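import Pool.Agent.Helper50.SB.Lin
import Pool.Agent.Helper46.OC.TraceW
import Pool.Agent.Helper52.OC.Fam

/-! # Compositions of the monodromies of the syllables -/

namespace VC

open Finset Module

section general

variable {J : Type} [Fintype J] [DecidableEq J] {ν : J → Type} [∀ j, Fintype (ν j)]
  [∀ j, DecidableEq (ν j)]

/-- composition over a list, the head is applied first -/
noncomputable def PsiL (ψ : ℕ → Fin 2 × Fin 2 → Fin 2 × Fin 2)
    (p p' : ℕ → (j : J) → Matrix (ν j) (ν j) ℂ) : List ℕ → (MM4 ν →ₗ[ℂ] MM4 ν)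
  | [] => LinearMap.id
  | a :: l => PsiL ψ p p' l ∘ₗ PsiG (ψ a) (p a) (p' a)

/-- the left factor -/
noncomputable def LA' (p p' : ℕ → (j : J) → Matrix (ν j) (ν j) ℂ) (j : J) : List ℕ → Matrix (ν j) (ν j) ℂ
  | [] => 1
  | a :: l => LA' p p' j l * (if Even l.length then p a j else (p' a j).transpose)

/-- the transpose of the right factor -/
noncomputable def LB' (p p' : ℕ → (j : J) → Matrix (ν j) (ν j) ℂ) (j : J) : List ℕ → Matrix (ν j) (ν j) ℂ
  | [] => 1
  | a :: l => LB' p p' j l * (if Even l.length then (p' a j).transpose else p a j)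

/-- the action on the signs -/
def psiL (ψ : ℕ → Fin 2 × Fin 2 → Fin 2 × Fin 2) : List ℕ → Fin 2 × Fin 2 → Fin 2 × Fin 2
  | [], s => s
  | a :: l, s => ψ a (psiL ψ l s)

omit [Fintype J] [DecidableEq J] in
theorem PsiL_apply (ψ : ℕ → Fin 2 × Fin 2 → Fin 2 × Fin 2)
    (p p' : ℕ → (j : J) → Matrix (ν j) (ν j) ℂ) (l : List ℕ) (X : MM4 ν) (j : J)
    (s : Fin 2 × Fin 2) : PsiL ψ p p' l X j s =
      if Even l.length then LA' p p' j l * X j (psiL ψ l s) * (LB' p p' j l).transpose
      else LA' p p' j l * (X j (psiL ψ l s)).transpose * (LB' p p' j l).transpose := by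
  induction l generalizing X with
  | nil =>
    simp [PsiL, LA', LB', psiL]
  | cons a l ih =>
    have e : PsiL ψ p p' (a :: l) X = PsiL ψ p p' l (PsiG (ψ a) (p a) (p' a) X) := rfl
    rw [e, ih, PsiG_apply, List.length_cons]
    by_cases h : Even l.length
    · have h' : ¬ Even (l.length + 1) := by
        rw [Nat.even_add_one, not_not]; exact h
      rw [if_pos h, if_neg h', LA', LB', if_pos h, if_pos h, psiL]
      simp only [Matrix.transpose_mul, Matrix.transpose_transpose, Matrix.mul_assoc]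
    · have h' : Even (l.length + 1) := by
        rw [Nat.even_add_one]; exact h
      rw [if_neg h, if_pos h', LA', LB', if_neg h, if_neg h, psiL]
      simp only [Matrix.transpose_mul, Matrix.transpose_transpose, Matrix.mul_assoc]

/-- the trace of the composition -/
theorem trace_PsiL (ψ : ℕ → Fin 2 × Fin 2 → Fin 2 × Fin 2)
    (p p' : ℕ → (j : J) → Matrix (ν j) (ν j) ℂ) (l : List ℕ) :
    LinearMap.trace ℂ (MM4 ν) (PsiL ψ p p' l) =
      (∑ s : Fin 2 × Fin 2, if psiL ψ l s = s then (1 : ℂ) else 0) * ∑ j, (if Even l.length then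
          Matrix.trace (LA' p p' j l) * Matrix.trace (LB' p p' j l)
        else Matrix.trace (LA' p p' j l * LB' p p' j l)) := by
  rw [trace_MM4, Finset.mul_sum]
  refine Finset.sum_congr rfl fun j _ => ?_
  rw [Finset.sum_mul]
  refine Finset.sum_congr rfl fun s _ => ?_
  by_cases h : Even l.length
  · rw [if_pos h]
    have h0 : ∀ a b : ν j, (PsiL ψ p p' l)
        (Pi.single j (Pi.single s (Matrix.single a b (1 : ℂ)))) j s a b =
        if psiL ψ l s = s then (LA' p p' j l * Matrix.single a b (1 : ℂ) *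
          (LB' p p' j l).transpose : Matrix (ν j) (ν j) ℂ) a b else 0 := by
      intro a b
      rw [PsiL_apply, if_pos h, single_entry]
      split_ifs
      · rfl
      · simp
    simp_rw [h0]
    by_cases hs : psiL ψ l s = s
    · simp only [if_pos hs, one_mul]
      rw [← Matrix.trace_transpose (LB' p p' j l)]
      exact sum_conj _ _
    · simp only [if_neg hs, zero_mul, Finset.sum_const_zero]
  · rw [if_neg h]
    have h0 : ∀ a b : ν j, (PsiL ψ p p' l)
        (Pi.single j (Pi.single s (Matrix.single a b (1 : ℂ)))) j s a b =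
        if psiL ψ l s = s then (LA' p p' j l * (Matrix.single a b (1 : ℂ)).transpose *
          (LB' p p' j l).transpose : Matrix (ν j) (ν j) ℂ) a b else 0 := by
      intro a b
      rw [PsiL_apply, if_neg h, single_entry]
      split_ifs
      · rfl
      · simp
    simp_rw [h0]
    by_cases hs : psiL ψ l s = s
    · simp only [if_pos hs, one_mul]
      refine (sum_conj_transpose _ _).trans ?_
      rw [Matrix.transpose_transpose]
    · simp only [if_neg hs, zero_mul, Finset.sum_const_zero]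

theorem norm_fix_le (ψ : Fin 2 × Fin 2 → Fin 2 × Fin 2) :
    ‖∑ s : Fin 2 × Fin 2, if ψ s = s then (1 : ℂ) else 0‖ ≤ 4 := by
  refine (norm_sum_le _ _).trans ?_
  have : ∀ s ∈ (univ : Finset (Fin 2 × Fin 2)), ‖(if ψ s = s then (1 : ℂ) else 0)‖ ≤ 1 := by
    intro s _
    split_ifs <;> simp
  refine (sum_le_sum this).trans ?_
  simp

end general

end VC

namespace Pool.Agent.Helper50.SB
open Finset Matrix Pool.Agent.Helper5.Cov Pool.Agent.Helper52.OC VC

variable {m n : ℕ}

/-- the swapped power of the twist -/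
noncomputable def UU (a m n : ℕ) : Matrix (Fin n) (Fin n) ℂ :=
  ((rho m n ^ 2 : ℝ) : ℂ)⁻¹ • (Cm m n * Tm' m n ^ a * Cm m n)

/-- alternating products -/
noncomputable def RA (m n : ℕ) : List ℕ → Matrix (Fin n) (Fin n) ℂ
  | [] => 1
  | a :: l => RA m n l * (if Even l.length then UU a m n else Tm m n ^ a)

noncomputable def RB (m n : ℕ) : List ℕ → Matrix (Fin n) (Fin n) ℂ
  | [] => 1
  | a :: l => RB m n l * (if Even l.length then Tm m n ^ a else UU a m n)

/-- the divided differences of the `a`-th power of the twist -/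
noncomputable def Da (a m n : ℕ) : ℕ → ℕ → ℂ := Dw m n (fun k => (AA m ^ ((k:ℤ)*(k+1)))^a)

noncomputable def QQ (a m n : ℕ) : ℝ := Qd m n (Da a m n)

theorem QQ_nonneg (a m n : ℕ) : 0 ≤ QQ a m n := Qd_nonneg _

theorem Em_Ta (h : Ok m n) (a : ℕ) : Em m n * Tm m n ^ a = Dm n (Da a m n) * Em m n := by
  have e : Tm m n ^ a = diagonal (fun x : Fin n => (fun k : ℕ => (AA m ^ ((k:ℤ)*(k+1)))^a) x) := by
    unfold Tm
    rw [diagonal_pow]
    rfl
  rw [e]
  exact Em_diag_Dw h (fun k : ℕ => (AA m ^ ((k:ℤ)*(k+1)))^a)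

theorem Em_Ta' (h : Ok m n) (a : ℕ) :
    Em m n * Tm' m n ^ a = (Dm n (Da a m n)).map (starRingEnd ℂ) * Em m n := by
  rw [← Tma_conj]
  have h1 := congrArg (fun M : Matrix (Fin n) (Fin n) ℂ => M.map (starRingEnd ℂ)) (Em_Ta h a)
  simp only [Matrix.map_mul, Em_conj] at h1
  exact h1

theorem Fk_T (h : Ok m n) (a : ℕ) : Fk m n (Tm m n ^ a) = QQ a m n := Fk_tri h (Em_Ta h a)

theorem Fk_U (h : Ok m n) (a : ℕ) : Fk m n (UU a m n) = QQ a m n := Fk_swap h (Em_Ta' h a)

theorem Fk_RA (h : Ok m n) (l : List ℕ) : Fk m n (RA m n l) ≤ n * (l.map fun a => QQ a m n).prod := by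
  induction l with
  | nil => rw [RA, Fk_one h]; simp
  | cons a l ih =>
    rw [RA, List.map_cons, List.prod_cons]
    refine (Fk_mul h _ _).trans ?_
    have e : Fk m n (if Even l.length then UU a m n else Tm m n ^ a) = QQ a m n := by
      split_ifs
      · exact Fk_U h a
      · exact Fk_T h a
    rw [e]
    calc Fk m n (RA m n l) * QQ a m n ≤ (n * (l.map fun a => QQ a m n).prod) * QQ a m n :=
          mul_le_mul_of_nonneg_right ih (QQ_nonneg _ _ _)
      _ = _ := by ring

theorem Fk_RB (h : Ok m n) (l : List ℕ) : Fk m n (RB m n l) ≤ n * (l.map fun a => QQ a m n).prod := by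
  induction l with
  | nil => rw [RB, Fk_one h]; simp
  | cons a l ih =>
    rw [RB, List.map_cons, List.prod_cons]
    refine (Fk_mul h _ _).trans ?_
    have e : Fk m n (if Even l.length then Tm m n ^ a else UU a m n) = QQ a m n := by
      split_ifs
      · exact Fk_T h a
      · exact Fk_U h a
    rw [e]
    calc Fk m n (RB m n l) * QQ a m n ≤ (n * (l.map fun a => QQ a m n).prod) * QQ a m n :=
          mul_le_mul_of_nonneg_right ih (QQ_nonneg _ _ _)
      _ = _ := by ring

theorem prodQ_nonneg (l : List ℕ) : 0 ≤ (l.map fun a => QQ a m n).prod := by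
  apply List.prod_nonneg
  intro x hx
  rw [List.mem_map] at hx
  obtain ⟨a, _, rfl⟩ := hx
  exact QQ_nonneg _ _ _

/-- the bound for one block -/
theorem block_bound (h : Ok m n) (l : List ℕ) :
    ‖(if Even l.length then (RA m n l).trace * (RB m n l).trace else (RA m n l * RB m n l).trace)‖
      ≤ n^2 * (l.map fun a => QQ a m n).prod := by
  have hn : (1:ℝ) ≤ n := by exact_mod_cast h.1
  set P := (l.map fun a => QQ a m n).prod with hP
  have hP0 : 0 ≤ P := prodQ_nonneg l
  have h1 := Fk_RA h l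
  have h2 := Fk_RB h l
  rw [← hP] at h1 h2
  split_ifs with he
  · rw [norm_mul]
    have a1 : ‖(RA m n l).trace‖^2 ≤ n^2 * P := by
      refine (trace_sq_le_Fk h _).trans ?_
      calc n * Fk m n (RA m n l) ≤ n * (n * P) := by gcongr
        _ = _ := by ring
    have a2 : ‖(RB m n l).trace‖^2 ≤ n^2 * P := by
      refine (trace_sq_le_Fk h _).trans ?_
      calc n * Fk m n (RB m n l) ≤ n * (n * P) := by gcongr
        _ = _ := by ring
    nlinarith [sq_nonneg (‖(RA m n l).trace‖ - ‖(RB m n l).trace‖)]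
  · have a1 : ‖(RA m n l * RB m n l).trace‖^2 ≤ (n^2 * P)^2 := by
      refine (trace_sq_le_Fk h _).trans ?_
      calc n * Fk m n (RA m n l * RB m n l) ≤ n * (Fk m n (RA m n l) * Fk m n (RB m n l)) := by
            have := Fk_mul h (RA m n l) (RB m n l)
            gcongr
        _ ≤ n * ((n*P) * (n*P)) := by
            have := Fk_nonneg (m := m) (n := n) (RA m n l)
            have := Fk_nonneg (m := m) (n := n) (RB m n l)
            gcongr
        _ = n^3 * P^2 * 1 := by ring
        _ ≤ n^3 * P^2 * n := by gcongr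
        _ = _ := by ring
    exact abs_le_of_sq_le_sq' a1 (by positivity) |>.2

/-! ## the factors of the blocks -/

theorem UU_C (h : Ok m n) (a : ℕ) : UU a m n * Cm m n = Cm m n * Tm' m n ^ a := by
  unfold UU
  calc ((rho m n ^ 2 : ℝ) : ℂ)⁻¹ • (Cm m n * Tm' m n ^ a * Cm m n) * Cm m n
      = Cm m n * Tm' m n ^ a * ((((rho m n ^ 2 : ℝ) : ℂ)⁻¹ • Cm m n) * Cm m n) := by
        rw [Matrix.smul_mul, Matrix.smul_mul, Matrix.mul_smul]; simp only [mul_assoc]
    _ = _ := by rw [h.Cm_inv', mul_one]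

/-- the intertwiner of the transpositions -/
noncomputable def S0 (m n : ℕ) : Matrix (Fin n) (Fin n) ℂ :=
  Jm m n * (((rho m n ^ 2 : ℝ) : ℂ)⁻¹ • Cm m n)

theorem S0_mul (h : Ok m n) : Cm m n * Jm' m n * S0 m n = 1 := by
  unfold S0
  calc Cm m n * Jm' m n * (Jm m n * (((rho m n ^ 2 : ℝ) : ℂ)⁻¹ • Cm m n))
      = Cm m n * (Jm' m n * Jm m n) * (((rho m n ^ 2 : ℝ) : ℂ)⁻¹ • Cm m n) := by simp only [mul_assoc]
    _ = 1 := by rw [h.Jm_mul', mul_one, h.Cm_inv]

theorem S0_mul' (h : Ok m n) : S0 m n * (Cm m n * Jm' m n) = 1 := by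
  unfold S0
  calc Jm m n * (((rho m n ^ 2 : ℝ) : ℂ)⁻¹ • Cm m n) * (Cm m n * Jm' m n)
      = Jm m n * ((((rho m n ^ 2 : ℝ) : ℂ)⁻¹ • Cm m n) * Cm m n) * Jm' m n := by simp only [mul_assoc]
    _ = 1 := by rw [h.Cm_inv', mul_one, h.Jm_mul]

theorem Ga_eq (h : Ok m n) (a : ℕ) : Ga a m n = UU a m n * (Cm m n * Jm' m n) := by
  rw [← mul_assoc, UU_C h]; rfl

theorem Ga'T_eq (h : Ok m n) (a : ℕ) : (Ga' a m n)ᵀ = S0 m n * Tm m n ^ a := by
  have e2 : (Jm m n)ᵀ = Jm m n := by unfold Jm; rw [diagonal_transpose]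
  unfold Ga' S0
  rw [transpose_mul, transpose_mul, transpose_smul, Tma_transpose, e2, Tma_Jm, Matrix.smul_mul,
      ← mul_assoc, h.Cm_transpose, Matrix.mul_smul, Matrix.smul_mul]

theorem LA_eq (l : List ℕ) (j : JJ m) : LA' (fun a => pa a m) (fun a => pa' a m) j l
    = if Even l.length then RA m (m - (j:ℕ)) l
      else RA m (m - (j:ℕ)) l * (Cm m (m - (j:ℕ)) * Jm' m (m - (j:ℕ))) := by
  have h := JJ_ok j
  induction l with
  | nil => simp [LA', RA]
  | cons a l ih =>
    rw [LA', RA, ih, List.length_cons]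
    by_cases he : Even l.length
    · have he' : ¬ Even (l.length + 1) := by rw [Nat.even_add_one, not_not]; exact he
      simp only [if_pos he, if_neg he']
      rw [show pa a m j = Ga a m (m - (j:ℕ)) from rfl, Ga_eq h]
      simp only [mul_assoc]
    · have he' : Even (l.length + 1) := by rw [Nat.even_add_one]; exact he
      simp only [if_neg he, if_pos he']
      rw [show pa' a m j = Ga' a m (m - (j:ℕ)) from rfl, Ga'T_eq h]
      calc RA m (m - (j:ℕ)) l * (Cm m (m - (j:ℕ)) * Jm' m (m - (j:ℕ))) *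
            (S0 m (m - (j:ℕ)) * Tm m (m - (j:ℕ)) ^ a)
          = RA m (m - (j:ℕ)) l * (Cm m (m - (j:ℕ)) * Jm' m (m - (j:ℕ)) * S0 m (m - (j:ℕ)))
            * Tm m (m - (j:ℕ)) ^ a := by simp only [mul_assoc]
        _ = _ := by rw [S0_mul h, mul_one]

theorem LB_eq (l : List ℕ) (j : JJ m) : LB' (fun a => pa a m) (fun a => pa' a m) j l
    = if Even l.length then S0 m (m - (j:ℕ)) * RB m (m - (j:ℕ)) l * (Cm m (m - (j:ℕ)) * Jm' m (m - (j:ℕ)))
      else S0 m (m - (j:ℕ)) * RB m (m - (j:ℕ)) l := by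
  have h := JJ_ok j
  induction l with
  | nil => simp [LB', RB, S0_mul' h]
  | cons a l ih =>
    rw [LB', RB, ih, List.length_cons]
    by_cases he : Even l.length
    · have he' : ¬ Even (l.length + 1) := by rw [Nat.even_add_one, not_not]; exact he
      simp only [if_pos he, if_neg he']
      rw [show pa' a m j = Ga' a m (m - (j:ℕ)) from rfl, Ga'T_eq h]
      calc S0 m (m - (j:ℕ)) * RB m (m - (j:ℕ)) l * (Cm m (m - (j:ℕ)) * Jm' m (m - (j:ℕ))) *
            (S0 m (m - (j:ℕ)) * Tm m (m - (j:ℕ)) ^ a)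
          = S0 m (m - (j:ℕ)) * RB m (m - (j:ℕ)) l * (Cm m (m - (j:ℕ)) * Jm' m (m - (j:ℕ)) * S0 m (m - (j:ℕ)))
            * Tm m (m - (j:ℕ)) ^ a := by simp only [mul_assoc]
        _ = _ := by rw [S0_mul h, mul_one]; simp only [mul_assoc]
    · have he' : Even (l.length + 1) := by rw [Nat.even_add_one]; exact he
      simp only [if_neg he, if_pos he']
      rw [show pa a m j = Ga a m (m - (j:ℕ)) from rfl, Ga_eq h]
      simp only [mul_assoc]

theorem block_eq (l : List ℕ) (j : JJ m) :
    (if Even l.length then (LA' (fun a => pa a m) (fun a => pa' a m) j l).trace *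
        (LB' (fun a => pa a m) (fun a => pa' a m) j l).trace
      else (LA' (fun a => pa a m) (fun a => pa' a m) j l * LB' (fun a => pa a m) (fun a => pa' a m) j l).trace)
    = (if Even l.length then (RA m (m - (j:ℕ)) l).trace * (RB m (m - (j:ℕ)) l).trace
      else (RA m (m - (j:ℕ)) l * RB m (m - (j:ℕ)) l).trace) := by
  have h := JJ_ok j
  rw [LA_eq, LB_eq]
  by_cases he : Even l.length
  · simp only [if_pos he]
    congr 1
    rw [Matrix.trace_mul_comm, ← mul_assoc, S0_mul h, one_mul]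
  · simp only [if_neg he]
    congr 1
    calc RA m (m - (j:ℕ)) l * (Cm m (m - (j:ℕ)) * Jm' m (m - (j:ℕ))) *
          (S0 m (m - (j:ℕ)) * RB m (m - (j:ℕ)) l)
        = RA m (m - (j:ℕ)) l * (Cm m (m - (j:ℕ)) * Jm' m (m - (j:ℕ)) * S0 m (m - (j:ℕ)))
          * RB m (m - (j:ℕ)) l := by simp only [mul_assoc]
      _ = _ := by rw [S0_mul h, mul_one]

/-! ## the operators of the syllables -/

/-- the composition over the syllables -/
noncomputable def PhiL (m : ℕ) : List ℕ → Module.End ℂ (VT (2*m+1))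
  | [] => 1
  | a :: l => PhiL m l * PhiA a (AA m) (2*m+1)

theorem ThD.phiL {h : Gd (AA m) (2 * m + 1)} {Θ : MM4 (nu m) ≃ₗ[ℂ] VT (2 * m + 1)} (hm : 1 ≤ m)
    (d : ThD h Θ) (l : List ℕ) (Y : MM4 (nu m)) :
    Θ (PsiL psiA (fun a => pa a m) (fun a => pa' a m) l Y) = PhiL m l (Θ Y) := by
  induction l generalizing Y with
  | nil => rfl
  | cons a l ih =>
    show Θ (PsiL psiA (fun a => pa a m) (fun a => pa' a m) l (PsiG (psiA a) (pa a m) (pa' a m) Y)) = _
    rw [ih, d.phiA hm a]
    rfl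

/-- **the trace formula for a list of syllables** -/
theorem trace_PhiL (hm : 1 ≤ m) (l : List ℕ) :
    LinearMap.trace ℂ (VT (2 * m + 1)) (PhiL m l) =
      (∑ s : Fin 2 × Fin 2, if psiL psiA l s = s then (1 : ℂ) else 0) * ∑ n ∈ Icc 1 m,
        (if Even l.length then (RA m n l).trace * (RB m n l).trace
          else (RA m n l * RB m n l).trace) := by
  obtain ⟨Θ, d⟩ := exists_ThD hm (Gd_AA hm)
  have e3 : PhiL m l = Θ.conj (PsiL psiA (fun a => pa a m) (fun a => pa' a m) l) := by
    refine LinearMap.ext fun v => ?_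
    obtain ⟨Y, rfl⟩ := Θ.surjective v
    rw [LinearEquiv.conj_apply_apply, LinearEquiv.symm_apply_apply, ThD.phiL hm d]
  rw [e3, LinearMap.trace_conj', trace_PsiL]
  congr 1
  set F : ℕ → ℂ := fun n => (if Even l.length then (RA m n l).trace * (RB m n l).trace
          else (RA m n l * RB m n l).trace) with hF
  rw [sum_congr rfl fun j _ => block_eq l j]
  rw [Fin.sum_univ_eq_sum_range (fun j => F (m - j)) ((2 * m + 1 - 1) / 2)]
  symm
  refine sum_bij (fun n _ => m - n) ?_ ?_ ?_ ?_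
  · intro n hn; rw [mem_Icc] at hn; rw [mem_range]; omega
  · intro a ha b hb hab; rw [mem_Icc] at ha hb; omega
  · intro j hj
    rw [mem_range] at hj
    exact ⟨m - j, by rw [mem_Icc]; omega, by omega⟩
  · intro n hn
    rw [mem_Icc] at hn
    have : n = m - (m - n) := by omega
    exact congrArg F this

/-! ## words -/

/-- the letters of the word with the syllables of a list: `false` at the beginning of a syllable -/
def syl : List ℕ → ℕ → Bool
  | [], _ => true
  | a :: l, i => if i < a then decide (0 < i) else syl l (i - a)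

theorem prodM_syl (A : ℂ) (r : ℕ) {a : ℕ} (ha : 1 ≤ a) (l : List ℕ) :
    prodM (fun i => LM A r (syl (a :: l) i)) (a + l.sum)
      = prodM (fun i => LM A r (syl l i)) l.sum * ((PhiM A r * PiM r)^(a-1) * PhiM A r) := by
  rw [Nat.add_comm, prodM_add]
  congr 1
  · congr 1
    funext i
    congr 1
    rw [syl, if_neg (by omega), Nat.add_sub_cancel]
  · have h1 := prodM_fam_lt A r a (a-1) (by omega)
    rw [Nat.sub_add_cancel ha] at h1
    rw [← h1]
    have key : ∀ j, j ≤ a → prodM (fun i => LM A r (syl (a :: l) i)) j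
        = prodM (fun i => LM A r (fam a i)) j := by
      intro j
      induction j with
      | zero => intro _; rfl
      | succ j ih =>
        intro hj
        rw [prodM, prodM, ih (by omega)]
        congr 2
        rw [syl, if_pos (by omega)]
        rcases Nat.eq_zero_or_pos j with h0 | h0
        · subst h0; rw [fam_zero]; rfl
        · rw [fam_lt h0 (by omega)]
          exact decide_eq_true h0
    exact key a le_rfl

/-- the operator of a list of syllables on `VV r` -/
noncomputable def PhiVL (m : ℕ) : List ℕ → Module.End ℂ (VV (2*m+1))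
  | [] => 1
  | a :: l => PhiVL m l * ((PhiV (AA m) (2*m+1) * PiW (2*m+1))^(a-1) * PhiV (AA m) (2*m+1))

theorem toMatrix_PhiVL (hm : 1 ≤ m) (l : List ℕ) (hl : ∀ a ∈ l, 1 ≤ a) :
    LinearMap.toMatrixAlgEquiv (bV (2*m+1) (by omega)) (PhiVL m l)
      = prodM (fun i => LM (AA m) (2*m+1) (syl l i)) l.sum := by
  induction l with
  | nil => rw [PhiVL, map_one]; rfl
  | cons a l ih =>
    have ha := hl a (by simp)
    rw [PhiVL, List.sum_cons, prodM_syl _ _ ha, map_mul, ih (fun b hb => hl b (by simp [hb])), map_mul,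
      map_pow, map_mul]
    have e1 : LinearMap.toMatrixAlgEquiv (bV (2*m+1) (by omega)) (PhiV (AA m) (2*m+1))
      = PhiM (AA m) (2*m+1) := toMatrix_PhiV (AA m) (by omega)
    have e2 : LinearMap.toMatrixAlgEquiv (bV (2*m+1) (by omega)) (PiW (2*m+1)) = PiM (2*m+1) :=
      toMatrix_PiW (by omega)
    rw [e1, e2]

theorem Itw_PhiVL (l : List ℕ) (hl : ∀ a ∈ l, 1 ≤ a) : Itw (PhiVL m l) (PhiL m l) := by
  induction l with
  | nil => exact Itw.one
  | cons a l ih =>
    have ha := hl a (by simp)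
    rw [PhiVL, PhiL]
    refine (ih (fun b hb => hl b (by simp [hb]))).mul ?_
    obtain ⟨j, rfl⟩ : ∃ j, a = j+1 := ⟨a-1, by omega⟩
    rw [PhiA_succ', Nat.add_sub_cancel]
    exact (((Itw_Phi _ _).mul (Itw_Pi _)).pow j).mul (Itw_Phi _ _)

theorem syl_zero {l : List ℕ} (hl : ∀ a ∈ l, 1 ≤ a) (hne : l ≠ []) : syl l 0 = false := by
  cases l with
  | nil => exact absurd rfl hne
  | cons a l =>
    have := hl a (by simp)
    rw [syl, if_pos (by omega)]
    rfl

theorem sum_pos {l : List ℕ} (hl : ∀ a ∈ l, 1 ≤ a) (hne : l ≠ []) : 1 ≤ l.sum := by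
  cases l with
  | nil => exact absurd rfl hne
  | cons a l =>
    have := hl a (by simp)
    rw [List.sum_cons]
    omega

theorem syl_exists {l : List ℕ} (hl : ∀ a ∈ l, 1 ≤ a) (hne : l ≠ []) :
    ∃ i : Fin l.sum, syl l i.val = false := ⟨⟨0, sum_pos hl hne⟩, syl_zero hl hne⟩

/-- The layered ideal triangulation by `l.sum` tetrahedra of the mapping torus of
`(-1)^σ ∏ [[a, 1], [1, 0]]` over the elements `a` of the list `l`. -/
def sylBundle (l : List ℕ) (hl : ∀ a ∈ l, 1 ≤ a) (hne : l ≠ []) (s : Fin l.sum → Bool) :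
    Pool.Agent.Helper5.TV.IdealTri :=
  word l.sum (fun i => syl l i.val) s (syl_exists hl hne)

/-- **the state sum** -/
theorem stateSum_syl (hm : 1 ≤ m) (l : List ℕ) (hl : ∀ a ∈ l, 1 ≤ a) (hne : l ≠ [])
    (s : Fin l.sum → Bool) :
    (sylBundle l hl hne s).stateSum (2*m+1)
      = (∑ s : Fin 2 × Fin 2, if psiL psiA l s = s then (1 : ℂ) else 0) * ∑ n ∈ Icc 1 m,
        (if Even l.length then (RA m n l).trace * (RB m n l).trace
          else (RA m n l * RB m n l).trace) := by
  unfold sylBundle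
  rw [stateSum_word_trace' hm (sum_pos hl hne) (syl l) _ s _ (fun i => rfl), ← toMatrix_PhiVL hm l hl,
    ← trace_PhiL hm, ← (Itw_PhiVL l hl).trace, LinearMap.trace_eq_matrix_trace ℂ (bV (2*m+1) (by omega))]
  rfl

/-- **the upper bound** -/
theorem stateSum_le (hm : 1 ≤ m) (l : List ℕ) (hl : ∀ a ∈ l, 1 ≤ a) (hne : l ≠ [])
    (s : Fin l.sum → Bool) :
    ‖(sylBundle l hl hne s).stateSum (2*m+1)‖
      ≤ 4 * ∑ n ∈ Icc 1 m, (n:ℝ)^2 * (l.map fun a => QQ a m n).prod := by
  rw [stateSum_syl hm, norm_mul]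
  have h1 := norm_fix_le (psiL psiA l)
  have h2 : ‖∑ n ∈ Icc 1 m, (if Even l.length then (RA m n l).trace * (RB m n l).trace
          else (RA m n l * RB m n l).trace)‖ ≤ ∑ n ∈ Icc 1 m, (n:ℝ)^2 * (l.map fun a => QQ a m n).prod := by
    refine (norm_sum_le _ _).trans (sum_le_sum fun n hn => ?_)
    rw [mem_Icc] at hn
    exact block_bound ⟨hn.1, hn.2⟩ l
  gcongr

end Pool.Agent.Helper50.SB
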