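import Pool.Agent.Helper50.SB.Prod
import Pool.Agent.Helper52.OC.Win4
import Pool.Agent.Helper5.AF.Wts

/-! # The weighted norms for `a = 1` and `a = 2` -/

namespace Pool.Agent.Helper50.SB
open Finset Filter Topology Pool.Agent.Helper5.Cov Pool.Agent.Helper52.OC Pool.Agent.Helper5.AF
open Pool.Agent.Helper5.TV hiding cs

variable {m n : ℕ}

theorem Da_eq (h : Ok m n) (a : ℕ) (D : ℕ → ℕ → ℂ)
    (h0 : ∀ i < n, D i i = (AA m ^ (((kx n i : ℕ):ℤ) * (((kx n i : ℕ):ℤ)+1)))^a)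
    (h1 : ∀ i j, i < j → j < n → D i j * ((cs m (8*(j:ℤ)-4*n+6) - cs m (8*(i:ℤ)-4*n+6) : ℝ) : ℂ)
      = D (i+1) j - D i (j-1)) {i j : ℕ} (hij : i ≤ j) (hj : j < n) : Da a m n i j = D i j := by
  refine dd_unique (cn_inj h) D (fun i hi => (h0 i hi)) ?_ i j hij hj
  intro i j hij hj
  have := h1 i j hij hj
  rw [Complex.ofReal_sub] at this
  exact this

/-- the terms of the weighted norm -/
noncomputable def tm (a m n i j : ℕ) : ℝ := ‖Da a m n i j‖^2 * ∏ l ∈ Ioc i j, |phi m n (l:ℤ)|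

theorem tm_nonneg (a i j : ℕ) : 0 ≤ tm a m n i j :=
  mul_nonneg (by positivity) (prod_nonneg fun _ _ => abs_nonneg _)

theorem QQ_le {a : ℕ} {B : ℝ} (hn : n ≤ m) (hB : ∀ i j, i ≤ j → j < n → tm a m n i j ≤ B)
    (h0 : 0 ≤ B) : QQ a m n ≤ (m:ℝ)^2 * B := by
  have hnm : (n:ℝ) ≤ m := by exact_mod_cast hn
  unfold QQ Qd
  calc ∑ i ∈ range n, ∑ j ∈ Ico i n, ‖Da a m n i j‖^2 * ∏ l ∈ Ioc i j, |phi m n (l:ℤ)|
      ≤ ∑ i ∈ range n, ∑ j ∈ Ico i n, B := by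
        apply sum_le_sum; intro i _
        apply sum_le_sum; intro j hj
        rw [mem_Ico] at hj
        exact hB i j hj.1 hj.2
    _ ≤ ∑ i ∈ range n, (m:ℝ) * B := by
        apply sum_le_sum
        intro i _
        rw [sum_const, Nat.card_Ico, nsmul_eq_mul]
        apply mul_le_mul_of_nonneg_right _ h0
        have : ((n-i:ℕ):ℝ) ≤ n := by exact_mod_cast Nat.sub_le n i
        linarith
    _ = n * (m * B) := by rw [sum_const, card_range, nsmul_eq_mul]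
    _ ≤ m * (m * B) := by
        apply mul_le_mul_of_nonneg_right hnm
        positivity
    _ = _ := by ring

/-- the bound that is wanted -/
def Bd (a : ℕ) (V : ℝ) : Prop := ∀ ε : ℝ, 0 < ε → ∀ᶠ m : ℕ in atTop, ∀ n i j : ℕ, n ≤ m → i ≤ j → j < n →
  tm a m n i j ≤ Real.exp ((2*(m:ℝ)+1)/(2*Real.pi) * (V + ε))

/-- from the exponents with logarithmic errors to `ε` -/
theorem combine (V c : ℝ) {ε : ℝ} (hε : 0 < ε) : ∀ᶠ m : ℕ in atTop, ∀ X G : ℝ,
    X ≤ Real.exp ((dl m)⁻¹ * G + c * Er m) → G ≤ 2*V + ε →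
    X ≤ Real.exp ((2*(m:ℝ)+1)/(2*Real.pi) * (V + ε)) := by
  have hp := Real.pi_pos
  have h1 := Er_small (ε := ε/(4*Real.pi*(|c|+1))) (by positivity)
  filter_upwards [h1] with m hm X G hX hG
  refine hX.trans (Real.exp_le_exp.mpr ?_)
  have hr := rr_pos m
  have hd : 0 < (dl m)⁻¹ := inv_pos.mpr (dl_pos m)
  have e1 : c * Er m ≤ (2*m+1) * (ε/(4*Real.pi)) := by
    rcases le_or_gt 0 (Er m) with h0 | h0
    · calc c * Er m ≤ (|c|+1) * Er m := by
            apply mul_le_mul_of_nonneg_right _ h0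
            have := le_abs_self c
            linarith
        _ ≤ (|c|+1) * ((2*m+1) * (ε/(4*Real.pi*(|c|+1)))) := by gcongr
        _ = _ := by field_simp
    · exfalso
      have : 0 < Er m := by
        unfold Er
        have h2 : 1 < rh m := rh_gt m
        have h3 : 0 ≤ Real.log ((rh m+1)/(rh m-1)) := by
          apply Real.log_nonneg
          rw [le_div_iff₀ (by linarith)]
          linarith
        linarith
      linarith
  have e2 : (dl m)⁻¹ * G ≤ (dl m)⁻¹ * (2*V+ε) := mul_le_mul_of_nonneg_left hG hd.le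
  have e3 : (dl m)⁻¹ * (2*V+ε) + (2*m+1) * (ε/(4*Real.pi)) = (2*(m:ℝ)+1)/(2*Real.pi) * (V + ε) := by
    rw [dl_inv]
    field_simp
    ring
  linarith

theorem prod_phi (i D : ℕ) : ∏ l ∈ Ioc i (i+D), |phi m n (l:ℤ)| = Wn m (t1 m i) D * Wn m (t2 m n i) D *
    (Wn m (t3 m n i) D * Wn m (t4 m n i) D) := by
  rw [← abs_wd, ← abs_prod]
  congr 1
  unfold wd
  have : Ioc i (i+D) = (range D).map (addRightEmbedding (i+1)) := by
    rw [range_eq_Ico, map_add_right_Ico]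
    ext x; rw [mem_Ioc, mem_Ico]; omega
  rw [this, prod_map]
  apply prod_congr rfl
  intro l _
  simp only [addRightEmbedding_apply]
  congr 1
  push_cast
  ring

/-! ## `a = 2` -/

theorem tm_two (h : Ok m n) {i j : ℕ} (hij : i ≤ j) (hj : j < n) : tm 2 m n i j = |ww m n i j| := by
  unfold tm
  rw [Da_eq h 2 (D2 m n) (fun i hi => D2_diag i hi) (D2_rec h) hij hj]
  unfold D2 ww
  rw [norm_div, norm_zpow, AA_norm, one_zpow, norm_prod, abs_div, abs_pow, abs_prod, abs_prod, div_pow,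
    one_pow]
  have e : ∏ l ∈ Icc 1 (j-i), ‖sb (AA m) (4*(l:ℤ))‖ = ∏ l ∈ Icc 1 (j-i), |sn m (4*(l:ℤ))| := by
    apply prod_congr rfl
    intro l _
    rw [sb_AA, norm_mul, Complex.norm_I, one_mul, Complex.norm_real, Real.norm_eq_abs]
  rw [e]
  ring

theorem Bd_two : Bd 2 (4 * lob (Real.pi/4)) := by
  intro ε hε
  filter_upwards [combine (4 * lob (Real.pi/4)) 6 hε] with m hm n i j hn hij hj
  have h : Ok m n := ⟨by omega, hn⟩
  rw [tm_two h hij hj]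
  obtain ⟨D, rfl⟩ : ∃ D, j = i + D := ⟨j - i, by omega⟩
  have hD : D ≤ m := by omega
  apply hm _ (GG m n i D) (ww_le_GG hD)
  have hd := dl_pos m
  have hG : GG m n i D ≤ 8 * lob (Real.pi/4) :=
    win_total (L := D * dl m) (by positivity) (len_le hD) _ _ _ _
  linarith

/-! ## `a = 1` -/

/-- the exponent -/
def ex1 (n i j : ℤ) : ℤ := (2*i-n+1)*(2*i-n+2) + (j-i)*(4*i-2*n+5)

/-- the twist in the even split basis -/
noncomputable def D1 (m n i j : ℕ) : ℂ :=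
  AA m ^ (ex1 n i j) / ((∏ l ∈ Icc 1 (j-i), sb (AA m) (4*(l:ℤ))) *
    ((∏ l ∈ Ico i j, cs m (4*(l:ℤ)-2*n+5) : ℝ) : ℂ))

theorem D1_diag (i : ℕ) (hi : i < n) :
    D1 m n i i = (AA m ^ (((kx n i : ℕ):ℤ) * (((kx n i : ℕ):ℤ)+1)))^1 := by
  unfold D1
  rw [Nat.sub_self, Icc_eq_empty (by norm_num), prod_empty, Ico_self, prod_empty, Complex.ofReal_one,
    mul_one, div_one, pow_one]
  congr 1
  unfold ex1
  rcases kx_spec hi with hh | hh
  · have : ((kx n i : ℕ):ℤ) = 2*i-n+1 := by omega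
    rw [this]; ring
  · have : ((kx n i : ℕ):ℤ) = -2*i+n-2 := by omega
    rw [this]; ring

theorem cs_ne_zero (k : ℤ) : cs m k ≠ 0 := by
  have h := cs_far (m := m) k
  have hr := rr_pos m
  intro h0
  rw [h0, abs_zero] at h
  have : 0 < 1/(2*(m:ℝ)+1) := by positivity
  linarith

theorem sb_cb (P Q : ℤ) :
    sb (AA m) (P+Q) = AA m ^ Q * cb (AA m) P - AA m ^ (-P) * cb (AA m) Q := by
  have hA := AA_ne m
  unfold sb cb
  rw [neg_add, zpow_add₀ hA, zpow_add₀ hA]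
  have hq : AA m ^ Q ≠ 0 := zpow_ne_zero _ hA
  have hp' : AA m ^ P ≠ 0 := zpow_ne_zero _ hA
  rw [_root_.zpow_neg, _root_.zpow_neg]
  field_simp
  ring

theorem D1_rec (h : Ok m n) (i j : ℕ) (hij : i < j) (hj : j < n) :
    D1 m n i j * ((cs m (8*(j:ℤ)-4*n+6) - cs m (8*(i:ℤ)-4*n+6) : ℝ) : ℂ)
      = D1 m n (i+1) j - D1 m n i (j-1) := by
  have hA := AA_ne m
  obtain ⟨d, rfl⟩ : ∃ d, j = i + 1 + d := ⟨j - (i+1), by omega⟩
  have e1 : ((cs m (8*((i+1+d:ℕ):ℤ)-4*n+6) - cs m (8*(i:ℤ)-4*n+6) : ℝ) : ℂ)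
      = sb (AA m) (4*(d+1:ℕ)) * sb (AA m) (4*(2*i+1+d)-4*n+6) := by
    rw [sb_mul_sb hA, cb_AA, cb_AA]
    have a1 : (4*((d+1:ℕ):ℤ)) + (4*(2*i+1+d)-4*n+6) = 8*((i+1+d:ℕ):ℤ)-4*n+6 := by push_cast; ring
    have a2 : (4*((d+1:ℕ):ℤ)) - (4*(2*i+1+d)-4*n+6) = -(8*(i:ℤ)-4*n+6) := by push_cast; ring
    rw [a1, a2, cs_neg]
    push_cast
    ring
  rw [e1]
  unfold D1
  have b1 : i + 1 + d - i = d + 1 := by omega
  have b2 : i + 1 + d - (i + 1) = d := by omega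
  have b3 : i + 1 + d - 1 - i = d := by omega
  have b4 : i + 1 + d - 1 = i + d := by omega
  rw [b1, b2, b3, b4, prod_Icc_succ_top (by omega : 1 ≤ d + 1)]
  have hp := prod_sb_ne h (d := d) (by omega)
  have hs := sb_four_ne h (l := d+1) (by omega) (by omega)
  -- the products of cosines
  set P : ℤ := 4*(i:ℤ)-2*n+5 with hP
  set Q : ℤ := 4*((i:ℤ)+d)-2*n+5 with hQ
  have c1 : ∏ l ∈ Ico i (i+1+d), cs m (4*(l:ℤ)-2*n+5)
      = cs m P * ∏ l ∈ Ico (i+1) (i+1+d), cs m (4*(l:ℤ)-2*n+5) := by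
    rw [prod_eq_prod_Ico_succ_bot (by omega)]
  have c2 : ∏ l ∈ Ico i (i+1+d), cs m (4*(l:ℤ)-2*n+5)
      = (∏ l ∈ Ico i (i+d), cs m (4*(l:ℤ)-2*n+5)) * cs m Q := by
    rw [show i+1+d = (i+d)+1 by ring, prod_Ico_succ_top (by omega)]
    push_cast
    rfl
  have hK : ∏ l ∈ Ico i (i+1+d), cs m (4*(l:ℤ)-2*n+5) ≠ 0 := by
    rw [prod_ne_zero_iff]; intro l _; exact cs_ne_zero _
  have hK1 : ∏ l ∈ Ico (i+1) (i+1+d), cs m (4*(l:ℤ)-2*n+5) ≠ 0 := by
    rw [prod_ne_zero_iff]; intro l _; exact cs_ne_zero _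
  have hK2 : ∏ l ∈ Ico i (i+d), cs m (4*(l:ℤ)-2*n+5) ≠ 0 := by
    rw [prod_ne_zero_iff]; intro l _; exact cs_ne_zero _
  set K := ∏ l ∈ Ico i (i+1+d), cs m (4*(l:ℤ)-2*n+5) with hKdef
  set K1 := ∏ l ∈ Ico (i+1) (i+1+d), cs m (4*(l:ℤ)-2*n+5) with hK1def
  set K2 := ∏ l ∈ Ico i (i+d), cs m (4*(l:ℤ)-2*n+5) with hK2def
  have c1' : ((K:ℝ):ℂ) = cb (AA m) P * ((K1:ℝ):ℂ) := by rw [cb_AA, c1]; push_cast; rfl
  have c2' : ((K:ℝ):ℂ) = ((K2:ℝ):ℂ) * cb (AA m) Q := by rw [cb_AA, c2]; push_cast; rfl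
  have hKc : ((K:ℝ):ℂ) ≠ 0 := by exact_mod_cast hK
  have hK1c : ((K1:ℝ):ℂ) ≠ 0 := by exact_mod_cast hK1
  have hK2c : ((K2:ℝ):ℂ) ≠ 0 := by exact_mod_cast hK2
  have f1 : ex1 n ((i+1:ℕ):ℤ) ((i+1+d:ℕ):ℤ) = ex1 n i ((i+1+d:ℕ):ℤ) + Q := by
    rw [hQ]; unfold ex1; push_cast; ring
  have f2 : ex1 n i ((i+d:ℕ):ℤ) = ex1 n i ((i+1+d:ℕ):ℤ) + (-P) := by
    rw [hP]; unfold ex1; push_cast; ring
  have f3 : (4*(2*(i:ℤ)+1+d)-4*n+6) = P + Q := by rw [hP, hQ]; ring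
  rw [f1, f2, f3, zpow_add₀ hA (ex1 n i ((i+1+d:ℕ):ℤ)) Q, zpow_add₀ hA (ex1 n i ((i+1+d:ℕ):ℤ)) (-P)]
  set E := AA m ^ ex1 n i ((i+1+d:ℕ):ℤ) with hE
  set S := ∏ l ∈ Icc 1 d, sb (AA m) (4*(l:ℤ)) with hS
  set s1 := sb (AA m) (4*((d+1:ℕ):ℤ)) with hs1
  rw [sb_cb]
  have g1 : E * AA m ^ Q / (S * ((K1:ℝ):ℂ)) = E * (AA m ^ Q * cb (AA m) P) / (S * ((K:ℝ):ℂ)) := by
    rw [div_eq_div_iff (mul_ne_zero hp hK1c) (mul_ne_zero hp hKc), c1']
    ring
  have g2 : E * AA m ^ (-P) / (S * ((K2:ℝ):ℂ)) = E * (AA m ^ (-P) * cb (AA m) Q) / (S * ((K:ℝ):ℂ)) := by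
    rw [div_eq_div_iff (mul_ne_zero hp hK2c) (mul_ne_zero hp hKc), c2']
    ring
  rw [g1, g2]
  field_simp

theorem lob_tri (θ : ℝ) {L : ℝ} (h0 : 0 ≤ L) (h1 : L ≤ 2*Real.pi) :
    lob θ - lob (θ+L) + lob L ≤ 3 * lob (Real.pi/3) := by
  have hp := Real.pi_pos
  have key : ∀ K : ℝ, 0 ≤ K → K ≤ Real.pi → lob θ - lob (θ+K) + lob K ≤ 3 * lob (Real.pi/3) := by
    intro K k0 k1
    have h2 := win_max k0 k1 θ
    have h3 := lob_double (K/2)
    rw [show 2*(K/2) = K by ring, show Real.pi/2 - K/2 = (Real.pi - K)/2 by ring] at h3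
    have h4 := lob_le_sixth (u := K/2) (by linarith) (by linarith)
    have h5 := lob_third
    linarith
  rcases le_or_gt L Real.pi with h | h
  · exact key L h0 h
  · have h2 := key (L - Real.pi) (by linarith) (by linarith)
    have e1 : lob (θ + (L - Real.pi)) = lob (θ + L) := by
      rw [← lob_add_pi (θ + (L - Real.pi))]; congr 1; ring
    have e2 : lob (L - Real.pi) = lob L := by
      rw [← lob_add_pi (L - Real.pi)]; congr 1; ring
    rw [e1, e2] at h2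
    exact h2

theorem tm_one (h : Ok m n) {i D : ℕ} (hj : i + D < n) :
    tm 1 m n i (i+D) = Wn m (t1 m i) D * Wn m (t2 m n i) D * Wn m (t4 m n i) D
      / ((Wn m 0 D)^2 * Wn m (t3 m n i) D) := by
  unfold tm
  rw [Da_eq h 1 (D1 m n) (fun i hi => D1_diag i hi) (D1_rec h) (by omega) hj, prod_phi]
  unfold D1
  have e1 : ‖∏ l ∈ Icc 1 (i+D-i), sb (AA m) (4*(l:ℤ))‖ = Wn m 0 D := by
    rw [Nat.add_sub_cancel_left, ← den_Wn, norm_prod, abs_prod]
    apply prod_congr rfl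
    intro l _
    rw [sb_AA, norm_mul, Complex.norm_I, one_mul, Complex.norm_real, Real.norm_eq_abs]
  have e2 : ‖((∏ l ∈ Ico i (i+D), cs m (4*(l:ℤ)-2*n+5) : ℝ) : ℂ)‖ = Wn m (t3 m n i) D := by
    rw [Complex.norm_real, Real.norm_eq_abs, abs_prod]
    have : Ico i (i+D) = (range D).map (addRightEmbedding i) := by
      rw [range_eq_Ico, map_add_right_Ico]
      ext x; rw [mem_Ico, mem_Ico]; omega
    rw [this, prod_map]
    unfold Wn
    apply prod_congr rfl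
    intro l _
    rw [← cs_t3]
    simp only [addRightEmbedding_apply]
    congr 2
    push_cast
    ring
  rw [norm_div, norm_zpow, AA_norm, one_zpow, norm_mul, e1, e2]
  have hw : Wn m (t3 m n i) D ≠ 0 := by
    unfold Wn
    rw [prod_ne_zero_iff]
    intro l _
    rw [← cs_t3]
    exact abs_ne_zero.mpr (cs_ne_zero _)
  have hw0 : Wn m 0 D ≠ 0 := by
    have := den_lower (m := m) (D := D) (by have := h.2; omega)
    exact (lt_of_lt_of_le (Real.exp_pos _) this).ne'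
  field_simp

theorem Bd_one : Bd 1 (3 * lob (Real.pi/3)) := by
  intro ε hε
  have hp := Real.pi_pos
  obtain ⟨d, hd0, hd⟩ := lob_uc (show 0 < ε/2 by positivity)
  have h1 := ds_tendsto.eventually (Iic_mem_nhds hd0)
  filter_upwards [combine (3 * lob (Real.pi/3)) 6 hε, h1] with m hm h1 n i j hn hij hj
  have h : Ok m n := ⟨by omega, hn⟩
  obtain ⟨D, rfl⟩ : ∃ D, j = i + D := ⟨j - i, by omega⟩
  have hD : D ≤ m := by omega
  have hdl := dl_pos m
  set L := (D:ℝ) * dl m with hL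
  have hL0 : 0 ≤ L := by positivity
  have hL1 := len_le hD
  rw [← hL] at hL1
  refine hm _ ((lob (t1 m i) - lob (t1 m i + L) + lob L) + (lob (t2 m n i) - lob (t2 m n i + L) + lob L)
    + ((lob (t4 m n i) - lob (t4 m n i + L)) - (lob (t3 m n i) - lob (t3 m n i + L)))) ?_ ?_
  · rw [tm_one h hj]
    have a1 := win_upper hD (t1 m i)
    have a2 := win_upper hD (t2 m n i)
    have a4 := win_upper hD (t4 m n i)
    have a3 : Real.exp ((dl m)⁻¹ * (lob (t3 m n i) - lob (t3 m n i+D*dl m)) - Er m)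
        ≤ Wn m (t3 m n i) D := by
      apply win_lower hD
      intro l _
      rw [← cs_t3]
      exact cs_far _
    have a0 := den_lower (m := m) hD
    rw [← hL] at a0 a1 a2 a3 a4
    have b1 := Wn_nonneg (m := m) (t1 m i) D
    have b2 := Wn_nonneg (m := m) (t2 m n i) D
    have b4 := Wn_nonneg (m := m) (t4 m n i) D
    have p3 : 0 < Wn m (t3 m n i) D := lt_of_lt_of_le (Real.exp_pos _) a3
    have p0 : 0 < Wn m 0 D := lt_of_lt_of_le (Real.exp_pos _) a0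
    rw [div_le_iff₀ (by positivity)]
    calc Wn m (t1 m i) D * Wn m (t2 m n i) D * Wn m (t4 m n i) D
        ≤ Real.exp ((dl m)⁻¹ * (lob (t1 m i) - lob (t1 m i+L)) + Er m) *
          Real.exp ((dl m)⁻¹ * (lob (t2 m n i) - lob (t2 m n i+L)) + Er m) *
          Real.exp ((dl m)⁻¹ * (lob (t4 m n i) - lob (t4 m n i+L)) + Er m) := by
          unfold Wn at *
          gcongr
      _ = Real.exp ((dl m)⁻¹ * ((lob (t1 m i) - lob (t1 m i + L) + lob L)
            + (lob (t2 m n i) - lob (t2 m n i + L) + lob L)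
            + ((lob (t4 m n i) - lob (t4 m n i + L)) - (lob (t3 m n i) - lob (t3 m n i + L)))) + 6 * Er m)
          * ((Real.exp ((dl m)⁻¹ * (- lob L) - Er m))^2
            * Real.exp ((dl m)⁻¹ * (lob (t3 m n i) - lob (t3 m n i+L)) - Er m)) := by
          rw [← Real.exp_nat_mul, ← Real.exp_add, ← Real.exp_add, ← Real.exp_add, ← Real.exp_add]
          congr 1
          push_cast; ring
      _ ≤ _ := by gcongr
  · have c1 := lob_tri (t1 m i) hL0 hL1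
    have c2 := lob_tri (t2 m n i) hL0 hL1
    have e : t3 m n i - t4 m n i = ds m := by unfold t3 t4 ds; ring
    have hds := ds_pos m
    have c3 := hd (t4 m n i) (t3 m n i) (by
      rw [abs_sub_comm, e, abs_of_pos hds]; exact h1)
    have c4 := hd (t4 m n i + L) (t3 m n i + L) (by
      rw [show t4 m n i + L - (t3 m n i + L) = -(t3 m n i - t4 m n i) by ring, e, abs_neg, abs_of_pos hds]
      exact h1)
    have c3' := (abs_le.mp c3).2
    have c4' := (abs_le.mp c4).1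
    linarith

end Pool.Agent.Helper50.SB
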