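import Pool.Agent.Helper50.SB.Small
import Pool.Agent.Helper50.SB.Ineq

/-! # The trivial bound for the divided differences -/

namespace Pool.Agent.Helper50.SB
open Finset Filter Topology Pool.Agent.Helper5.Cov Pool.Agent.Helper52.OC Pool.Agent.Helper5.AF
open Pool.Agent.Helper5.TV hiding cs

variable {m n : ℕ}

/-! ## tools -/

/-- closeness on the scale of the mesh -/
def Near (m : ℕ) (ε : ℝ) : Prop :=
  ∀ x y c : ℝ, x - y = c * (Real.pi/(2*(m:ℝ)+1)) → |c| ≤ 5 → |lob x - lob y| ≤ ε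

theorem near_ev {ε : ℝ} (hε : 0 < ε) : ∀ᶠ m : ℕ in atTop, Near m ε := by
  have hp := Real.pi_pos
  obtain ⟨d, hd0, hd⟩ := lob_uc hε
  have h1 := ds_tendsto.eventually (Iic_mem_nhds (show 0 < d/5 by positivity))
  filter_upwards [h1] with m h1 x y c hxy hc
  apply hd
  have hr := rr_pos m
  have hu : 0 < Real.pi/(2*(m:ℝ)+1) := by positivity
  rw [hxy, abs_mul, abs_of_pos hu]
  unfold ds at h1
  have h2 : 2*(Real.pi/(2*(m:ℝ)+1)) ≤ d/5 := h1
  nlinarith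

/-- combination of the errors -/
theorem combine2 (V c C : ℝ) (k : ℕ) {ε : ℝ} (hε : 0 < ε) : ∀ᶠ m : ℕ in atTop, ∀ X G : ℝ,
    X ≤ C * (2*(m:ℝ)+1)^k * Real.exp ((dl m)⁻¹ * G + c * Er m) → G ≤ 2*V + ε →
    X ≤ Real.exp ((2*(m:ℝ)+1)/(2*Real.pi) * (V + ε)) := by
  have hp := Real.pi_pos
  have h1 := two_m_tendsto.eventually (poly_le_exp k C (show 0 < ε/(8*Real.pi) by positivity))
  filter_upwards [h1, combine V c hε, Er_small (ε := ε/(8*Real.pi*(|c|+1))) (by positivity)] with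
    m h1 h2 h3 X G hX hG
  push_cast at h1
  have hr := rr_pos m
  have hd : 0 < (dl m)⁻¹ := inv_pos.mpr (dl_pos m)
  have e1 : c * Er m ≤ (2*m+1) * (ε/(8*Real.pi)) := by
    rcases le_or_gt 0 (Er m) with h0 | h0
    · calc c * Er m ≤ (|c|+1) * Er m := by
            apply mul_le_mul_of_nonneg_right _ h0
            have := le_abs_self c
            linarith
        _ ≤ (|c|+1) * ((2*m+1) * (ε/(8*Real.pi*(|c|+1)))) := by gcongr
        _ = _ := by field_simp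
    · exfalso
      have : 0 < Er m := by
        unfold Er
        have h2 : 1 < rh m := rh_gt m
        have h3 : 0 ≤ Real.log ((rh m+1)/(rh m-1)) := by
          apply Real.log_nonneg
          rw [le_div_iff₀ (by linarith)]
          linarith
        linarith
      linarith
  have e2 : (dl m)⁻¹ * G ≤ (dl m)⁻¹ * (2*V+ε) := mul_le_mul_of_nonneg_left hG hd.le
  have e3 : (dl m)⁻¹ * (2*V+ε) + ((2*m+1) * (ε/(8*Real.pi)) + (2*m+1) * (ε/(8*Real.pi)))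
      = (2*(m:ℝ)+1)/(2*Real.pi) * (V + ε) := by
    rw [dl_inv]
    field_simp
    ring
  calc X ≤ C * (2*(m:ℝ)+1)^k * Real.exp ((dl m)⁻¹ * G + c * Er m) := hX
    _ ≤ Real.exp ((2*m+1) * (ε/(8*Real.pi))) * Real.exp ((dl m)⁻¹ * G + c * Er m) := by gcongr
    _ = Real.exp ((2*m+1) * (ε/(8*Real.pi)) + ((dl m)⁻¹ * G + c * Er m)) := by rw [← Real.exp_add]
    _ ≤ _ := Real.exp_le_exp.mpr (by linarith)

theorem sq_sum_bound {ι : Type*} (S : Finset ι) (b : ι → ℝ) {A Φ X : ℝ} (hA0 : 0 ≤ A)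
    (hA : A ≤ ∑ l ∈ S, b l) (hΦ : 0 ≤ Φ) (hb : ∀ l ∈ S, b l ^ 2 * Φ ≤ X) :
    A^2 * Φ ≤ (S.card:ℝ)^2 * X := by
  have h1 : A^2 ≤ (∑ l ∈ S, b l)^2 := pow_le_pow_left₀ hA0 hA 2
  have h2 := sq_sum_le_card_mul_sum_sq (s := S) (f := b)
  calc A^2 * Φ ≤ ((S.card:ℝ) * ∑ l ∈ S, b l ^ 2) * Φ :=
        mul_le_mul_of_nonneg_right (h1.trans h2) hΦ
    _ = (S.card:ℝ) * ∑ l ∈ S, b l ^ 2 * Φ := by rw [mul_assoc, sum_mul]
    _ ≤ (S.card:ℝ) * ∑ l ∈ S, X := by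
        apply mul_le_mul_of_nonneg_left (sum_le_sum hb) (Nat.cast_nonneg _)
    _ = _ := by rw [sum_const, nsmul_eq_mul]; ring

theorem not_dvd_two' {k : ℤ} (h0 : k ≠ 0) (h1 : |k| < 2*m+1) : ¬ (2*(m:ℤ)+1) ∣ 2*k := by
  intro h
  have h2 : IsCoprime (2*(m:ℤ)+1) 2 := ⟨1, -m, by ring⟩
  have h3 := h2.dvd_of_dvd_mul_left h
  have h4 := Int.le_of_dvd (abs_pos.mpr h0) ((dvd_abs _ _).mpr h3)
  omega

/-! ## the product of the distances of the nodes -/

theorem cn_sub (l k : ℕ) : ‖cn m n l - cn m n k‖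
    = |sn m (4*((l:ℤ)+k)-4*n+6)| * |sn m (4*((l:ℤ)-k))| := by
  unfold cn
  rw [← Complex.ofReal_sub, Complex.norm_real, Real.norm_eq_abs,
    cs_sub (8*(l:ℤ)-4*n+6) (8*(k:ℤ)-4*n+6) (4*((l:ℤ)+k)-4*n+6) (4*((l:ℤ)-k)) (by ring) (by ring),
    abs_neg, abs_mul]

theorem Icc_erase (i p q : ℕ) : (Icc i (i+p+q)).erase (i+p)
    = (range p).map (addLeftEmbedding i) ∪ (range q).map (addLeftEmbedding (i+p+1)) := by
  ext x
  simp only [mem_erase, mem_Icc, mem_union, Finset.mem_map, mem_range, addLeftEmbedding_apply]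
  constructor
  · rintro ⟨h1, h2, h3⟩
    rcases lt_or_gt_of_ne h1 with h | h
    · exact Or.inl ⟨x - i, by omega, by omega⟩
    · exact Or.inr ⟨x - (i+p+1), by omega, by omega⟩
  · rintro (⟨y, h1, h2⟩ | ⟨y, h1, h2⟩) <;> omega

theorem prod_Icc_erase (f : ℕ → ℝ) (i p q : ℕ) : ∏ k ∈ (Icc i (i+p+q)).erase (i+p), f k
    = (∏ s ∈ range p, f (i+s)) * ∏ s ∈ range q, f (i+p+1+s) := by
  rw [Icc_erase, prod_union, prod_map, prod_map]
  · rfl
  · rw [disjoint_left]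
    intro x h1 h2
    simp only [Finset.mem_map, mem_range, addLeftEmbedding_apply] at h1 h2
    obtain ⟨y, h3, h4⟩ := h1
    obtain ⟨z, h5, h6⟩ := h2
    omega

theorem abs_sn_four (k : ℕ) : |sn m (4*((k:ℤ)+1))| = |2*Real.sin (0 + ((k:ℝ)+1)*dl m)| := by
  unfold sn dl
  congr 2
  push_cast
  congr 1
  ring

theorem prod_diff (i p q : ℕ) : ∏ k ∈ (Icc i (i+p+q)).erase (i+p), |sn m (4*(((i+p:ℕ):ℤ)-k))|
    = Wn m 0 p * Wn m 0 q := by
  rw [prod_Icc_erase (fun k => |sn m (4*(((i+p:ℕ):ℤ)-k))|)]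
  congr 1
  · rw [← prod_range_reflect]
    unfold Wn
    apply prod_congr rfl
    intro s hs
    rw [mem_range] at hs
    rw [← abs_sn_four]
    congr 2
    have : ((i + (p - 1 - s) : ℕ) : ℤ) = i + (p - 1 - s) := by omega
    rw [this]; push_cast; ring
  · unfold Wn
    apply prod_congr rfl
    intro s _
    rw [← abs_sn_four, show 4*(((i+p:ℕ):ℤ)-((i+p+1+s:ℕ):ℤ)) = -(4*((s:ℤ)+1)) by push_cast; ring, sn_neg,
      abs_neg]

/-- offset of the window of sums -/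
noncomputable def tt (m n l i : ℕ) : ℝ := (4*((l:ℝ)+i)-4*n+2) * (Real.pi/(2*(m:ℝ)+1))

theorem sn_tt (l i s : ℕ) : |sn m (4*((l:ℤ)+((i+s:ℕ):ℤ))-4*n+6)| = |2*Real.sin (tt m n l i + ((s:ℝ)+1)*dl m)| := by
  unfold sn dl tt
  congr 2
  push_cast
  congr 1
  ring

theorem abs_sn_le (k : ℤ) : |sn m k| ≤ 2 := abs_two_sin _

theorem Wn_le_prod_sum (i p q : ℕ) : Wn m (tt m n (i+p) i) (p+q+1)
    ≤ (∏ k ∈ (Icc i (i+p+q)).erase (i+p), |sn m (4*(((i+p:ℕ):ℤ)+k)-4*n+6)|) * 2 := by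
  have h1 : Wn m (tt m n (i+p) i) (p+q+1) = ∏ k ∈ Icc i (i+p+q), |sn m (4*(((i+p:ℕ):ℤ)+k)-4*n+6)| := by
    have : Icc i (i+p+q) = (range (p+q+1)).map (addLeftEmbedding i) := by
      ext x
      simp only [mem_Icc, Finset.mem_map, mem_range, addLeftEmbedding_apply]
      constructor
      · rintro ⟨h1, h2⟩; exact ⟨x - i, by omega, by omega⟩
      · rintro ⟨y, h1, h2⟩; omega
    rw [this, prod_map]
    unfold Wn
    apply prod_congr rfl
    intro s _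
    rw [← sn_tt]
    rfl
  rw [h1, ← prod_erase_mul (Icc i (i+p+q)) _ (a := i+p) (by rw [mem_Icc]; omega)]
  apply mul_le_mul_of_nonneg_left (abs_sn_le _)
  exact prod_nonneg fun _ _ => abs_nonneg _

theorem Wn0_lower {p : ℕ} (hp : p ≤ m) : Real.exp (-((dl m)⁻¹ * lob (p*dl m)) - Er m) ≤ Wn m 0 p := by
  have := den_lower (m := m) hp
  rwa [mul_neg] at this

theorem Wn_pos0 {p : ℕ} (hp : p ≤ m) : 0 < Wn m 0 p := lt_of_lt_of_le (Real.exp_pos _) (Wn0_lower hp)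

theorem Wtt_lower (hn : n ≤ m) {i p q : ℕ} (hj : i + p + q < n) :
    Real.exp ((dl m)⁻¹ * (lob (tt m n (i+p) i) - lob (tt m n (i+p) i + ((p+q+1:ℕ):ℝ)*dl m)) - Er m)
      ≤ Wn m (tt m n (i+p) i) (p+q+1) := by
  apply win_lower (by omega)
  intro s hs
  rw [← sn_tt]
  apply sn_far
  rw [show 4*(((i+p:ℕ):ℤ)+((i+s:ℕ):ℤ))-4*n+6 = 2*(2*(((i+p:ℕ):ℤ)+((i+s:ℕ):ℤ))-2*n+3) by ring]
  apply not_dvd_two'
  · push_cast; omega
  · rw [abs_lt]; push_cast; omega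

/-- the exponent of one term -/
noncomputable def gt (m n i p q : ℕ) : ℝ := lob (p*dl m) + lob (q*dl m)
  - (lob (tt m n (i+p) i) - lob (tt m n (i+p) i + ((p+q+1:ℕ):ℝ)*dl m))

theorem inv_prod_le (hn : n ≤ m) {i p q : ℕ} (hj : i + p + q < n) :
    ‖(∏ k ∈ (Icc i (i+p+q)).erase (i+p), (cn m n (i+p) - cn m n k))⁻¹‖
      ≤ 2 * Real.exp ((dl m)⁻¹ * gt m n i p q + 3 * Er m) := by
  rw [norm_inv, norm_prod]
  have e1 : ∏ k ∈ (Icc i (i+p+q)).erase (i+p), ‖cn m n (i+p) - cn m n k‖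
      = (∏ k ∈ (Icc i (i+p+q)).erase (i+p), |sn m (4*(((i+p:ℕ):ℤ)+k)-4*n+6)|) * (Wn m 0 p * Wn m 0 q) := by
    rw [← prod_diff, ← prod_mul_distrib]
    apply prod_congr rfl
    intro k _
    rw [cn_sub]
  rw [e1]
  have h1 := Wn_le_prod_sum (m := m) (n := n) i p q
  have h2 := Wtt_lower hn hj
  have h3 := Wn0_lower (m := m) (p := p) (by omega)
  have h4 := Wn0_lower (m := m) (p := q) (by omega)
  have h3' := Wn_nonneg (m := m) 0 p
  set B := ∏ k ∈ (Icc i (i+p+q)).erase (i+p), |sn m (4*(((i+p:ℕ):ℤ)+k)-4*n+6)| with hB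
  have h5 : Real.exp ((dl m)⁻¹ * (lob (tt m n (i+p) i) - lob (tt m n (i+p) i + ((p+q+1:ℕ):ℝ)*dl m)) - Er m)/2
      ≤ B := by linarith
  have h6 : Real.exp (-((dl m)⁻¹ * gt m n i p q + 3 * Er m)) / 2 ≤ B * (Wn m 0 p * Wn m 0 q) := by
    calc Real.exp (-((dl m)⁻¹ * gt m n i p q + 3 * Er m)) / 2
        = (Real.exp ((dl m)⁻¹ * (lob (tt m n (i+p) i) - lob (tt m n (i+p) i + ((p+q+1:ℕ):ℝ)*dl m)) - Er m)/2)
          * (Real.exp (-((dl m)⁻¹ * lob (p*dl m)) - Er m) * Real.exp (-((dl m)⁻¹ * lob (q*dl m)) - Er m)) := by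
          rw [← Real.exp_add, div_mul_eq_mul_div, ← Real.exp_add]
          congr 2
          unfold gt
          ring
      _ ≤ _ := by gcongr
  have h7 : 0 < Real.exp (-((dl m)⁻¹ * gt m n i p q + 3 * Er m)) / 2 := by positivity
  refine (inv_anti₀ h7 h6).trans (le_of_eq ?_)
  rw [Real.exp_neg]
  field_simp

theorem tw_norm (a k : ℕ) : ‖(AA m ^ ((k:ℤ)*(k+1)))^a‖ = 1 := by
  rw [norm_pow, norm_zpow, AA_norm, one_zpow, one_pow]

/-- the trivial bound -/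
theorem Da_triv (hn : n ≤ m) (a : ℕ) {i D : ℕ} (hj : i + D < n) :
    ‖Da a m n i (i+D)‖ ≤ ∑ p ∈ range (D+1), 2 * Real.exp ((dl m)⁻¹ * gt m n i p (D-p) + 3 * Er m) := by
  unfold Da Dw dd
  refine (norm_sum_le _ _).trans ?_
  have : Icc i (i+D) = (range (D+1)).map (addLeftEmbedding i) := by
    ext x
    simp only [mem_Icc, Finset.mem_map, mem_range, addLeftEmbedding_apply]
    constructor
    · rintro ⟨h1, h2⟩; exact ⟨x - i, by omega, by omega⟩
    · rintro ⟨y, h1, h2⟩; omega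
  calc ∑ l ∈ Icc i (i+D), ‖(AA m ^ (((kx n l : ℕ):ℤ)*((kx n l : ℕ)+1)))^a *
        (∏ k ∈ (Icc i (i+D)).erase l, (cn m n l - cn m n k))⁻¹‖
      = ∑ l ∈ Icc i (i+D), ‖(∏ k ∈ (Icc i (i+D)).erase l, (cn m n l - cn m n k))⁻¹‖ := by
        apply sum_congr rfl
        intro l _
        rw [norm_mul, tw_norm, one_mul]
    _ = ∑ p ∈ range (D+1), ‖(∏ k ∈ (Icc i (i+D)).erase (i+p), (cn m n (i+p) - cn m n k))⁻¹‖ := by
        conv_lhs => rw [this, sum_map]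
        apply sum_congr rfl
        intro p _
        rw [addLeftEmbedding_apply, ← this]
    _ ≤ _ := by
        apply sum_le_sum
        intro p hp
        rw [mem_range] at hp
        have e : i + D = i + p + (D - p) := by omega
        rw [e]
        exact inv_prod_le hn (by omega)

/-- the exponent of the weights -/
noncomputable def GW (m n i D : ℕ) : ℝ :=
  (lob (t1 m i) - lob (t1 m i + D*dl m)) + (lob (t2 m n i) - lob (t2 m n i + D*dl m))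
  + (lob (t3 m n i) - lob (t3 m n i + D*dl m)) + (lob (t4 m n i) - lob (t4 m n i + D*dl m))

theorem phi_upper (i : ℕ) {D : ℕ} (hD : D ≤ m) : ∏ l ∈ Ioc i (i+D), |phi m n (l:ℤ)|
    ≤ Real.exp ((dl m)⁻¹ * GW m n i D + 4 * Er m) := by
  rw [prod_phi]
  have a1 := win_upper hD (t1 m i)
  have a2 := win_upper hD (t2 m n i)
  have a3 := win_upper hD (t3 m n i)
  have a4 := win_upper hD (t4 m n i)
  have b1 := Wn_nonneg (m := m) (t1 m i) D
  have b2 := Wn_nonneg (m := m) (t2 m n i) D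
  have b3 := Wn_nonneg (m := m) (t3 m n i) D
  have b4 := Wn_nonneg (m := m) (t4 m n i) D
  calc _ ≤ Real.exp ((dl m)⁻¹ * (lob (t1 m i) - lob (t1 m i+D*dl m)) + Er m) *
        Real.exp ((dl m)⁻¹ * (lob (t2 m n i) - lob (t2 m n i+D*dl m)) + Er m) *
        (Real.exp ((dl m)⁻¹ * (lob (t3 m n i) - lob (t3 m n i+D*dl m)) + Er m) *
        Real.exp ((dl m)⁻¹ * (lob (t4 m n i) - lob (t4 m n i+D*dl m)) + Er m)) := by
        unfold Wn at *
        gcongr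
    _ = _ := by
        rw [← Real.exp_add, ← Real.exp_add, ← Real.exp_add]
        congr 1
        unfold GW
        ring

/-- the windows that are not central -/
theorem tm_triv (hn : n ≤ m) (a : ℕ) {i D : ℕ} (hj : i + D < n) {G : ℝ}
    (hG : ∀ p ∈ range (D+1), 2 * gt m n i p (D-p) + GW m n i D ≤ G) :
    tm a m n i (i+D) ≤ 4 * (2*(m:ℝ)+1)^2 * Real.exp ((dl m)⁻¹ * G + 10 * Er m) := by
  have hr := rr_pos m
  have hd : 0 < (dl m)⁻¹ := inv_pos.mpr (dl_pos m)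
  have h := sq_sum_bound (range (D+1))
    (fun p => 2 * Real.exp ((dl m)⁻¹ * gt m n i p (D-p) + 3 * Er m)) (norm_nonneg _) (Da_triv hn a hj)
    (Φ := ∏ l ∈ Ioc i (i+D), |phi m n (l:ℤ)|) (X := 4 * Real.exp ((dl m)⁻¹ * G + 10 * Er m))
    (prod_nonneg fun _ _ => abs_nonneg _) (by
      intro p hp
      have h1 := phi_upper (m := m) (n := n) i (D := D) (by omega)
      calc (2 * Real.exp ((dl m)⁻¹ * gt m n i p (D-p) + 3 * Er m))^2 * ∏ l ∈ Ioc i (i+D), |phi m n (l:ℤ)|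
          ≤ (2 * Real.exp ((dl m)⁻¹ * gt m n i p (D-p) + 3 * Er m))^2
            * Real.exp ((dl m)⁻¹ * GW m n i D + 4 * Er m) := by gcongr
        _ = 4 * Real.exp ((dl m)⁻¹ * (2 * gt m n i p (D-p) + GW m n i D) + 10 * Er m) := by
            rw [mul_pow, ← Real.exp_nat_mul, mul_assoc, ← Real.exp_add]
            norm_num
            ring
        _ ≤ _ := by
            apply mul_le_mul_of_nonneg_left _ (by norm_num)
            apply Real.exp_le_exp.mpr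
            have := mul_le_mul_of_nonneg_left (hG p hp) hd.le
            linarith)
  unfold tm
  refine h.trans ?_
  rw [card_range]
  have hD : ((D+1:ℕ):ℝ) ≤ 2*m+1 := by
    have : D + 1 ≤ 2*m+1 := by omega
    exact_mod_cast this
  calc ((D+1:ℕ):ℝ)^2 * (4 * Real.exp ((dl m)⁻¹ * G + 10 * Er m))
      ≤ (2*(m:ℝ)+1)^2 * (4 * Real.exp ((dl m)⁻¹ * G + 10 * Er m)) := by gcongr
    _ = _ := by ring

end Pool.Agent.Helper50.SB
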